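import Pool.Agent.Helper163.Split
import Pool.Agent.Helper163.Data

set_option autoImplicit false

namespace Pool.Agent.Helper163

theorem cd0_0 : chkDataL ((dat0.drop 0).take 5) 0 = true := by decide +kernel

theorem cd0_5 : chkDataL ((dat0.drop 5).take 5) 5 = true := by decide +kernel

theorem cd0_10 : chkDataL ((dat0.drop 10).take 5) 10 = true := by decide +kernel

theorem cd0_15 : chkDataL ((dat0.drop 15).take 5) 15 = true := by decide +kernel

theorem cd0_20 : chkDataL ((dat0.drop 20).take 5) 20 = true := by decide +kernel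

theorem cd0_25 : chkDataL ((dat0.drop 25).take 5) 25 = true := by decide +kernel

theorem cd0_30 : chkDataL ((dat0.drop 30).take 5) 30 = true := by decide +kernel

theorem cd0_35 : chkDataL ((dat0.drop 35).take 5) 35 = true := by decide +kernel

theorem cd0_40 : chkDataL (dat0.drop 40) 40 = true := by decide +kernel

theorem cd0 : chkDataL dat0 0 = true :=
  piece dat0 0 0 5 cd0_0 (piece dat0 0 5 5 cd0_5 (piece dat0 0 10 5 cd0_10 (piece dat0 0 15 5 cd0_15 (piece dat0 0 20 5 cd0_20 (piece dat0 0 25 5 cd0_25 (piece dat0 0 30 5 cd0_30 (piece dat0 0 35 5 cd0_35 (cd0_40))))))))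

end Pool.Agent.Helper163
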