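import Pool.Agent.Helper163.Split
import Pool.Agent.Helper163.Data

set_option autoImplicit false

namespace Pool.Agent.Helper163

theorem cd1_0 : chkDataL ((dat1.drop 0).take 5) 44 = true := by decide +kernel

theorem cd1_5 : chkDataL ((dat1.drop 5).take 5) 49 = true := by decide +kernel

theorem cd1_10 : chkDataL ((dat1.drop 10).take 5) 54 = true := by decide +kernel

theorem cd1_15 : chkDataL ((dat1.drop 15).take 5) 59 = true := by decide +kernel

theorem cd1_20 : chkDataL ((dat1.drop 20).take 5) 64 = true := by decide +kernel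

theorem cd1_25 : chkDataL ((dat1.drop 25).take 5) 69 = true := by decide +kernel

theorem cd1_30 : chkDataL ((dat1.drop 30).take 5) 74 = true := by decide +kernel

theorem cd1_35 : chkDataL ((dat1.drop 35).take 5) 79 = true := by decide +kernel

theorem cd1_40 : chkDataL (dat1.drop 40) 84 = true := by decide +kernel

theorem cd1 : chkDataL dat1 44 = true :=
  piece dat1 44 0 5 cd1_0 (piece dat1 44 5 5 cd1_5 (piece dat1 44 10 5 cd1_10 (piece dat1 44 15 5 cd1_15 (piece dat1 44 20 5 cd1_20 (piece dat1 44 25 5 cd1_25 (piece dat1 44 30 5 cd1_30 (piece dat1 44 35 5 cd1_35 (cd1_40))))))))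

end Pool.Agent.Helper163
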