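import Pool.Agent.Helper163.Split
import Pool.Agent.Helper163.Data

set_option autoImplicit false

namespace Pool.Agent.Helper163

theorem cd11_0 : chkDataL ((dat11.drop 0).take 5) 494 = true := by decide +kernel

theorem cd11_5 : chkDataL ((dat11.drop 5).take 5) 499 = true := by decide +kernel

theorem cd11_10 : chkDataL ((dat11.drop 10).take 5) 504 = true := by decide +kernel

theorem cd11_15 : chkDataL ((dat11.drop 15).take 5) 509 = true := by decide +kernel

theorem cd11_20 : chkDataL ((dat11.drop 20).take 5) 514 = true := by decide +kernel

theorem cd11_25 : chkDataL ((dat11.drop 25).take 5) 519 = true := by decide +kernel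

theorem cd11_30 : chkDataL ((dat11.drop 30).take 5) 524 = true := by decide +kernel

theorem cd11_35 : chkDataL ((dat11.drop 35).take 5) 529 = true := by decide +kernel

theorem cd11_40 : chkDataL (dat11.drop 40) 534 = true := by decide +kernel

theorem cd11 : chkDataL dat11 494 = true :=
  piece dat11 494 0 5 cd11_0 (piece dat11 494 5 5 cd11_5 (piece dat11 494 10 5 cd11_10 (piece dat11 494 15 5 cd11_15 (piece dat11 494 20 5 cd11_20 (piece dat11 494 25 5 cd11_25 (piece dat11 494 30 5 cd11_30 (piece dat11 494 35 5 cd11_35 (cd11_40))))))))

end Pool.Agent.Helper163
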