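import Pool.Agent.Helper163.Split
import Pool.Agent.Helper163.Data

set_option autoImplicit false

namespace Pool.Agent.Helper163

theorem cd2_0 : chkDataL ((dat2.drop 0).take 5) 89 = true := by decide +kernel

theorem cd2_5 : chkDataL ((dat2.drop 5).take 5) 94 = true := by decide +kernel

theorem cd2_10 : chkDataL ((dat2.drop 10).take 5) 99 = true := by decide +kernel

theorem cd2_15 : chkDataL ((dat2.drop 15).take 5) 104 = true := by decide +kernel

theorem cd2_20 : chkDataL ((dat2.drop 20).take 5) 109 = true := by decide +kernel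

theorem cd2_25 : chkDataL ((dat2.drop 25).take 5) 114 = true := by decide +kernel

theorem cd2_30 : chkDataL ((dat2.drop 30).take 5) 119 = true := by decide +kernel

theorem cd2_35 : chkDataL ((dat2.drop 35).take 5) 124 = true := by decide +kernel

theorem cd2_40 : chkDataL (dat2.drop 40) 129 = true := by decide +kernel

theorem cd2 : chkDataL dat2 89 = true :=
  piece dat2 89 0 5 cd2_0 (piece dat2 89 5 5 cd2_5 (piece dat2 89 10 5 cd2_10 (piece dat2 89 15 5 cd2_15 (piece dat2 89 20 5 cd2_20 (piece dat2 89 25 5 cd2_25 (piece dat2 89 30 5 cd2_30 (piece dat2 89 35 5 cd2_35 (cd2_40))))))))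

end Pool.Agent.Helper163
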