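import Pool.Agent.Helper163.Split
import Pool.Agent.Helper163.Data

set_option autoImplicit false

namespace Pool.Agent.Helper163

theorem cd3_0 : chkDataL ((dat3.drop 0).take 5) 134 = true := by decide +kernel

theorem cd3_5 : chkDataL ((dat3.drop 5).take 5) 139 = true := by decide +kernel

theorem cd3_10 : chkDataL ((dat3.drop 10).take 5) 144 = true := by decide +kernel

theorem cd3_15 : chkDataL ((dat3.drop 15).take 5) 149 = true := by decide +kernel

theorem cd3_20 : chkDataL ((dat3.drop 20).take 5) 154 = true := by decide +kernel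

theorem cd3_25 : chkDataL ((dat3.drop 25).take 5) 159 = true := by decide +kernel

theorem cd3_30 : chkDataL ((dat3.drop 30).take 5) 164 = true := by decide +kernel

theorem cd3_35 : chkDataL ((dat3.drop 35).take 5) 169 = true := by decide +kernel

theorem cd3_40 : chkDataL (dat3.drop 40) 174 = true := by decide +kernel

theorem cd3 : chkDataL dat3 134 = true :=
  piece dat3 134 0 5 cd3_0 (piece dat3 134 5 5 cd3_5 (piece dat3 134 10 5 cd3_10 (piece dat3 134 15 5 cd3_15 (piece dat3 134 20 5 cd3_20 (piece dat3 134 25 5 cd3_25 (piece dat3 134 30 5 cd3_30 (piece dat3 134 35 5 cd3_35 (cd3_40))))))))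

end Pool.Agent.Helper163
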