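import Pool.Agent.Helper163.Split
import Pool.Agent.Helper163.Data

set_option autoImplicit false

namespace Pool.Agent.Helper163

theorem cd4_0 : chkDataL ((dat4.drop 0).take 5) 179 = true := by decide +kernel

theorem cd4_5 : chkDataL ((dat4.drop 5).take 5) 184 = true := by decide +kernel

theorem cd4_10 : chkDataL ((dat4.drop 10).take 5) 189 = true := by decide +kernel

theorem cd4_15 : chkDataL ((dat4.drop 15).take 5) 194 = true := by decide +kernel

theorem cd4_20 : chkDataL ((dat4.drop 20).take 5) 199 = true := by decide +kernel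

theorem cd4_25 : chkDataL ((dat4.drop 25).take 5) 204 = true := by decide +kernel

theorem cd4_30 : chkDataL ((dat4.drop 30).take 5) 209 = true := by decide +kernel

theorem cd4_35 : chkDataL ((dat4.drop 35).take 5) 214 = true := by decide +kernel

theorem cd4_40 : chkDataL (dat4.drop 40) 219 = true := by decide +kernel

theorem cd4 : chkDataL dat4 179 = true :=
  piece dat4 179 0 5 cd4_0 (piece dat4 179 5 5 cd4_5 (piece dat4 179 10 5 cd4_10 (piece dat4 179 15 5 cd4_15 (piece dat4 179 20 5 cd4_20 (piece dat4 179 25 5 cd4_25 (piece dat4 179 30 5 cd4_30 (piece dat4 179 35 5 cd4_35 (cd4_40))))))))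

end Pool.Agent.Helper163
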