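import Pool.Agent.Helper163.Split
import Pool.Agent.Helper163.Data

set_option autoImplicit false

namespace Pool.Agent.Helper163

theorem cd5_0 : chkDataL ((dat5.drop 0).take 5) 224 = true := by decide +kernel

theorem cd5_5 : chkDataL ((dat5.drop 5).take 5) 229 = true := by decide +kernel

theorem cd5_10 : chkDataL ((dat5.drop 10).take 5) 234 = true := by decide +kernel

theorem cd5_15 : chkDataL ((dat5.drop 15).take 5) 239 = true := by decide +kernel

theorem cd5_20 : chkDataL ((dat5.drop 20).take 5) 244 = true := by decide +kernel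

theorem cd5_25 : chkDataL ((dat5.drop 25).take 5) 249 = true := by decide +kernel

theorem cd5_30 : chkDataL ((dat5.drop 30).take 5) 254 = true := by decide +kernel

theorem cd5_35 : chkDataL ((dat5.drop 35).take 5) 259 = true := by decide +kernel

theorem cd5_40 : chkDataL (dat5.drop 40) 264 = true := by decide +kernel

theorem cd5 : chkDataL dat5 224 = true :=
  piece dat5 224 0 5 cd5_0 (piece dat5 224 5 5 cd5_5 (piece dat5 224 10 5 cd5_10 (piece dat5 224 15 5 cd5_15 (piece dat5 224 20 5 cd5_20 (piece dat5 224 25 5 cd5_25 (piece dat5 224 30 5 cd5_30 (piece dat5 224 35 5 cd5_35 (cd5_40))))))))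

end Pool.Agent.Helper163
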