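import Pool.Agent.Helper163.Split
import Pool.Agent.Helper163.Data

set_option autoImplicit false

namespace Pool.Agent.Helper163

theorem cd6_0 : chkDataL ((dat6.drop 0).take 5) 269 = true := by decide +kernel

theorem cd6_5 : chkDataL ((dat6.drop 5).take 5) 274 = true := by decide +kernel

theorem cd6_10 : chkDataL ((dat6.drop 10).take 5) 279 = true := by decide +kernel

theorem cd6_15 : chkDataL ((dat6.drop 15).take 5) 284 = true := by decide +kernel

theorem cd6_20 : chkDataL ((dat6.drop 20).take 5) 289 = true := by decide +kernel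

theorem cd6_25 : chkDataL ((dat6.drop 25).take 5) 294 = true := by decide +kernel

theorem cd6_30 : chkDataL ((dat6.drop 30).take 5) 299 = true := by decide +kernel

theorem cd6_35 : chkDataL ((dat6.drop 35).take 5) 304 = true := by decide +kernel

theorem cd6_40 : chkDataL (dat6.drop 40) 309 = true := by decide +kernel

theorem cd6 : chkDataL dat6 269 = true :=
  piece dat6 269 0 5 cd6_0 (piece dat6 269 5 5 cd6_5 (piece dat6 269 10 5 cd6_10 (piece dat6 269 15 5 cd6_15 (piece dat6 269 20 5 cd6_20 (piece dat6 269 25 5 cd6_25 (piece dat6 269 30 5 cd6_30 (piece dat6 269 35 5 cd6_35 (cd6_40))))))))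

end Pool.Agent.Helper163
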