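import Pool.Agent.Helper163.Split
import Pool.Agent.Helper163.Data

set_option autoImplicit false

namespace Pool.Agent.Helper163

theorem cd7_0 : chkDataL ((dat7.drop 0).take 5) 314 = true := by decide +kernel

theorem cd7_5 : chkDataL ((dat7.drop 5).take 5) 319 = true := by decide +kernel

theorem cd7_10 : chkDataL ((dat7.drop 10).take 5) 324 = true := by decide +kernel

theorem cd7_15 : chkDataL ((dat7.drop 15).take 5) 329 = true := by decide +kernel

theorem cd7_20 : chkDataL ((dat7.drop 20).take 5) 334 = true := by decide +kernel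

theorem cd7_25 : chkDataL ((dat7.drop 25).take 5) 339 = true := by decide +kernel

theorem cd7_30 : chkDataL ((dat7.drop 30).take 5) 344 = true := by decide +kernel

theorem cd7_35 : chkDataL ((dat7.drop 35).take 5) 349 = true := by decide +kernel

theorem cd7_40 : chkDataL (dat7.drop 40) 354 = true := by decide +kernel

theorem cd7 : chkDataL dat7 314 = true :=
  piece dat7 314 0 5 cd7_0 (piece dat7 314 5 5 cd7_5 (piece dat7 314 10 5 cd7_10 (piece dat7 314 15 5 cd7_15 (piece dat7 314 20 5 cd7_20 (piece dat7 314 25 5 cd7_25 (piece dat7 314 30 5 cd7_30 (piece dat7 314 35 5 cd7_35 (cd7_40))))))))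

end Pool.Agent.Helper163
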