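import Pool.Agent.Helper163.Split
import Pool.Agent.Helper163.Data

set_option autoImplicit false

namespace Pool.Agent.Helper163

theorem cd8_0 : chkDataL ((dat8.drop 0).take 5) 359 = true := by decide +kernel

theorem cd8_5 : chkDataL ((dat8.drop 5).take 5) 364 = true := by decide +kernel

theorem cd8_10 : chkDataL ((dat8.drop 10).take 5) 369 = true := by decide +kernel

theorem cd8_15 : chkDataL ((dat8.drop 15).take 5) 374 = true := by decide +kernel

theorem cd8_20 : chkDataL ((dat8.drop 20).take 5) 379 = true := by decide +kernel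

theorem cd8_25 : chkDataL ((dat8.drop 25).take 5) 384 = true := by decide +kernel

theorem cd8_30 : chkDataL ((dat8.drop 30).take 5) 389 = true := by decide +kernel

theorem cd8_35 : chkDataL ((dat8.drop 35).take 5) 394 = true := by decide +kernel

theorem cd8_40 : chkDataL (dat8.drop 40) 399 = true := by decide +kernel

theorem cd8 : chkDataL dat8 359 = true :=
  piece dat8 359 0 5 cd8_0 (piece dat8 359 5 5 cd8_5 (piece dat8 359 10 5 cd8_10 (piece dat8 359 15 5 cd8_15 (piece dat8 359 20 5 cd8_20 (piece dat8 359 25 5 cd8_25 (piece dat8 359 30 5 cd8_30 (piece dat8 359 35 5 cd8_35 (cd8_40))))))))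

end Pool.Agent.Helper163
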