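import Pool.Agent.Helper163.Split
import Pool.Agent.Helper163.Data

set_option autoImplicit false

namespace Pool.Agent.Helper163

theorem cd9_0 : chkDataL ((dat9.drop 0).take 5) 404 = true := by decide +kernel

theorem cd9_5 : chkDataL ((dat9.drop 5).take 5) 409 = true := by decide +kernel

theorem cd9_10 : chkDataL ((dat9.drop 10).take 5) 414 = true := by decide +kernel

theorem cd9_15 : chkDataL ((dat9.drop 15).take 5) 419 = true := by decide +kernel

theorem cd9_20 : chkDataL ((dat9.drop 20).take 5) 424 = true := by decide +kernel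

theorem cd9_25 : chkDataL ((dat9.drop 25).take 5) 429 = true := by decide +kernel

theorem cd9_30 : chkDataL ((dat9.drop 30).take 5) 434 = true := by decide +kernel

theorem cd9_35 : chkDataL ((dat9.drop 35).take 5) 439 = true := by decide +kernel

theorem cd9_40 : chkDataL (dat9.drop 40) 444 = true := by decide +kernel

theorem cd9 : chkDataL dat9 404 = true :=
  piece dat9 404 0 5 cd9_0 (piece dat9 404 5 5 cd9_5 (piece dat9 404 10 5 cd9_10 (piece dat9 404 15 5 cd9_15 (piece dat9 404 20 5 cd9_20 (piece dat9 404 25 5 cd9_25 (piece dat9 404 30 5 cd9_30 (piece dat9 404 35 5 cd9_35 (cd9_40))))))))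

end Pool.Agent.Helper163
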