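import Pool.Agent.Helper163.Kern3
import Pool.Agent.Helper163.Ext
import Pool.Agent.Helper163.Data

namespace Pool.Agent.Helper163

theorem ce0 : chkExL ext0 0 = true := by decide +kernel

theorem cb0 : chkBnd dat0 = true := by decide +kernel

theorem ce1 : chkExL ext1 44 = true := by decide +kernel

theorem cb1 : chkBnd dat1 = true := by decide +kernel

theorem ce2 : chkExL ext2 89 = true := by decide +kernel

theorem cb2 : chkBnd dat2 = true := by decide +kernel

theorem ce3 : chkExL ext3 134 = true := by decide +kernel

theorem cb3 : chkBnd dat3 = true := by decide +kernel

theorem ce4 : chkExL ext4 179 = true := by decide +kernel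

theorem cb4 : chkBnd dat4 = true := by decide +kernel

theorem ce5 : chkExL ext5 224 = true := by decide +kernel

theorem cb5 : chkBnd dat5 = true := by decide +kernel

theorem ce6 : chkExL ext6 269 = true := by decide +kernel

theorem cb6 : chkBnd dat6 = true := by decide +kernel

theorem ce7 : chkExL ext7 314 = true := by decide +kernel

theorem cb7 : chkBnd dat7 = true := by decide +kernel

theorem ce8 : chkExL ext8 359 = true := by decide +kernel

theorem cb8 : chkBnd dat8 = true := by decide +kernel

theorem ce9 : chkExL ext9 404 = true := by decide +kernel

theorem cb9 : chkBnd dat9 = true := by decide +kernel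

theorem ce10 : chkExL ext10 449 = true := by decide +kernel

theorem cb10 : chkBnd dat10 = true := by decide +kernel

theorem ce11 : chkExL ext11 494 = true := by decide +kernel

theorem cb11 : chkBnd dat11 = true := by decide +kernel

end Pool.Agent.Helper163
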