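import Pool.Agent.Helper163.Kern4
import Pool.Agent.Helper163.Data

namespace Pool.Agent.Helper163

theorem ckcls : allN 32 (fun c => Nat.beq (cls (kM c) (Nat.mul 4 (kQ c))) c) = true := by decide +kernel

theorem ck0 : chkCodes dat0 = true := by decide +kernel

theorem ck1 : chkCodes dat1 = true := by decide +kernel

theorem ck2 : chkCodes dat2 = true := by decide +kernel

theorem ck3 : chkCodes dat3 = true := by decide +kernel

theorem ck4 : chkCodes dat4 = true := by decide +kernel

theorem ck5 : chkCodes dat5 = true := by decide +kernel

theorem ck6 : chkCodes dat6 = true := by decide +kernel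

theorem ck7 : chkCodes dat7 = true := by decide +kernel

theorem ck8 : chkCodes dat8 = true := by decide +kernel

theorem ck9 : chkCodes dat9 = true := by decide +kernel

theorem ck10 : chkCodes dat10 = true := by decide +kernel

theorem ck11 : chkCodes dat11 = true := by decide +kernel

end Pool.Agent.Helper163
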