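import Pool.Agent.Helper163.Kern2

namespace Pool.Agent.Helper163

theorem ctp6 : all3 6 chkPc = true := by decide +kernel

theorem ctc6 : all3 6 chkCl = true := by decide +kernel

end Pool.Agent.Helper163
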