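import Pool.Agent.Helper163.Kern

set_option autoImplicit false

namespace Pool.Agent.Helper163

noncomputable section

@[reducible] def forceZ {α : Type} (z : Int) (f : Int → α) : α :=
  Int.rec (motive := fun _ => α) (fun n => force n fun k => f (Int.ofNat k))
    (fun n => force n fun k => f (Int.negSucc k)) z

/-- digit of a packed vector -/
def vdig (v κ : Nat) : Nat := Nat.land (Nat.shiftRight v (Nat.mul 24 κ)) 16777215

def dotv (a b : Nat) (vs : List Nat) : Nat :=
  List.rec (motive := fun _ => Nat) 0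
    (fun v _ ih => Nat.add (Nat.mul (vdig v a) (vdig v b)) ih) vs

def sumv (a b : Nat) (vs : List Nat) : Nat :=
  List.rec (motive := fun _ => Nat) 0
    (fun v _ ih => Nat.add (Nat.add (vdig v a) (vdig v b)) ih) vs

def ka (code : Nat) : Nat := Nat.add (Nat.mul 32 (Nat.shiftRight code 10))
  (Nat.land (Nat.shiftRight code 5) 31)
def kb (code : Nat) : Nat := Nat.add (Nat.mul 32 (Nat.shiftRight code 10)) (Nat.land code 31)

/-- table of the quadratic form, 64 bits per entry, shifted by an offset -/
def buildQ (vs : List Nat) (n : Nat) : Nat → Nat :=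
  Nat.rec (motive := fun _ => Nat → Nat) (fun acc => acc)
    (fun c ih acc => force (Nat.add acc (Nat.shiftLeft
      (Nat.sub (Nat.add 1125899906842624 (dotv (ka c) (kb c) vs))
        (Nat.mul 524288 (sumv (ka c) (kb c) vs))) (Nat.mul 64 c))) fun acc' => ih acc') n

def qdig (q c : Nat) : Nat := Nat.land (Nat.shiftRight q (Nat.mul 64 c)) 18446744073709551615

/-- check of the table -/
def chkQ (q : Nat) (vs : List Nat) (n : Nat) : Bool :=
  Nat.rec (motive := fun _ => Bool) true
    (fun c ih => cond (Nat.beq (Nat.add (qdig q c) (Nat.mul 524288 (sumv (ka c) (kb c) vs)))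
      (Nat.add 1125899906842624 (dotv (ka c) (kb c) vs))) ih false) n

/-- sum over a packed histogram of count times table entry -/
def sumD (q : Nat) (fuel : Nat) : Nat → Nat → Nat :=
  Nat.rec (motive := fun _ => Nat → Nat → Nat) (fun _ acc => acc)
    (fun _ ih w acc => cond (Nat.beq w 0) acc
      (force (Nat.add acc (Nat.mul (Nat.land (Nat.shiftRight w 12) 4095)
        (qdig q (Nat.land w 4095)))) fun acc' =>
        force (Nat.shiftRight w 24) fun w' => ih w' acc')) fuel

def rsum (n : Nat) (f : Nat → Int) : Int :=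
  Nat.rec (motive := fun _ => Int) 0 (fun s ih => ih + f s) n

def nthZ (l : List Int) : Nat → Int :=
  List.rec (motive := fun _ => Nat → Int) (fun _ => 0)
    (fun x _ ih n => Nat.rec (motive := fun _ => Int) x (fun k _ => ih k) n) l

def bdig (b s : Nat) : Nat := Nat.land (Nat.shiftRight b (Nat.mul 8 s)) 255

def Tval (c5 c4 A : Int) (ψ : Nat → Int) (m b : Nat) (S : Int) : Int :=
  c5 * ((m : Int) ^ 5 + rsum 17 fun s => (bdig b s : Int) * (2 * (s : Int) - m) ^ 5) +
  c4 * ((m : Int) ^ 4 + (rsum 17 fun s => (bdig b s : Int) * (2 * (s : Int) - m) ^ 4) -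
    192 * (m : Int) ^ 2 + 128 * m) + 2 * S +
  rsum 17 fun s => ψ s * ((bdig b s : Int) * (10000 * ((m : Int) - s) - 32 * A))

structure Iv where
  c5 : Int
  c40 : Int
  c41 : Int
  A0 : Int
  A1 : Int
  ps0 : List Int
  ps1 : List Int
  v0 : List Nat
  v1 : List Nat
  be0 : Int
  be1 : Int
  ga : Int

def isPos (z : Int) : Bool := Int.rec (motive := fun _ => Bool) (fun n => Nat.ble 1 n) (fun _ => false) z
def isNonpos (z : Int) : Bool := Int.rec (motive := fun _ => Bool) (fun n => Nat.beq n 0) (fun _ => true) z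

def offZ (vs : List Nat) : Int := 1125899906842624 - (vs.length : Int) * 274877906944

def chkRep (I : Iv) (q0 q1 m b w : Nat) : Bool :=
  force (totH 400 w 0) fun C =>
  forceZ (I.be0 - Tval I.c5 I.c40 I.A0 (nthZ I.ps0) m b ((sumD q0 400 w 0 : Int) - offZ I.v0 * C)) fun p =>
  forceZ (I.be1 - Tval I.c5 I.c41 I.A1 (nthZ I.ps1) m b ((sumD q1 400 w 0 : Int) - offZ I.v1 * C)) fun q =>
  forceZ (32 * (I.A1 - I.A0) * (rsum 17 fun s => (nthZ I.ps1 s - nthZ I.ps0 s) * (bdig b s : Int)) +
    I.ga - p - q) fun d =>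
  cond (isPos p) (cond (isPos q) (cond (isNonpos d) true (isNonpos (d * d - 4 * p * q))) false) false

def chkRepL (I : Iv) (q0 q1 : Nat) (l : List (Nat × Nat × Nat)) : Bool :=
  List.rec (motive := fun _ => Bool) true
    (fun x _ ih => cond (chkRep I q0 q1 x.1 x.2.1 x.2.2) ih false) l

def chkRepLL (I : Iv) (q0 q1 : Nat) (l : List (List (Nat × Nat × Nat))) : Bool :=
  List.rec (motive := fun _ => Bool) true
    (fun x _ ih => cond (chkRepL I q0 q1 x) ih false) l

def chkIv (I : Iv) (l : List (List (Nat × Nat × Nat))) : Bool :=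
  force (buildQ I.v0 3072 0) fun q0 => force (buildQ I.v1 3072 0) fun q1 =>
  cond (chkQ q0 I.v0 3072) (cond (chkQ q1 I.v1 3072) (chkRepLL I q0 q1 l) false) false

end

end Pool.Agent.Helper163
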