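import Pool.Agent.Helper163.Stats
import Pool.Agent.Helper163.Cert

set_option autoImplicit false

namespace Pool.Agent.Helper163

open Finset

/-- weighted count of a code -/
def cnt (D : List (ℕ × ℕ)) (c : ℕ) : ℕ := (D.map (fun x => if x.1 = c then x.2 else 0)).sum

theorem cnt_le (D : List (ℕ × ℕ)) (c : ℕ) : cnt D c ≤ (D.map Prod.snd).sum := by
  induction D with
  | nil => simp [cnt]
  | cons x D ih =>
    unfold cnt at *
    rw [List.map_cons, List.sum_cons, List.map_cons, List.sum_cons]
    split_ifs <;> omega

theorem sum_cnt {R : Type*} [CommSemiring R] (D : List (ℕ × ℕ)) (C : ℕ) (f : ℕ → R) :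
    (∀ x ∈ D, x.1 < C) → (D.map (fun x => (x.2 : R) * f x.1)).sum =
      ∑ c ∈ range C, (cnt D c : R) * f c := by
  induction D with
  | nil => intro _; simp [cnt]
  | cons x D ih =>
    intro hC
    rw [List.map_cons, List.sum_cons, ih (fun y hy => hC y (List.mem_cons_of_mem _ hy))]
    have h1 : ∀ c, (cnt (x :: D) c : R) * f c =
        (if x.1 = c then (x.2 : R) * f x.1 else 0) + (cnt D c : R) * f c := by
      intro c
      unfold cnt
      rw [List.map_cons, List.sum_cons]
      by_cases h : x.1 = c
      · rw [if_pos h, if_pos h]; push_cast; rw [← h]; ring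
      · rw [if_neg h, if_neg h]; push_cast; ring
    simp only [h1]
    rw [Finset.sum_add_distrib, Finset.sum_ite_eq, if_pos (mem_range.2 (hC x (by simp)))]

theorem digits_unique (B : ℕ) : ∀ (C : ℕ) (a b : ℕ → ℕ), (∀ c, a c < B) → (∀ c, b c < B) →
    ∑ c ∈ range C, a c * B ^ c = ∑ c ∈ range C, b c * B ^ c → ∀ c < C, a c = b c := by
  intro C
  induction C with
  | zero => intro a b _ _ _ c hc; omega
  | succ C ih =>
    intro a b ha hb h c hc
    have hB : 0 < B := by have := ha 0; omega
    rw [Finset.sum_range_succ', Finset.sum_range_succ'] at h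
    have e : ∀ a : ℕ → ℕ, ∑ c ∈ range C, a (c + 1) * B ^ (c + 1) =
        B * ∑ c ∈ range C, a (c + 1) * B ^ c := by
      intro a
      rw [Finset.mul_sum]
      exact Finset.sum_congr rfl fun c _ => by rw [pow_succ]; ring
    rw [e, e] at h
    simp only [pow_zero, mul_one] at h
    have h0 : a 0 = b 0 := by
      have := congrArg (· % B) h
      simp only [Nat.mul_add_mod] at this
      rwa [Nat.mod_eq_of_lt (ha 0), Nat.mod_eq_of_lt (hb 0)] at this
    rw [h0] at h
    have h1 := Nat.eq_of_mul_eq_mul_left hB (Nat.add_right_cancel h)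
    cases c with
    | zero => exact h0
    | succ c =>
      exact ih (fun c => a (c + 1)) (fun c => b (c + 1)) (fun c => ha _) (fun c => hb _) h1 c
        (by omega)

theorem hist_unique (e : ℕ) (D1 D2 : List (ℕ × ℕ)) (h1 : ∀ c, cnt D1 c < 2 ^ e)
    (h2 : ∀ c, cnt D2 c < 2 ^ e)
    (h : (D1.map (fun x => x.2 * 2 ^ (e * x.1))).sum = (D2.map (fun x => x.2 * 2 ^ (e * x.1))).sum)
    (W : ℕ → ℤ) : (D1.map (fun x => (x.2 : ℤ) * W x.1)).sum =
      (D2.map (fun x => (x.2 : ℤ) * W x.1)).sum := by
  obtain ⟨C, hC1, hC2⟩ : ∃ C, (∀ x ∈ D1, x.1 < C) ∧ ∀ x ∈ D2, x.1 < C := by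
    refine ⟨((D1 ++ D2).map Prod.fst).sum + 1, ?_, ?_⟩
    · intro x hx
      have := List.single_le_sum (l := (D1 ++ D2).map Prod.fst) (fun _ _ => Nat.zero_le _) x.1
        (List.mem_map_of_mem (List.mem_append_left _ hx))
      omega
    · intro x hx
      have := List.single_le_sum (l := (D1 ++ D2).map Prod.fst) (fun _ _ => Nat.zero_le _) x.1
        (List.mem_map_of_mem (List.mem_append_right _ hx))
      omega
  have s1 := sum_cnt D1 C (fun c => 2 ^ (e * c)) hC1
  have s2 := sum_cnt D2 C (fun c => 2 ^ (e * c)) hC2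
  simp only [Nat.cast_id] at s1 s2
  rw [s1, s2] at h
  simp only [pow_mul] at h
  have key := digits_unique (2 ^ e) C (cnt D1) (cnt D2) h1 h2 h
  rw [sum_cnt D1 C W hC1, sum_cnt D2 C W hC2]
  exact Finset.sum_congr rfl fun c hc => by rw [key c (mem_range.1 hc)]

/-- unpacked histogram -/
def unp : ℕ → ℕ → List (ℕ × ℕ)
  | 0, _ => []
  | n + 1, w => if w = 0 then [] else (w &&& 4095, (w >>> 12) &&& 4095) :: unp n (w >>> 24)

theorem packH_eq : ∀ n w acc, packH n w acc =
    acc + ((unp n w).map (fun x => x.2 * 2 ^ (12 * x.1))).sum := by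
  intro n
  induction n with
  | zero => intro w acc; rfl
  | succ n ih =>
    intro w acc
    have h1 : packH (n + 1) w acc = cond (Nat.beq w 0) acc
      (force (Nat.add acc (Nat.mul (Nat.land (Nat.shiftRight w 12) 4095)
        (Nat.shiftLeft 1 (Nat.mul 12 (Nat.land w 4095))))) fun acc' =>
        force (Nat.shiftRight w 24) fun w' => packH n w' acc') := rfl
    rw [h1, force_eq, force_eq]
    unfold unp
    by_cases h : w = 0
    · subst h; rfl
    · have h2 : Nat.beq w 0 = false := by
        cases w with
        | zero => exact absurd rfl h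
        | succ w => rfl
      rw [h2, if_neg h, List.map_cons, List.sum_cons]
      show packH n (w >>> 24) (acc + ((w >>> 12) &&& 4095) * (1 <<< (12 * (w &&& 4095)))) = _
      rw [ih, Nat.one_shiftLeft]
      ring

theorem totH_eq : ∀ n w acc, totH n w acc = acc + ((unp n w).map Prod.snd).sum := by
  intro n
  induction n with
  | zero => intro w acc; rfl
  | succ n ih =>
    intro w acc
    have h1 : totH (n + 1) w acc = cond (Nat.beq w 0) acc
      (force (Nat.add acc (Nat.land (Nat.shiftRight w 12) 4095)) fun acc' =>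
        force (Nat.shiftRight w 24) fun w' => totH n w' acc') := rfl
    rw [h1, force_eq, force_eq]
    unfold unp
    by_cases h : w = 0
    · subst h; rfl
    · have h2 : Nat.beq w 0 = false := by
        cases w with
        | zero => exact absurd rfl h
        | succ w => rfl
      rw [h2, if_neg h, List.map_cons, List.sum_cons]
      show totH n (w >>> 24) (acc + ((w >>> 12) &&& 4095)) = _
      rw [ih]
      ring

theorem sumD_eq (q : ℕ) : ∀ n w acc, sumD q n w acc =
    acc + ((unp n w).map (fun x => x.2 * qdig q x.1)).sum := by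
  intro n
  induction n with
  | zero => intro w acc; rfl
  | succ n ih =>
    intro w acc
    have h1 : sumD q (n + 1) w acc = cond (Nat.beq w 0) acc
      (force (Nat.add acc (Nat.mul (Nat.land (Nat.shiftRight w 12) 4095)
        (qdig q (Nat.land w 4095)))) fun acc' =>
        force (Nat.shiftRight w 24) fun w' => sumD q n w' acc') := rfl
    rw [h1, force_eq, force_eq]
    unfold unp
    by_cases h : w = 0
    · subst h; rfl
    · have h2 : Nat.beq w 0 = false := by
        cases w with
        | zero => exact absurd rfl h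
        | succ w => rfl
      rw [h2, if_neg h, List.map_cons, List.sum_cons]
      show sumD q n (w >>> 24) (acc + ((w >>> 12) &&& 4095) * qdig q (w &&& 4095)) = _
      rw [ih]
      ring

/-- value of a class -/
noncomputable def Vc (v : ℕ → ℕ → ℕ → ℤ) (k c : ℕ) : ℤ := v k (kM c) (4 * kQ c)

/-- value of a pair code -/
noncomputable def Wc (v : ℕ → ℕ → ℕ → ℤ) (code : ℕ) : ℤ :=
  Vc v (code / 1024) (code / 32 % 32) * Vc v (code / 1024) (code % 32)

theorem clT_lt (P : ℕ) : clT P < 32 := by
  unfold clT
  rw [force_eq]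
  exact lt_of_le_of_lt (Nat.and_le_right (n := _) (m := 31)) (by norm_num)

theorem pcode_eq (k a b : ℕ) : pcode k a b = 1024 * k + if a ≤ b then 32 * a + b else 32 * b + a := by
  unfold pcode
  by_cases h : a ≤ b
  · rw [if_pos h, Nat.ble_eq_true_of_le h]; rfl
  · rw [if_neg h]
    have : Nat.ble a b = false := by
      by_contra h'
      rw [Bool.not_eq_false] at h'
      exact h (Nat.le_of_ble_eq_true h')
    rw [this]; rfl

theorem Wc_pcode (v : ℕ → ℕ → ℕ → ℤ) (k a b : ℕ) (ha : a < 32) (hb : b < 32) :
    Wc v (pcode k a b) = Vc v k a * Vc v k b := by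
  rw [pcode_eq]
  unfold Wc
  split_ifs with h
  · have e1 : (1024 * k + (32 * a + b)) / 1024 = k := by omega
    have e2 : (1024 * k + (32 * a + b)) / 32 % 32 = a := by omega
    have e3 : (1024 * k + (32 * a + b)) % 32 = b := by omega
    rw [e1, e2, e3]
  · have e1 : (1024 * k + (32 * b + a)) / 1024 = k := by omega
    have e2 : (1024 * k + (32 * b + a)) / 32 % 32 = b := by omega
    have e3 : (1024 * k + (32 * b + a)) % 32 = a := by omega
    rw [e1, e2, e3, mul_comm]

/-- the pair (code, weight) of a state -/
noncomputable def cw (s : ℕ) : ℕ × ℕ :=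
  if pcT (lo0 s) ≤ 2 then (pcode (pcT (lo0 s)) (clT (lo2 s)) (clT (lo3 s)), 1) else (0, 0)

theorem wcode_eq (s : ℕ) : wcode s = (cw s).2 * 2 ^ (12 * (cw s).1) := by
  unfold wcode cw
  rw [force_eq]
  by_cases h : pcT (lo0 s) ≤ 2
  · rw [if_pos h, Nat.ble_eq_true_of_le h]
    simp only [cond_true]
    rw [force_eq, force_eq]
    show 1 <<< (12 * _) = _
    rw [Nat.one_shiftLeft, one_mul]
  · rw [if_neg h]
    have : Nat.ble (pcT (lo0 s)) 2 = false := by
      by_contra h'
      rw [Bool.not_eq_false] at h'
      exact h (Nat.le_of_ble_eq_true h')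
    rw [this]
    simp

/-- the verified tables -/
structure TabOK : Prop where
  pc : ∀ P < 65536, pcT P = pcS P
  cl : ∀ P < 65536, kM (clT P) = pcS P ∧ kQ (clT P) = stS P

theorem vv_state (hT : TabOK) (v : ℕ → ℕ → ℕ → ℤ) (hv : ∀ k m q, 3 ≤ k → v k m q = 0) (s : ℕ)
    (hs : s < 2 ^ 64) :
    vv v (setOf s) (vec 32) (vec 16) = ((cw s).2 : ℤ) * Wc v (cw s).1 := by
  unfold vv
  rw [kU_setOf, S1_setOf, S2_setOf s hs, card_trn, card_trn, st_trn, st_trn,
    card_setOf_small (lo2_lt s), card_setOf_small (lo3_lt s hs), st_small (lo2_lt s),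
    st_small (lo3_lt s hs)]
  unfold cw
  rw [hT.pc _ (lo0_lt s)]
  by_cases h : pcS (lo0 s) ≤ 2
  · rw [if_pos h]
    simp only [Nat.cast_one, one_mul]
    rw [Wc_pcode v _ _ _ (clT_lt _) (clT_lt _)]
    unfold Vc
    rw [(hT.cl _ (lo2_lt s)).1, (hT.cl _ (lo2_lt s)).2, (hT.cl _ (lo3_lt s hs)).1,
      (hT.cl _ (lo3_lt s hs)).2]
  · rw [if_neg h, hv _ _ _ (by omega)]
    simp

theorem states_length (ms : List ℕ) : ∀ g, (states ms g).length =
    (ms.filter (fun d => decide (d < 64))).length := by
  induction ms with
  | nil => intro g; rfl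
  | cons d ms ih =>
    intro g
    unfold states
    by_cases h : 64 ≤ d
    · rw [if_pos h, ih, List.filter_cons_of_neg (by simpa using h)]
    · rw [if_neg h, List.length_cons, ih, List.filter_cons_of_pos (by simpa using h),
        List.length_cons]

theorem flags_length (s : ℕ) : (flags s).length = 1953 := by
  unfold flags
  rw [List.length_flatMap]
  have h1 : (List.map (fun t => (t :: states innerMoves t).length) (s :: states outerMoves s)) =
      List.map (fun _ => 31) (s :: states outerMoves s) := by
    apply List.map_congr_left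
    intro t _
    rw [List.length_cons, states_length]
    decide
  rw [h1, List.map_const', List.sum_replicate, List.length_cons, states_length]
  decide

theorem total_cw (l : List ℕ) : ((l.map cw).map Prod.snd).sum ≤ l.length := by
  induction l with
  | nil => simp
  | cons a l ih =>
    simp only [List.map_cons, List.sum_cons, List.length_cons]
    have : (cw a).2 ≤ 1 := by unfold cw; split_ifs <;> simp
    omega

/-- what is known about a representative -/
structure RepOK (r m b w : ℕ) : Prop where
  card : (setOf r).card = m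
  pair : ∀ v : ℕ → ℕ → ℕ → ℤ, (∀ k m q, 3 ≤ k → v k m q = 0) →
    Psum v (setOf r) = 2 * ((unp 400 w).map (fun x => (x.2 : ℤ) * Wc v x.1)).sum
  hyp : b < 2 ^ 136 → ∀ φ : ℕ → ℤ, Bsum φ (setOf r) = ∑ s ∈ range 17, (bdig b s : ℤ) * φ s

theorem bdig_eq (b s : ℕ) : bdig b s = b / 256 ^ s % 256 := by
  unfold bdig
  show (b >>> (8 * s)) &&& 255 = _
  rw [show (255 : ℕ) = 2 ^ 8 - 1 from rfl, Nat.and_two_pow_sub_one_eq_mod,
    Nat.shiftRight_eq_div_pow, pow_mul]
  norm_num

theorem list_range_sum {R : Type*} [AddCommMonoid R] (f : ℕ → R) (n : ℕ) :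
    ((List.range n).map f).sum = ∑ i ∈ range n, f i := by
  induction n with
  | zero => simp
  | succ n ih =>
    rw [List.range_succ, List.map_append, List.sum_append, ih, Finset.sum_range_succ]
    simp

theorem bcode_eq (t : ℕ) : bcode t = 2 ^ (8 * (pcT (lo0 t) + pcT (lo1 t))) := by
  have : bcode t = 1 <<< (8 * (pcT (lo0 t) + pcT (lo1 t))) := rfl
  rw [this, Nat.one_shiftLeft]

theorem sum_bdig (b : ℕ) : ∀ n, ∑ s ∈ range n, bdig b s * 256 ^ s = b % 256 ^ n := by
  intro n
  induction n with
  | zero => simp [Nat.mod_one]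
  | succ n ih =>
    rw [Finset.sum_range_succ, ih, bdig_eq, Nat.mod_pow_succ]
    ring

theorem repOK_of_chk (hT : TabOK) (r m b w : ℕ) (hr : r < 2 ^ 64)
    (h : chkData r m b w = true) : RepOK r m b w := by
  unfold chkData at h
  have hc : ∀ (x y : Bool), cond x y false = true → x = true ∧ y = true := by decide
  obtain ⟨h1, h⟩ := hc _ _ h
  obtain ⟨h2, h⟩ := hc _ _ h
  obtain ⟨h3, h4⟩ := hc _ _ h
  have h1 := Nat.eq_of_beq_eq_true h1
  have h2 := Nat.eq_of_beq_eq_true h2
  have h3 := Nat.eq_of_beq_eq_true h3
  have h4 := Nat.le_of_ble_eq_true h4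
  refine ⟨?_, ?_, ?_⟩
  · rw [card_setOf, ← h1]
    unfold szN
    rw [hT.pc _ (lo0_lt r), hT.pc _ (lo1_lt r), hT.pc _ (lo2_lt r), hT.pc _ (lo3_lt r hr)]
    rfl
  · intro v hv
    rw [Psum_flags]
    congr 1
    have e1 : ((flags r).map (fun s => vv v (setOf s) (vec 32) (vec 16))) =
        (((flags r).map cw).map (fun x => (x.2 : ℤ) * Wc v x.1)) := by
      rw [List.map_map]
      apply List.map_congr_left
      intro s hs
      exact vv_state hT v hv s (flags_lt r hr s hs)
    rw [e1]
    apply hist_unique 12
    · intro c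
      calc cnt _ c ≤ _ := cnt_le _ c
        _ ≤ (flags r).length := total_cw _
        _ = 1953 := flags_length r
        _ < 2 ^ 12 := by norm_num
    · intro c
      calc cnt _ c ≤ _ := cnt_le _ c
        _ = totH 400 w 0 := by rw [totH_eq, zero_add]
        _ ≤ 4095 := h4
        _ < 2 ^ 12 := by norm_num
    · rw [packH_eq, zero_add] at h3
      rw [← h3, walkP_eq, List.map_map]
      congr 1
      apply List.map_congr_left
      intro s _
      rw [wcode_eq]; rfl
  · intro hb φ
    rw [Bsum_states]
    have e1 : ((r :: states outerMoves r).map (fun t => φ (h0c (setOf t) (vec 32)))) =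
        (((r :: states outerMoves r).map (fun t => (pcS (lo0 t) + pcS (lo1 t), 1))).map
          (fun x : ℕ × ℕ => (x.2 : ℤ) * φ x.1)) := by
      rw [List.map_map]
      apply List.map_congr_left
      intro t _
      rw [h0c_setOf]
      simp
    have e2 : ∑ s ∈ range 17, (bdig b s : ℤ) * φ s =
        (((List.range 17).map (fun s => (s, bdig b s))).map
          (fun x : ℕ × ℕ => (x.2 : ℤ) * φ x.1)).sum := by
      rw [List.map_map, ← list_range_sum]
      rfl
    rw [e1, e2]
    apply hist_unique 8
    · intro c
      calc cnt _ c ≤ _ := cnt_le _ c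
        _ = (r :: states outerMoves r).length := by
            rw [List.map_map]
            generalize r :: states outerMoves r = l
            induction l with
            | nil => rfl
            | cons a l ih => rw [List.map_cons, List.sum_cons, ih, List.length_cons]; simp; ring
        _ = 63 := by rw [List.length_cons, states_length]; decide
        _ < 2 ^ 8 := by norm_num
    · intro c
      have hc : cnt ((List.range 17).map (fun s => (s, bdig b s))) c ≤ bdig b c := by
        unfold cnt
        rw [List.map_map]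
        by_cases hc : c < 17
        · interval_cases c <;> simp [List.range_succ]
        · have : ∀ s ∈ List.range 17, ((fun x : ℕ × ℕ => if x.1 = c then x.2 else 0) ∘
              (fun s => (s, bdig b s))) s = 0 := by
            intro s hs
            have := List.mem_range.1 hs
            simp only [Function.comp]
            rw [if_neg (by omega)]
          rw [List.map_congr_left this]
          simp
      refine lt_of_le_of_lt hc ?_
      rw [bdig_eq]
      exact Nat.mod_lt _ (by norm_num)
    · have s1 := sum_bdig b 17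
      rw [Nat.mod_eq_of_lt (lt_of_lt_of_eq hb (by norm_num))] at s1
      have s2 : (((List.range 17).map (fun s => (s, bdig b s))).map
          (fun x : ℕ × ℕ => x.2 * 2 ^ (8 * x.1))).sum = b := by
        refine Eq.trans ?_ s1
        rw [List.map_map, ← list_range_sum]
        refine congrArg List.sum (List.map_congr_left ?_)
        intro s _
        show bdig b s * 2 ^ (8 * s) = bdig b s * 256 ^ s
        rw [pow_mul]
        norm_num
      refine Eq.trans ?_ s2.symm
      rw [← h2, walkB_eq, List.map_map]
      refine congrArg List.sum (List.map_congr_left ?_)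
      intro t ht
      have htl : t < 2 ^ 64 := by
        rcases List.mem_cons.1 ht with rfl | h
        · exact hr
        · exact states_lt _ _ hr _ h
      show 1 * 2 ^ (8 * (pcS (lo0 t) + pcS (lo1 t))) = bcode t
      rw [bcode_eq, hT.pc _ (lo0_lt t), hT.pc _ (lo1_lt t), one_mul]

end Pool.Agent.Helper163
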