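import Pool.Agent.Helper163.Kern2

set_option autoImplicit false

namespace Pool.Agent.Helper163

noncomputable section

def codesOK (fuel : Nat) : Nat → Bool :=
  Nat.rec (motive := fun _ => Nat → Bool) (fun _ => true)
    (fun _ ih w => cond (Nat.beq w 0) true
      (cond (Nat.ble (Nat.land w 4095) 3071) (force (Nat.shiftRight w 24) fun w' => ih w') false)) fuel

def chkCodes (L : List (Nat × Nat × Nat)) : Bool :=
  List.rec (motive := fun _ => Bool) true
    (fun x _ ih => cond (codesOK 400 x.2.2) ih false) L

/-- index of a class with given size and invariant -/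
def cls (m q : Nat) : Nat :=
  Nat.rec (motive := fun _ => Nat) 0
    (fun c ih => cond (Nat.beq (kM c) m) (cond (Nat.beq (Nat.mul 4 (kQ c)) q) c ih) ih) 32

end

end Pool.Agent.Helper163
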