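import Pool.Agent.Helper163.Classify
import Pool.Agent.Helper163.DataSpec
import Pool.Agent.Helper163.Kern4
import Pool.Agent.Helper163.CK
import Pool.Agent.Helper163.CE
import Pool.Agent.Helper163.CT0
import Pool.Agent.Helper163.CT1
import Pool.Agent.Helper163.CT2
import Pool.Agent.Helper163.CT3
import Pool.Agent.Helper163.CT4
import Pool.Agent.Helper163.CT5
import Pool.Agent.Helper163.CT6
import Pool.Agent.Helper163.CT7
import Pool.Agent.Helper163.CT8
import Pool.Agent.Helper163.CT9
import Pool.Agent.Helper163.CT10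
import Pool.Agent.Helper163.CT11
import Pool.Agent.Helper163.CT12
import Pool.Agent.Helper163.CT13
import Pool.Agent.Helper163.CT14
import Pool.Agent.Helper163.CT15
import Pool.Agent.Helper163.CD0
import Pool.Agent.Helper163.CD1
import Pool.Agent.Helper163.CD2
import Pool.Agent.Helper163.CD3
import Pool.Agent.Helper163.CD4
import Pool.Agent.Helper163.CD5
import Pool.Agent.Helper163.CD6
import Pool.Agent.Helper163.CD7
import Pool.Agent.Helper163.CD8
import Pool.Agent.Helper163.CD9
import Pool.Agent.Helper163.CD10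
import Pool.Agent.Helper163.CD11

set_option autoImplicit false

namespace Pool.Agent.Helper163

open Finset

theorem cond_and {x y : Bool} (h : cond x y false = true) : x = true ∧ y = true := by
  revert h; cases x <;> cases y <;> decide

theorem chkExL_spec : ∀ (L : List (ℕ × List ℕ)) (j : ℕ), chkExL L j = true →
    ∀ i < L.length, ∃ wit es, chkEx (rep (j + i)) wit 63 es = true := by
  intro L
  induction L with
  | nil => intro j _ i hi; simp at hi
  | cons x L ih =>
    intro j h i hi
    have e : chkExL (x :: L) j = cond (force (rep j) fun r => chkEx r x.1 63 x.2)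
      (chkExL L (Nat.succ j)) false := rfl
    rw [e, force_eq] at h
    obtain ⟨h1, h2⟩ := cond_and h
    cases i with
    | zero => exact ⟨_, _, h1⟩
    | succ i =>
      have := ih (Nat.succ j) h2 i (by simpa using hi)
      rwa [Nat.succ_add, ← Nat.add_succ] at this

theorem chkDataL_spec : ∀ (L : List (ℕ × ℕ × ℕ)) (j : ℕ), chkDataL L j = true →
    ∀ i < L.length, ∃ x ∈ L, chkData (rep (j + i)) x.1 x.2.1 x.2.2 = true := by
  intro L
  induction L with
  | nil => intro j _ i hi; simp at hi
  | cons x L ih =>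
    intro j h i hi
    have e : chkDataL (x :: L) j = cond (force (rep j) fun r => chkData r x.1 x.2.1 x.2.2)
      (chkDataL L (Nat.succ j)) false := rfl
    rw [e, force_eq] at h
    obtain ⟨h1, h2⟩ := cond_and h
    cases i with
    | zero => exact ⟨x, by simp, h1⟩
    | succ i =>
      obtain ⟨y, hy, h3⟩ := ih (Nat.succ j) h2 i (by simpa using hi)
      refine ⟨y, List.mem_cons_of_mem _ hy, ?_⟩
      rwa [Nat.succ_add, ← Nat.add_succ] at h3

theorem chkBnd_spec : ∀ (L : List (ℕ × ℕ × ℕ)), chkBnd L = true → ∀ x ∈ L, x.2.1 < 2 ^ 136 := by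
  intro L
  induction L with
  | nil => intro _ x hx; simp at hx
  | cons y L ih =>
    intro h x hx
    have e : chkBnd (y :: L) = cond (Nat.ble y.2.1 87112285931760246646623899502532662132735)
      (chkBnd L) false := rfl
    rw [e] at h
    obtain ⟨h1, h2⟩ := cond_and h
    rcases List.mem_cons.1 hx with rfl | hx
    · have := Nat.le_of_ble_eq_true h1
      exact lt_of_le_of_lt this (by norm_num)
    · exact ih h2 x hx

theorem codesOK_spec : ∀ n w, codesOK n w = true → ∀ y ∈ unp n w, y.1 < 3072 := by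
  intro n
  induction n with
  | zero => intro w _ y hy; simp [unp] at hy
  | succ n ih =>
    intro w h y hy
    have e : codesOK (n + 1) w = cond (Nat.beq w 0) true
      (cond (Nat.ble (Nat.land w 4095) 3071) (force (Nat.shiftRight w 24) fun w' => codesOK n w')
        false) := rfl
    rw [e, force_eq] at h
    unfold unp at hy
    by_cases hw : w = 0
    · rw [if_pos hw] at hy; simp at hy
    · rw [if_neg hw] at hy
      have h2 : Nat.beq w 0 = false := by
        cases w with
        | zero => exact absurd rfl hw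
        | succ w => rfl
      rw [h2] at h
      simp only [cond_false] at h
      obtain ⟨h3, h4⟩ := cond_and h
      rcases List.mem_cons.1 hy with rfl | hy
      · exact Nat.lt_succ_of_le (Nat.le_of_ble_eq_true h3)
      · exact ih _ h4 y hy

theorem chkCodes_spec : ∀ (L : List (ℕ × ℕ × ℕ)), chkCodes L = true →
    ∀ x ∈ L, ∀ y ∈ unp 400 x.2.2, y.1 < 3072 := by
  intro L
  induction L with
  | nil => intro _ x hx; simp at hx
  | cons y L ih =>
    intro h x hx
    have e : chkCodes (y :: L) = cond (codesOK 400 y.2.2) (chkCodes L) false := rfl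
    rw [e] at h
    obtain ⟨h1, h2⟩ := cond_and h
    rcases List.mem_cons.1 hx with rfl | hx
    · exact codesOK_spec _ _ h1
    · exact ih h2 x hx

/-- all data -/
def ALL : List (List (ℕ × ℕ × ℕ)) :=
  [dat0, dat1, dat2, dat3, dat4, dat5, dat6, dat7, dat8, dat9, dat10, dat11]

theorem tabOK : TabOK := by
  have hp : ∀ c < 16, all3 c chkPc = true := by
    intro c hc
    interval_cases c
    · exact ctp0
    · exact ctp1
    · exact ctp2
    · exact ctp3
    · exact ctp4
    · exact ctp5
    · exact ctp6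
    · exact ctp7
    · exact ctp8
    · exact ctp9
    · exact ctp10
    · exact ctp11
    · exact ctp12
    · exact ctp13
    · exact ctp14
    · exact ctp15
  have hc : ∀ c < 16, all3 c chkCl = true := by
    intro c hc
    interval_cases c
    · exact ctc0
    · exact ctc1
    · exact ctc2
    · exact ctc3
    · exact ctc4
    · exact ctc5
    · exact ctc6
    · exact ctc7
    · exact ctc8
    · exact ctc9
    · exact ctc10
    · exact ctc11
    · exact ctc12
    · exact ctc13
    · exact ctc14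
    · exact ctc15
  exact ⟨pcT_eq hp, cl_spec (pcT_eq hp) hc⟩

theorem cls_spec : ∀ c < 32, cls (kM c) (4 * kQ c) = c := by
  intro c hc
  exact Nat.eq_of_beq_eq_true (allN_spec _ 32 ckcls c hc)

theorem len0 : dat0.length = 44 ∧ ext0.length = 44 := by decide +kernel

theorem len1 : dat1.length = 45 ∧ ext1.length = 45 := by decide +kernel

theorem len2 : dat2.length = 45 ∧ ext2.length = 45 := by decide +kernel

theorem len3 : dat3.length = 45 ∧ ext3.length = 45 := by decide +kernel

theorem len4 : dat4.length = 45 ∧ ext4.length = 45 := by decide +kernel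

theorem len5 : dat5.length = 45 ∧ ext5.length = 45 := by decide +kernel

theorem len6 : dat6.length = 45 ∧ ext6.length = 45 := by decide +kernel

theorem len7 : dat7.length = 45 ∧ ext7.length = 45 := by decide +kernel

theorem len8 : dat8.length = 45 ∧ ext8.length = 45 := by decide +kernel

theorem len9 : dat9.length = 45 ∧ ext9.length = 45 := by decide +kernel

theorem len10 : dat10.length = 45 ∧ ext10.length = 45 := by decide +kernel

theorem len11 : dat11.length = 45 ∧ ext11.length = 45 := by decide +kernel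

theorem allExt : ∀ j < 539, ∃ wit es, chkEx (rep j) wit 63 es = true := by
  intro j hj
  rcases Nat.lt_or_ge j 44 with h0 | h0
  · have := chkExL_spec ext0 0 ce0 (j - 0) (by rw [len0.2]; omega)
    rwa [Nat.add_sub_cancel' (by omega)] at this
  rcases Nat.lt_or_ge j 89 with h1 | h1
  · have := chkExL_spec ext1 44 ce1 (j - 44) (by rw [len1.2]; omega)
    rwa [Nat.add_sub_cancel' (by omega)] at this
  rcases Nat.lt_or_ge j 134 with h2 | h2
  · have := chkExL_spec ext2 89 ce2 (j - 89) (by rw [len2.2]; omega)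
    rwa [Nat.add_sub_cancel' (by omega)] at this
  rcases Nat.lt_or_ge j 179 with h3 | h3
  · have := chkExL_spec ext3 134 ce3 (j - 134) (by rw [len3.2]; omega)
    rwa [Nat.add_sub_cancel' (by omega)] at this
  rcases Nat.lt_or_ge j 224 with h4 | h4
  · have := chkExL_spec ext4 179 ce4 (j - 179) (by rw [len4.2]; omega)
    rwa [Nat.add_sub_cancel' (by omega)] at this
  rcases Nat.lt_or_ge j 269 with h5 | h5
  · have := chkExL_spec ext5 224 ce5 (j - 224) (by rw [len5.2]; omega)
    rwa [Nat.add_sub_cancel' (by omega)] at this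
  rcases Nat.lt_or_ge j 314 with h6 | h6
  · have := chkExL_spec ext6 269 ce6 (j - 269) (by rw [len6.2]; omega)
    rwa [Nat.add_sub_cancel' (by omega)] at this
  rcases Nat.lt_or_ge j 359 with h7 | h7
  · have := chkExL_spec ext7 314 ce7 (j - 314) (by rw [len7.2]; omega)
    rwa [Nat.add_sub_cancel' (by omega)] at this
  rcases Nat.lt_or_ge j 404 with h8 | h8
  · have := chkExL_spec ext8 359 ce8 (j - 359) (by rw [len8.2]; omega)
    rwa [Nat.add_sub_cancel' (by omega)] at this
  rcases Nat.lt_or_ge j 449 with h9 | h9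
  · have := chkExL_spec ext9 404 ce9 (j - 404) (by rw [len9.2]; omega)
    rwa [Nat.add_sub_cancel' (by omega)] at this
  rcases Nat.lt_or_ge j 494 with h10 | h10
  · have := chkExL_spec ext10 449 ce10 (j - 449) (by rw [len10.2]; omega)
    rwa [Nat.add_sub_cancel' (by omega)] at this
  · have := chkExL_spec ext11 494 ce11 (j - 494) (by rw [len11.2]; omega)
    rwa [Nat.add_sub_cancel' (by omega)] at this

theorem allDat : ∀ j < 539, ∃ l ∈ ALL, ∃ x ∈ l, chkData (rep j) x.1 x.2.1 x.2.2 = true ∧
    x.2.1 < 2 ^ 136 ∧ ∀ y ∈ unp 400 x.2.2, y.1 < 3072 := by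
  intro j hj
  rcases Nat.lt_or_ge j 44 with h0 | h0
  · obtain ⟨x, hx, h⟩ := chkDataL_spec dat0 0 cd0 (j - 0) (by rw [len0.1]; omega)
    rw [Nat.add_sub_cancel' (by omega)] at h
    exact ⟨dat0, by simp [ALL], x, hx, h, chkBnd_spec _ cb0 x hx, chkCodes_spec _ ck0 x hx⟩
  rcases Nat.lt_or_ge j 89 with h1 | h1
  · obtain ⟨x, hx, h⟩ := chkDataL_spec dat1 44 cd1 (j - 44) (by rw [len1.1]; omega)
    rw [Nat.add_sub_cancel' (by omega)] at h
    exact ⟨dat1, by simp [ALL], x, hx, h, chkBnd_spec _ cb1 x hx, chkCodes_spec _ ck1 x hx⟩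
  rcases Nat.lt_or_ge j 134 with h2 | h2
  · obtain ⟨x, hx, h⟩ := chkDataL_spec dat2 89 cd2 (j - 89) (by rw [len2.1]; omega)
    rw [Nat.add_sub_cancel' (by omega)] at h
    exact ⟨dat2, by simp [ALL], x, hx, h, chkBnd_spec _ cb2 x hx, chkCodes_spec _ ck2 x hx⟩
  rcases Nat.lt_or_ge j 179 with h3 | h3
  · obtain ⟨x, hx, h⟩ := chkDataL_spec dat3 134 cd3 (j - 134) (by rw [len3.1]; omega)
    rw [Nat.add_sub_cancel' (by omega)] at h
    exact ⟨dat3, by simp [ALL], x, hx, h, chkBnd_spec _ cb3 x hx, chkCodes_spec _ ck3 x hx⟩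
  rcases Nat.lt_or_ge j 224 with h4 | h4
  · obtain ⟨x, hx, h⟩ := chkDataL_spec dat4 179 cd4 (j - 179) (by rw [len4.1]; omega)
    rw [Nat.add_sub_cancel' (by omega)] at h
    exact ⟨dat4, by simp [ALL], x, hx, h, chkBnd_spec _ cb4 x hx, chkCodes_spec _ ck4 x hx⟩
  rcases Nat.lt_or_ge j 269 with h5 | h5
  · obtain ⟨x, hx, h⟩ := chkDataL_spec dat5 224 cd5 (j - 224) (by rw [len5.1]; omega)
    rw [Nat.add_sub_cancel' (by omega)] at h
    exact ⟨dat5, by simp [ALL], x, hx, h, chkBnd_spec _ cb5 x hx, chkCodes_spec _ ck5 x hx⟩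
  rcases Nat.lt_or_ge j 314 with h6 | h6
  · obtain ⟨x, hx, h⟩ := chkDataL_spec dat6 269 cd6 (j - 269) (by rw [len6.1]; omega)
    rw [Nat.add_sub_cancel' (by omega)] at h
    exact ⟨dat6, by simp [ALL], x, hx, h, chkBnd_spec _ cb6 x hx, chkCodes_spec _ ck6 x hx⟩
  rcases Nat.lt_or_ge j 359 with h7 | h7
  · obtain ⟨x, hx, h⟩ := chkDataL_spec dat7 314 cd7 (j - 314) (by rw [len7.1]; omega)
    rw [Nat.add_sub_cancel' (by omega)] at h
    exact ⟨dat7, by simp [ALL], x, hx, h, chkBnd_spec _ cb7 x hx, chkCodes_spec _ ck7 x hx⟩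
  rcases Nat.lt_or_ge j 404 with h8 | h8
  · obtain ⟨x, hx, h⟩ := chkDataL_spec dat8 359 cd8 (j - 359) (by rw [len8.1]; omega)
    rw [Nat.add_sub_cancel' (by omega)] at h
    exact ⟨dat8, by simp [ALL], x, hx, h, chkBnd_spec _ cb8 x hx, chkCodes_spec _ ck8 x hx⟩
  rcases Nat.lt_or_ge j 449 with h9 | h9
  · obtain ⟨x, hx, h⟩ := chkDataL_spec dat9 404 cd9 (j - 404) (by rw [len9.1]; omega)
    rw [Nat.add_sub_cancel' (by omega)] at h
    exact ⟨dat9, by simp [ALL], x, hx, h, chkBnd_spec _ cb9 x hx, chkCodes_spec _ ck9 x hx⟩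
  rcases Nat.lt_or_ge j 494 with h10 | h10
  · obtain ⟨x, hx, h⟩ := chkDataL_spec dat10 449 cd10 (j - 449) (by rw [len10.1]; omega)
    rw [Nat.add_sub_cancel' (by omega)] at h
    exact ⟨dat10, by simp [ALL], x, hx, h, chkBnd_spec _ cb10 x hx, chkCodes_spec _ ck10 x hx⟩
  · obtain ⟨x, hx, h⟩ := chkDataL_spec dat11 494 cd11 (j - 494) (by rw [len11.1]; omega)
    rw [Nat.add_sub_cancel' (by omega)] at h
    exact ⟨dat11, by simp [ALL], x, hx, h, chkBnd_spec _ cb11 x hx, chkCodes_spec _ ck11 x hx⟩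

theorem rep_zero : rep 0 = 0 := by decide +kernel

theorem allRep : ∀ j < 539, ∃ l ∈ ALL, ∃ x ∈ l, RepOK (rep j) x.1 x.2.1 x.2.2 ∧
    x.2.1 < 2 ^ 136 ∧ ∀ y ∈ unp 400 x.2.2, y.1 < 3072 := by
  intro j hj
  obtain ⟨l, hl, x, hx, h1, h2, h3⟩ := allDat j hj
  exact ⟨l, hl, x, hx, repOK_of_chk tabOK _ _ _ _ (rep_lt j) h1, h2, h3⟩

end Pool.Agent.Helper163
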