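import Pool.Agent.Helper163.Tab

set_option autoImplicit false

namespace Pool.Agent.Helper163

noncomputable section

/-- evaluate the first argument before continuing -/
@[reducible] def force {α : Type} (n : Nat) (f : Nat → α) : α :=
  Nat.rec (motive := fun _ => α) (f 0) (fun k _ => f (Nat.succ k)) n

def pc8 (b : Nat) : Nat := Nat.land (Nat.shiftRight PC8 (Nat.mul 4 b)) 15
def pcT (P : Nat) : Nat := Nat.add (pc8 (Nat.land P 255)) (pc8 (Nat.shiftRight P 8))
def clRow (h : Nat) : Nat := Nat.land (Nat.shiftRight CLT (Nat.mul 1280 h)) 20815864389328798163850480654728171077230524494533409610638224700807216119346720596024478883464648369684843227908562015582767132496646929816279813211354641525848259018778440691546366699323167100945918841095379622423387354295096957733925002768876520583464697770622321657076833170056511209332449663781837603694136444406281042053396870977465916057756101739472373801429441421111406337458175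
def clT (P : Nat) : Nat := force (Nat.shiftRight P 8) fun h =>
  Nat.land (Nat.shiftRight (clRow h) (Nat.mul 5 (Nat.land P 255))) 31

/-- delta swap with shift `s` and mask `M` -/
def dsw (s M g : Nat) : Nat :=
  force (Nat.land (Nat.xor (Nat.shiftRight g s) g) M) fun t =>
    Nat.xor (Nat.xor g t) (Nat.shiftLeft t s)

def msk (d : Nat) : Nat := Nat.land (Nat.shiftRight MT (Nat.mul 64 d)) 18446744073709551615
def sft (d : Nat) : Nat := Nat.land (Nat.shiftRight ST (Nat.mul 6 d)) 63

/-- the elementary move with code `d` on a packed set -/
def mvC (d g : Nat) : Nat := dsw (sft d) (msk d) g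

/-- apply a packed word of moves -/
def applyW (fuel : Nat) : Nat → Nat → Nat :=
  Nat.rec (motive := fun _ => Nat → Nat → Nat) (fun _ g => g)
    (fun _ ih w g => cond (Nat.beq w 0) g
      (force (mvC (Nat.land w 63) g) fun g' => force (Nat.shiftRight w 6) fun w' => ih w' g')) fuel

def lo0 (g : Nat) : Nat := Nat.land g 65535
def lo1 (g : Nat) : Nat := Nat.land (Nat.shiftRight g 16) 65535
def lo2 (g : Nat) : Nat := Nat.land (Nat.shiftRight g 32) 65535
def lo3 (g : Nat) : Nat := Nat.shiftRight g 48

/-- pair code from classes -/
def pcode (k a b : Nat) : Nat := Nat.add (Nat.mul 1024 k)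
  (cond (Nat.ble a b) (Nat.add (Nat.mul 32 a) b) (Nat.add (Nat.mul 32 b) a))

/-- contribution of a state to the histogram of pair codes -/
def wcode (g : Nat) : Nat :=
  force (pcT (lo0 g)) fun k =>
    cond (Nat.ble k 2)
      (force (clT (lo2 g)) fun a =>
        force (clT (lo3 g)) fun b =>
          Nat.shiftLeft 1 (Nat.mul 12 (pcode k a b)))
      0

/-- contribution of a state to the histogram of hyperplane sizes -/
def bcode (g : Nat) : Nat := Nat.shiftLeft 1 (Nat.mul 8 (Nat.add (pcT (lo0 g)) (pcT (lo1 g))))

/-- walk through the states reached by the moves `ms` adding up `f`;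
moves with code at least 64 are silent -/
def walk (f : Nat → Nat) (ms : List Nat) : Nat → Nat → Nat :=
  List.rec (motive := fun _ => Nat → Nat → Nat)
    (fun _ acc => acc)
    (fun d _ ih g acc => force (mvC (Nat.land d 63) g) fun g' =>
      cond (Nat.ble 64 d) (ih g' acc) (force (Nat.add acc (f g')) fun acc' => ih g' acc')) ms

def innerW (g : Nat) : Nat := force (wcode g) fun a => walk wcode innerMoves g a

def walkP (g : Nat) : Nat := force (innerW g) fun a => walk innerW outerMoves g a

def walkB (g : Nat) : Nat := force (bcode g) fun a => walk bcode outerMoves g a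

/-- unpack a histogram given as a packed list of (12 bit code, 12 bit count) -/
def packH (fuel : Nat) : Nat → Nat → Nat :=
  Nat.rec (motive := fun _ => Nat → Nat → Nat) (fun _ acc => acc)
    (fun _ ih w acc => cond (Nat.beq w 0) acc
      (force (Nat.add acc (Nat.mul (Nat.land (Nat.shiftRight w 12) 4095)
        (Nat.shiftLeft 1 (Nat.mul 12 (Nat.land w 4095))))) fun acc' =>
        force (Nat.shiftRight w 24) fun w' => ih w' acc')) fuel

/-- total count -/
def totH (fuel : Nat) : Nat → Nat → Nat :=
  Nat.rec (motive := fun _ => Nat → Nat → Nat) (fun _ acc => acc)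
    (fun _ ih w acc => cond (Nat.beq w 0) acc
      (force (Nat.add acc (Nat.land (Nat.shiftRight w 12) 4095)) fun acc' =>
        force (Nat.shiftRight w 24) fun w' => ih w' acc')) fuel

/-- size of a packed set -/
def szN (g : Nat) : Nat := Nat.add (Nat.add (pcT (lo0 g)) (pcT (lo1 g)))
  (Nat.add (pcT (lo2 g)) (pcT (lo3 g)))

/-- check of the data of a representative `r`: size `m`, hyperplane histogram `b`,
pair histogram `w` -/
def chkData (r m b w : Nat) : Bool :=
  cond (Nat.beq (szN r) m) (cond (Nat.beq (walkB r) b)
    (cond (Nat.beq (walkP r) (packH 400 w 0)) (Nat.ble (totH 400 w 0) 4095) false) false) false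

def tb (m n : Nat) : Nat := Nat.land (Nat.shiftRight m n) 1

def rep (j : Nat) : Nat := Nat.land (Nat.shiftRight RP (Nat.mul 64 j)) 18446744073709551615

/-- entry `e = w + 64 * (k + 1024 * word)` is a valid extension entry for `r` and the point `w` -/
def chkEntry (r w e : Nat) : Bool :=
  cond (Nat.beq (Nat.land e 63) w)
    (force (Nat.land (Nat.shiftRight e 6) 1023) fun k =>
      cond (Nat.ble k 538)
        (Nat.beq (applyW 40 (Nat.shiftRight e 16) (Nat.add r (Nat.shiftLeft 1 w))) (rep k)) false)
    false

/-- check all points `1 ≤ w ≤ n` -/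
def chkExt (r wit : Nat) (n : Nat) : List Nat → Bool :=
  Nat.rec (motive := fun _ => List Nat → Bool) (fun _ => true)
    (fun k ih es => cond (Nat.beq (tb r (Nat.succ k)) 1) (ih es)
      (force (Nat.land (Nat.shiftRight wit (Nat.mul 6 (Nat.succ k))) 63) fun x =>
        cond (Nat.beq x 0)
          (List.rec (motive := fun _ => Bool) false
            (fun e es' _ => cond (chkEntry r (Nat.succ k) e) (ih es') false) es)
          (cond (Nat.beq (Nat.mul (tb r x) (tb r (Nat.xor x (Nat.succ k)))) 1) (ih es) false))) n

/-- check the data of consecutive representatives -/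
def chkDataL (L : List (Nat × Nat × Nat)) : Nat → Bool :=
  List.rec (motive := fun _ => Nat → Bool) (fun _ => true)
    (fun x _ ih j => cond (force (rep j) fun r => chkData r x.1 x.2.1 x.2.2) (ih (Nat.succ j)) false) L

def chkExtL (L : List (Nat × List Nat)) : Nat → Bool :=
  List.rec (motive := fun _ => Nat → Bool) (fun _ => true)
    (fun x _ ih j => cond (force (rep j) fun r => chkExt r x.1 63 x.2) (ih (Nat.succ j)) false) L

end

end Pool.Agent.Helper163
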