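import Pool.Agent.Helper163.Counts
import Pool.Agent.Helper163.Kern

set_option autoImplicit false

namespace Pool.Agent.Helper163

open Finset

/-- the vector with index `u` -/
def vec (u : ℕ) : E := fun i => if u.testBit i then 1 else 0

theorem vec_inj {u v : ℕ} (hu : u < 64) (hv : v < 64) (h : vec u = vec v) : u = v := by
  apply Nat.eq_of_testBit_eq
  intro i
  by_cases hi : i < 6
  · have := congrFun h ⟨i, hi⟩
    unfold vec at this
    simp only at this
    by_cases a : u.testBit i <;> by_cases b : v.testBit i <;> simp_all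
  · have h64 : 64 ≤ 2 ^ i := by
      calc 64 = 2 ^ 6 := by norm_num
        _ ≤ 2 ^ i := Nat.pow_le_pow_right (by norm_num) (by omega)
    rw [Nat.testBit_lt_two_pow (by omega), Nat.testBit_lt_two_pow (by omega)]

theorem vec_xor (u v : ℕ) : vec (u ^^^ v) = vec u + vec v := by
  funext i
  simp only [vec, Nat.testBit_xor, Pi.add_apply]
  by_cases a : u.testBit i <;> by_cases b : v.testBit i <;> simp [a, b] <;> decide

theorem vec_bij : Function.Bijective (fun u : Fin 64 => vec u) := by
  rw [Fintype.bijective_iff_injective_and_card]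
  constructor
  · intro a b h
    exact Fin.ext (vec_inj a.2 b.2 h)
  · simp

theorem vec_surj (x : E) : ∃ u, u < 64 ∧ vec u = x := by
  obtain ⟨u, hu⟩ := vec_bij.2 x
  exact ⟨u, u.2, hu⟩

noncomputable def idx (x : E) : ℕ := Classical.choose (vec_surj x)

theorem idx_lt (x : E) : idx x < 64 := (Classical.choose_spec (vec_surj x)).1
theorem vec_idx (x : E) : vec (idx x) = x := (Classical.choose_spec (vec_surj x)).2
theorem idx_vec {u : ℕ} (hu : u < 64) : idx (vec u) = u := vec_inj (idx_lt _) hu (vec_idx _)

/-- the set described by a packed set -/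
noncomputable def setOf (s : ℕ) : Finset E := univ.filter (fun x => s.testBit (idx x) = true)

theorem mem_setOf (s : ℕ) (x : E) : x ∈ setOf s ↔ s.testBit (idx x) = true := by simp [setOf]

theorem mem_setOf_vec (s : ℕ) {u : ℕ} (hu : u < 64) : vec u ∈ setOf s ↔ s.testBit u = true := by
  rw [mem_setOf, idx_vec hu]

theorem sum_E {M : Type*} [AddCommMonoid M] (F : E → M) :
    ∑ x : E, F x = ∑ u ∈ range 64, F (vec u) := by
  rw [← Fin.sum_univ_eq_sum_range (fun u => F (vec u)) 64]
  exact (Fintype.sum_bijective (fun u : Fin 64 => vec u) vec_bij _ _ (fun u => rfl)).symm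

theorem card_filter_setOf (s : ℕ) (p : E → Prop) [DecidablePred p] :
    ((setOf s).filter p).card =
      ∑ u ∈ range 64, if s.testBit u = true ∧ p (vec u) then 1 else 0 := by
  unfold setOf
  rw [Finset.filter_filter, Finset.card_filter, sum_E]
  refine Finset.sum_congr rfl fun u hu => ?_
  rw [idx_vec (mem_range.1 hu)]

/-- index form of the elementary move with code `d` -/
def tu (d u : ℕ) : ℕ :=
  if (d < 36 ∧ d / 6 ≠ d % 6) ∧ u.testBit (d % 6) = true then u ^^^ 2 ^ (d / 6) else u

/-- the elementary move with code `d` -/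
def mvE (d : ℕ) (x : E) : E :=
  if d < 36 ∧ d / 6 ≠ d % 6 then
    x + Pi.single (⟨d / 6 % 6, Nat.mod_lt _ (by norm_num)⟩ : Fin 6)
      (x ⟨d % 6, Nat.mod_lt _ (by norm_num)⟩)
  else x

theorem mvE_vec (d u : ℕ) : mvE d (vec u) = vec (tu d u) := by
  unfold mvE tu
  by_cases hd : d < 36 ∧ d / 6 ≠ d % 6
  · rw [if_pos hd]
    have hi : d / 6 % 6 = d / 6 := Nat.mod_eq_of_lt (by omega)
    by_cases hj : u.testBit (d % 6) = true
    · rw [if_pos ⟨hd, hj⟩, vec_xor]
      congr 1
      funext i
      have h1 : vec u ⟨d % 6, Nat.mod_lt _ (by norm_num)⟩ = 1 := by simp [vec, hj]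
      rw [h1]
      simp only [Pi.single_apply, vec, Nat.testBit_two_pow]
      by_cases h : i = (⟨d / 6 % 6, Nat.mod_lt _ (by norm_num)⟩ : Fin 6)
      · rw [if_pos h, if_pos]
        rw [h]; simp [hi]
      · rw [if_neg h, if_neg]
        intro h'
        apply h
        apply Fin.ext
        simp at h'
        show (i : ℕ) = d / 6 % 6
        omega
    · rw [if_neg (fun h => hj h.2)]
      have h1 : vec u ⟨d % 6, Nat.mod_lt _ (by norm_num)⟩ = 0 := by simp [vec, hj]
      rw [h1]
      simp
  · rw [if_neg hd, if_neg (fun h => hd h.1)]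

theorem mvE_add (d : ℕ) (x y : E) : mvE d (x + y) = mvE d x + mvE d y := by
  unfold mvE
  split_ifs with h
  · rw [Pi.add_apply, Pi.single_add]; abel
  · rfl

theorem mvE_invol (d : ℕ) (x : E) : mvE d (mvE d x) = x := by
  unfold mvE
  by_cases h : d < 36 ∧ d / 6 ≠ d % 6
  · rw [if_pos h, if_pos h]
    have h2 : (⟨d % 6, Nat.mod_lt _ (by norm_num)⟩ : Fin 6) ≠
        ⟨d / 6 % 6, Nat.mod_lt _ (by norm_num)⟩ := by
      intro h3
      have := congrArg Fin.val h3
      simp only at this
      omega
    rw [Pi.add_apply, Pi.single_eq_of_ne h2, add_zero, add_assoc, ← Pi.single_add]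
    rw [CharTwo.add_self_eq_zero]; simp
  · rw [if_neg h, if_neg h]

theorem mvE_inj (d : ℕ) : Function.Injective (mvE d) :=
  Function.LeftInverse.injective (mvE_invol d)

/-- code of the transposed move -/
def td (d : ℕ) : ℕ := if d < 36 then 6 * (d % 6) + d / 6 else d

theorem td_td (d : ℕ) : td (td d) = d := by
  unfold td
  split_ifs with h1 h2 h2 <;> omega

theorem dot_mvE (d : ℕ) (h x : E) : dot h (mvE d x) = dot (mvE (td d) h) x := by
  unfold mvE td
  by_cases hd : d < 36 ∧ d / 6 ≠ d % 6
  · rw [if_pos hd, if_pos hd.1]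
    have e1 : (6 * (d % 6) + d / 6) / 6 = d % 6 := by omega
    have e2 : (6 * (d % 6) + d / 6) % 6 = d / 6 := by omega
    have e3 : 6 * (d % 6) + d / 6 < 36 := by omega
    rw [if_pos (by rw [e1, e2]; exact ⟨e3, fun q => hd.2 q.symm⟩)]
    rw [dot_add_right, dot_add_left]
    congr 1
    have a1 : ∀ (k : E) (i : Fin 6) (c : ZMod 2), dot k (Pi.single i c) = k i * c := by
      intro k i c
      unfold dot
      rw [Finset.sum_eq_single i]
      · simp
      · intro j _ hj; simp [Pi.single_eq_of_ne hj]
      · simp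
    have a2 : ∀ (k : E) (i : Fin 6) (c : ZMod 2), dot (Pi.single i c) k = c * k i := by
      intro k i c
      unfold dot
      rw [Finset.sum_eq_single i]
      · simp
      · intro j _ hj; simp [Pi.single_eq_of_ne hj]
      · simp
    rw [a1, a2]
    simp only [e1, e2]
    congr 1
    · congr 1
      apply Fin.ext
      show d / 6 % 6 = d / 6
      exact Nat.mod_eq_of_lt (by omega)
    · congr 1
      apply Fin.ext
      show d % 6 = d % 6 % 6
      omega
  · rw [if_neg hd]
    rw [if_neg]
    intro h
    apply hd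
    split_ifs at h with h36
    · omega
    · exact h

theorem mvE_zero (d : ℕ) : mvE d 0 = 0 := by
  have := mvE_add d 0 0
  simpa using this

end Pool.Agent.Helper163
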