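import Pool.Agent.Helper163.LemB

set_option autoImplicit false

namespace Pool.Agent.Helper163

open Finset

variable {n : ℕ}

theorem ne_up1 {G : Finset (Finset (Fin n))} (hU : Up G) (h : G.Nonempty) (k : Fin n) :
    (up1 k G).Nonempty := h.mono (sub_up1 hU k)

/-- in a complementary pair with both members nonempty and `A` larger than one half,
the sum of densities is at most one half -/
theorem pair_bound {A X Y : Finset (Finset (Fin n))} (hA : Up A) (hX : Up X) (hY : Up Y)
    (hC : Cross3 A X Y) (hd : 1 / 2 < dd A) (hXn : X.Nonempty) (hYn : Y.Nonempty) :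
    dd X + dd Y ≤ 1 / 2 := by
  have := l1 1 hX hY hA hXn hYn (cross_rot hC) (by norm_num; linarith)
  simpa using this

theorem up1_up1 (G : Finset (Finset (Fin n))) (k : Fin n) : up1 k (up1 k G) = up1 k G := by
  ext x
  simp only [mem_up1, insert_idem]

theorem up1_up1_up1 (G : Finset (Finset (Fin n))) (k l : Fin n) :
    up1 k (up1 l (up1 k G)) = up1 l (up1 k G) := by
  ext x
  simp only [mem_up1]
  rw [show insert k (insert l (insert k x)) = insert k (insert l x) by
        ext a; simp only [mem_insert]; tauto]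

theorem pair_le_one {A X Y : Finset (Finset (Fin n))} (hA : Up A) (hX : Up X) (hY : Up Y)
    (hC : Cross3 A X Y) (hAn : A.Nonempty) : dd X + dd Y ≤ 1 := by
  rcases X.eq_empty_or_nonempty with rfl | hXn
  · rw [dd_empty, zero_add]; exact dd_le_one Y
  rcases Y.eq_empty_or_nonempty with rfl | hYn
  · rw [dd_empty, add_zero]; exact dd_le_one X
  have := l1 0 hX hY hA hXn hYn (cross_rot hC) (by norm_num; exact dd_pos hAn)
  simpa using this

/-- two families with densities adding up to more than one contain complementary sets -/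
theorem exists_compl {X Y : Finset (Finset (Fin n))} (h : 1 < dd X + dd Y) :
    ∃ w ∈ X, wᶜ ∈ Y := by
  by_contra hcon
  push Not at hcon
  have h1 : X.card + Y.card ≤ 2 ^ n := by
    have h2 : (X.image (fun w => wᶜ)).card = X.card :=
      Finset.card_image_of_injective _ compl_injective
    rw [← h2, ← card_union_of_disjoint]
    · exact card_le_two_pow _
    · rw [disjoint_left]
      intro z hz hzY
      obtain ⟨w, hw, rfl⟩ := mem_image.1 hz
      exact hcon w hw hzY
  unfold dd at h
  rw [← add_div, lt_div_iff₀ (by positivity), one_mul] at h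
  have : ((X.card + Y.card : ℕ) : ℝ) ≤ ((2 ^ n : ℕ) : ℝ) := by exact_mod_cast h1
  push_cast at this
  linarith

theorem lemB (A B : Finset (Finset (Fin n))) (hA : Up A) (hB : Up B) (hC : Cross3 A B B)
    (ha : 1 / 8 < dd A) (hb : 15 / 32 ≤ dd B) : ∃ l : Fin n, ∀ x ∈ B, l ∈ x := by
  by_contra hcon
  push Not at hcon
  have hdn : ∀ l : Fin n, (dn l B).Nonempty := by
    intro l
    rw [nonempty_iff_ne_empty]
    intro h
    obtain ⟨x, hx, hl⟩ := hcon l
    exact hl (star_of_dn h x hx)
  have hAn : A.Nonempty := by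
    rw [nonempty_iff_ne_empty]; rintro rfl; rw [dd_empty] at ha; linarith
  have hBn : B.Nonempty := by
    rw [nonempty_iff_ne_empty]; rintro rfl; rw [dd_empty] at hb; linarith
  have hb1 := dd_le_one B
  -- step 1
  obtain ⟨k1, hk1⟩ := big_real hA hC hAn hBn hBn (15 / 17) (by norm_num) (by
    have h1 : 15 / 17 * (1 - dd B) ≤ dd B := by linarith
    have h2 : 0 ≤ 15 / 17 * (1 - dd B) := by
      have : 0 ≤ 1 - dd B := by linarith
      positivity
    calc (15 / 17 : ℝ) ^ 2 * ((1 - dd B) * (1 - dd B)) = (15 / 17 * (1 - dd B)) * (15 / 17 * (1 - dd B)) := by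
          ring
      _ ≤ dd B * dd B := mul_self_le_mul_self h2 h1)
  set A1 := up1 k1 A with hA1
  set B1 := up1 k1 B with hB1
  set B0 := dn k1 B with hB0
  have uA1 : Up A1 := Up_up1 hA k1
  have uB1 : Up B1 := Up_up1 hB k1
  have uB0 : Up B0 := Up_dn hB k1
  have hA1n : A1.Nonempty := ne_up1 hA hAn k1
  have hB1n : B1.Nonempty := ne_up1 hB hBn k1
  have hB0n : B0.Nonempty := hdn k1
  have ha1 : 4 / 17 < dd A1 := by nlinarith
  have c1 : Cross3 A1 B1 B0 := cross_uud hC k1
  have s1 : dd B1 + dd B0 = 2 * dd B := dd_split k1 B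
  have m1 : dd B0 ≤ dd B1 := dd_mono ((dn_sub hB k1).trans (sub_up1 hB k1))
  -- step 2
  have hb34 : dd B1 ≤ 3 / 4 := by
    by_contra h
    push Not at h
    have h2 := l1 2 uA1 uB0 uB1 hA1n hB0n (cross_swap c1) (by norm_num; linarith)
    norm_num at h2
    have h3 := l1 3 uA1 uB0 uB1 hA1n hB0n (cross_swap c1) (by norm_num; linarith)
    norm_num at h3
    have := dd_nonneg B0
    linarith
  obtain ⟨k2, hk2⟩ := big_real uA1 c1 hA1n hB1n hB0n (83 / 100) (by norm_num) (by
    have h1 : 9 / 64 ≤ dd B1 * dd B0 := by nlinarith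
    nlinarith)
  set A11 := up1 k2 A1 with hA11
  have uA11 : Up A11 := Up_up1 uA1 k2
  have hA11n : A11.Nonempty := ne_up1 uA1 hA1n k2
  have ha11 : 43058 / 100000 < dd A11 := by nlinarith
  set B11 := up1 k2 B1 with hB11
  set B10 := dn k2 B1 with hB10
  set B01 := up1 k2 B0 with hB01
  set B00 := dn k2 B0 with hB00
  have uB11 : Up B11 := Up_up1 uB1 k2
  have uB10 : Up B10 := Up_dn uB1 k2
  have uB01 : Up B01 := Up_up1 uB0 k2
  have uB00 : Up B00 := Up_dn uB0 k2
  have s2 : dd B11 + dd B10 = 2 * dd B1 := dd_split k2 B1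
  have s3 : dd B01 + dd B00 = 2 * dd B0 := dd_split k2 B0
  have c2 : Cross3 A11 B11 B00 := cross_uud c1 k2
  have c3 : Cross3 A11 B10 B01 := cross_udu c1 k2
  have hB01n : B01.Nonempty := ne_up1 uB0 hB0n k2
  have hB10n : B10.Nonempty := by
    obtain ⟨x, hx, hl⟩ := hcon k2
    refine ⟨x, ?_⟩
    rw [hB10, mem_dn, erase_eq_of_notMem hl]
    exact sub_up1 hB k1 hx
  -- step 3
  have p1 : dd B11 + dd B00 ≤ 1 := pair_le_one uA11 uB11 uB00 c2 hA11n
  have p2 : 7 / 8 ≤ dd B10 + dd B01 := by linarith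
  have q1 : dd B10 ≤ 1 / 2 := by
    by_contra h
    push Not at h
    have h2 := l1 1 uA11 uB01 uB10 hA11n hB01n (cross_swap c3) (by norm_num; linarith)
    norm_num at h2
    have h3 := l1 2 uA11 uB01 uB10 hA11n hB01n (cross_swap c3) (by norm_num; linarith)
    norm_num at h3
    have := dd_nonneg B01
    linarith
  have q2 : dd B01 ≤ 1 / 2 := by
    by_contra h
    push Not at h
    have h2 := l1 1 uA11 uB10 uB01 hA11n hB10n c3 (by norm_num; linarith)
    norm_num at h2
    have h3 := l1 2 uA11 uB10 uB01 hA11n hB10n c3 (by norm_num; linarith)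
    norm_num at h3
    have := dd_nonneg B10
    linarith
  obtain ⟨k3, hk3⟩ := big_real uA11 c3 hA11n hB10n hB01n (77 / 100) (by norm_num) (by
    have h1 : 3 / 16 ≤ dd B10 * dd B01 := by nlinarith
    nlinarith)
  set A111 := up1 k3 A11 with hA111
  have uA111 : Up A111 := Up_up1 uA11 k3
  have ha111 : 1 / 2 < dd A111 := by nlinarith
  have hA111n : A111.Nonempty := ne_up1 uA11 hA11n k3
  -- step 4
  have t1 := dd_split k3 B11
  have t2 := dd_split k3 B10
  have t3 := dd_split k3 B01
  have t4 := dd_split k3 B00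
  have d1 : Cross3 A111 (up1 k3 B11) (dn k3 B00) := cross_uud c2 k3
  have d2 : Cross3 A111 (dn k3 B11) (up1 k3 B00) := cross_udu c2 k3
  have d3 : Cross3 A111 (up1 k3 B10) (dn k3 B01) := cross_uud c3 k3
  have d4 : Cross3 A111 (dn k3 B10) (up1 k3 B01) := cross_udu c3 k3
  have e1 := pair_le_one uA111 (Up_up1 uB11 k3) (Up_dn uB00 k3) d1 hA111n
  have e2 := pair_le_one uA111 (Up_dn uB11 k3) (Up_up1 uB00 k3) d2 hA111n
  have e3 := pair_le_one uA111 (Up_up1 uB10 k3) (Up_dn uB01 k3) d3 hA111n
  have e4 := pair_le_one uA111 (Up_dn uB10 k3) (Up_up1 uB01 k3) d4 hA111n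
  -- nonemptiness of the majority sections
  have n110 : (dn k3 B11).Nonempty := by
    obtain ⟨x, hx, hl⟩ := hcon k3
    refine ⟨x, ?_⟩
    rw [mem_dn, erase_eq_of_notMem hl]
    exact sub_up1 uB1 k2 (sub_up1 hB k1 hx)
  have n101 : (up1 k3 B10).Nonempty := ne_up1 uB10 hB10n k3
  have n011 : (up1 k3 B01).Nonempty := ne_up1 uB01 hB01n k3
  have n111 : (up1 k3 B11).Nonempty := n110.mono ((dn_sub uB11 k3).trans (sub_up1 uB11 k3))
  have z000 : dn k3 B00 = ∅ := by
    by_contra h
    have := pair_bound uA111 (Up_up1 uB11 k3) (Up_dn uB00 k3) d1 ha111 n111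
      (nonempty_iff_ne_empty.2 h)
    linarith
  have z001 : up1 k3 B00 = ∅ := by
    by_contra h
    have := pair_bound uA111 (Up_dn uB11 k3) (Up_up1 uB00 k3) d2 ha111 n110
      (nonempty_iff_ne_empty.2 h)
    linarith
  have z010 : dn k3 B01 = ∅ := by
    by_contra h
    have := pair_bound uA111 (Up_up1 uB10 k3) (Up_dn uB01 k3) d3 ha111 n101
      (nonempty_iff_ne_empty.2 h)
    linarith
  have z100 : dn k3 B10 = ∅ := by
    by_contra h
    have := pair_bound uA111 (Up_dn uB10 k3) (Up_up1 uB01 k3) d4 ha111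
      (nonempty_iff_ne_empty.2 h) n011
    linarith
  rw [z000, dd_empty, add_zero] at e1 t4
  rw [z001, dd_empty] at e2 t4
  rw [z010, dd_empty] at e3 t3
  rw [z100, dd_empty] at e4 t2
  have f110 : 3 / 4 ≤ dd (dn k3 B11) := by linarith
  have f101 : 3 / 4 ≤ dd (up1 k3 B10) := by linarith
  have f011 : 3 / 4 ≤ dd (up1 k3 B01) := by linarith
  -- all members of A contain k1, k2, k3
  have g1 : ∀ x ∈ A, k1 ∈ x := by
    obtain ⟨w, hw1, hw2⟩ := exists_compl (X := dn k3 B11) (Y := up1 k3 B10) (by linarith)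
    rw [hB11, hB1, mem_dn, mem_up1, mem_up1] at hw1
    rw [hB10, hB1, mem_up1, mem_dn, mem_up1] at hw2
    intro x hx
    obtain ⟨a, ha⟩ := hC x hx _ hw1 _ hw2
    simp only [mem_inter, mem_insert, mem_erase, mem_compl] at ha
    have : a = k1 := by tauto
    rw [← this]; exact ha.1.1
  have g2 : ∀ x ∈ A, k2 ∈ x := by
    obtain ⟨w, hw1, hw2⟩ := exists_compl (X := dn k3 B11) (Y := up1 k3 B01) (by linarith)
    rw [hB11, hB1, mem_dn, mem_up1, mem_up1] at hw1
    rw [hB01, hB0, mem_up1, mem_up1, mem_dn] at hw2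
    intro x hx
    obtain ⟨a, ha⟩ := hC x hx _ hw1 _ hw2
    simp only [mem_inter, mem_insert, mem_erase, mem_compl] at ha
    have : a = k2 := by tauto
    rw [← this]; exact ha.1.1
  have g3 : ∀ x ∈ A, k3 ∈ x := by
    obtain ⟨w, hw1, hw2⟩ := exists_compl (X := up1 k3 B10) (Y := up1 k3 B01) (by linarith)
    rw [hB10, hB1, mem_up1, mem_dn, mem_up1] at hw1
    rw [hB01, hB0, mem_up1, mem_up1, mem_dn] at hw2
    intro x hx
    obtain ⟨a, ha⟩ := hC x hx _ hw1 _ hw2
    simp only [mem_inter, mem_insert, mem_erase, mem_compl] at ha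
    have : a = k3 := by tauto
    rw [← this]; exact ha.1.1
  have ne12 : k2 ≠ k1 := by
    rintro rfl
    have : up1 k2 A1 = A1 := by
      rw [hA1]; exact up1_up1 A k2
    rw [hA11, this] at hk2
    nlinarith
  have ne23 : k3 ≠ k2 := by
    rintro rfl
    have : up1 k3 A11 = A11 := by
      rw [hA11]; exact up1_up1 A1 k3
    rw [hA111, this] at hk3
    nlinarith
  have ne13 : k3 ≠ k1 := by
    rintro rfl
    have : up1 k3 A11 = A11 := by
      rw [hA11, hA1]; exact up1_up1_up1 A k3 k2
    rw [hA111, this] at hk3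
    nlinarith
  have r1 : dd A1 = 2 * dd A := by
    have := dd_split k1 A
    rw [dn_of_star g1, dd_empty, add_zero] at this
    exact this
  have r2 : dd A11 = 2 * dd A1 := by
    have := dd_split k2 A1
    have h0 : dn k2 A1 = ∅ := by
      apply dn_of_star
      intro x hx
      rw [hA1, mem_up1] at hx
      rcases mem_insert.1 (g2 _ hx) with h | h
      · exact absurd h ne12
      · exact h
    rw [h0, dd_empty, add_zero] at this
    exact this
  have r3 : dd A111 = 2 * dd A11 := by
    have := dd_split k3 A11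
    have h0 : dn k3 A11 = ∅ := by
      apply dn_of_star
      intro x hx
      rw [hA11, hA1, mem_up1, mem_up1] at hx
      rcases mem_insert.1 (g3 _ hx) with h | h
      · exact absurd h ne13
      · rcases mem_insert.1 h with h | h
        · exact absurd h ne23
        · exact h
    rw [h0, dd_empty, add_zero] at this
    exact this
  have := dd_le_one A111
  linarith

end Pool.Agent.Helper163
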