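import Pool.Agent.Helper163.Spec
import Pool.Agent.Helper163.LemB2

set_option autoImplicit false

namespace Pool.Agent.Helper163

open Finset

variable {n : ℕ}

/-- indicator vector -/
def iv (x : Finset (Fin n)) : Fin n → ZMod 2 := fun i => if i ∈ x then 1 else 0

theorem iv_inj : Function.Injective (iv (n := n)) := by
  intro x y h
  ext i
  have := congrFun h i
  unfold iv at this
  by_cases hx : i ∈ x <;> by_cases hy : i ∈ y <;> simp_all

theorem iv_surj (h : Fin n → ZMod 2) : iv (univ.filter (fun i => h i ≠ 0)) = h := by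
  funext i
  unfold iv
  simp only [mem_filter, mem_univ, true_and]
  rcases z2 (h i) with a | a <;> simp [a]

theorem dot_iv (x y : Finset (Fin n)) : dot (iv x) (iv y) = ((x ∩ y).card : ZMod 2) := by
  unfold dot iv
  rw [Finset.card_eq_sum_ones, Nat.cast_sum]
  have : x ∩ y = univ.filter (fun i => i ∈ x ∧ i ∈ y) := by ext i; simp
  rw [this, Finset.sum_filter]
  refine Finset.sum_congr rfl fun i _ => ?_
  by_cases hx : i ∈ x <;> by_cases hy : i ∈ y <;> simp [hx, hy]

theorem ch_iv (x y : Finset (Fin n)) : ch (iv x) (iv y) = chi x y := by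
  unfold ch chi
  rw [dot_iv]
  rcases Nat.even_or_odd (x ∩ y).card with h | h
  · rw [if_pos, h.neg_one_pow]
    rw [ZMod.natCast_eq_zero_iff]
    exact h.two_dvd
  · rw [if_neg, h.neg_one_pow]
    rw [ZMod.natCast_eq_zero_iff]
    exact fun h2 => (Nat.not_even_iff_odd.2 h) (even_iff_two_dvd.2 h2)

/-- the set of indicator vectors -/
def IV (G : Finset (Finset (Fin n))) : Finset (Fin n → ZMod 2) := G.image iv

theorem card_IV (G : Finset (Finset (Fin n))) : (IV G).card = G.card :=
  Finset.card_image_of_injective _ iv_inj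

theorem sum_ch_IV (G : Finset (Finset (Fin n))) (T : Finset (Fin n)) :
    ∑ u ∈ IV G, ch (iv T) u = tr G T := by
  unfold IV tr
  rw [Finset.sum_image (fun x _ y _ h => iv_inj h)]
  exact Finset.sum_congr rfl fun x _ => ch_iv T x

theorem SF_IV (G : Finset (Finset (Fin n))) (hG : Cross3 G G G) : SF (IV G) := by
  intro x hx y hy hxy
  obtain ⟨X, hX, rfl⟩ := mem_image.1 hx
  obtain ⟨Y, hY, rfl⟩ := mem_image.1 hy
  obtain ⟨Z, hZ, h⟩ := mem_image.1 hxy
  obtain ⟨a, ha⟩ := hG X hX Y hY Z hZ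
  simp only [mem_inter] at ha
  have := congrFun h a
  unfold iv at this
  simp [ha.1.1, ha.1.2, ha.2] at this

theorem fh_IV (G : Finset (Finset (Fin n))) (hU : Up G) (l : ℝ)
    (hl : ∀ i : Fin n, dd G - dd (dn i G) ≤ l) (h : Fin n → ZMod 2) (hh : h ≠ 0) :
    -l ≤ fh (IV G) h := by
  set T := univ.filter (fun i => h i ≠ 0) with hT
  have hTn : T.Nonempty := by
    obtain ⟨i, hi⟩ := Function.ne_iff.1 hh
    exact ⟨i, by rw [hT, mem_filter]; exact ⟨mem_univ _, hi⟩⟩
  obtain ⟨i, hi⟩ := hTn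
  have h1 := tr_bound G hU T i hi
  have h2 : ∑ u ∈ IV G, ch h u = tr G T := by
    rw [← sum_ch_IV, hT, iv_surj]
  unfold fh
  rw [h2]
  have h3 := hl i
  unfold dd at h3
  rw [card_dn] at h3
  have h4 : -((G.card : ℤ) - 2 * (G.filter (fun x => i ∉ x)).card) ≤ tr G T := (abs_le.1 h1).1
  have h5 : -((G.card : ℝ) - 2 * (G.filter (fun x => i ∉ x)).card) ≤ (tr G T : ℝ) := by
    exact_mod_cast h4
  have hN : (0 : ℝ) < 2 ^ n := by positivity
  rw [le_div_iff₀ hN]
  rw [← sub_div, div_le_iff₀ hN] at h3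
  push_cast at h3
  linarith

/-- spectral information about a three-wise intersecting up-set with all lower sections large -/
theorem family_facts (G : Finset (Finset (Fin n))) (hU : Up G) (hC : Cross3 G G G)
    (hn : G.Nonempty) (hd : ∀ i : Fin n, 1 / 8 < dd (dn i G)) :
    SF (IV G) ∧ (∀ h : Fin n → ZMod 2, h ≠ 0 → -(dd G - 1 / 8) ≤ fh (IV G) h) ∧
      (∀ h : Fin n → ZMod 2, h ≠ 0 → -(15 / 32 - dd G) ≤ fh (IV G) h) := by
  refine ⟨SF_IV G hC, fun h hh => fh_IV G hU _ (fun i => ?_) h hh,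
    fun h hh => fh_IV G hU _ (fun i => ?_) h hh⟩
  · have := hd i
    linarith
  · have hs := dd_split i G
    have hlt : dd (up1 i G) < 15 / 32 := by
      by_contra hcon
      push Not at hcon
      have hc : Cross3 (dn i G) (up1 i G) (up1 i G) := cross_rot (cross_rot (cross_uud hC i))
      obtain ⟨l, hl⟩ := lemB (dn i G) (up1 i G) (Up_dn hU i) (Up_up1 hU i) hc (hd i) hcon
      have h1 : dn l G = ∅ := dn_of_star (fun x hx => hl x (sub_up1 hU i hx))
      have h2 := hd l
      rw [h1, dd_empty] at h2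
      linarith
    linarith

end Pool.Agent.Helper163
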