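import Pool.Agent.Helper163.Split
import Pool.Agent.Helper163.Data

set_option autoImplicit false

namespace Pool.Agent.Helper163

theorem cd10_0 : chkDataL ((dat10.drop 0).take 5) 449 = true := by decide +kernel

theorem cd10_5 : chkDataL ((dat10.drop 5).take 5) 454 = true := by decide +kernel

theorem cd10_10 : chkDataL ((dat10.drop 10).take 5) 459 = true := by decide +kernel

theorem cd10_15 : chkDataL ((dat10.drop 15).take 5) 464 = true := by decide +kernel

theorem cd10_20 : chkDataL ((dat10.drop 20).take 5) 469 = true := by decide +kernel

theorem cd10_25 : chkDataL ((dat10.drop 25).take 5) 474 = true := by decide +kernel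

theorem cd10_30 : chkDataL ((dat10.drop 30).take 5) 479 = true := by decide +kernel

theorem cd10_35 : chkDataL ((dat10.drop 35).take 5) 484 = true := by decide +kernel

theorem cd10_40 : chkDataL (dat10.drop 40) 489 = true := by decide +kernel

theorem cd10 : chkDataL dat10 449 = true :=
  piece dat10 449 0 5 cd10_0 (piece dat10 449 5 5 cd10_5 (piece dat10 449 10 5 cd10_10 (piece dat10 449 15 5 cd10_15 (piece dat10 449 20 5 cd10_20 (piece dat10 449 25 5 cd10_25 (piece dat10 449 30 5 cd10_30 (piece dat10 449 35 5 cd10_35 (cd10_40))))))))

end Pool.Agent.Helper163
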