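import Pool.Agent.Helper163.Cert

set_option autoImplicit false

namespace Pool.Agent.Helper163

/-- the certificate of an interval is accepted on a list of lists of representatives -/
def IvOK (I : Iv) (l : List (List (Nat × Nat × Nat))) : Prop :=
  ∃ q0 q1 : Nat, chkQ q0 I.v0 3072 = true ∧ chkQ q1 I.v1 3072 = true ∧ chkRepLL I q0 q1 l = true

theorem chkRepLL_nil (I : Iv) (q0 q1 : Nat) : chkRepLL I q0 q1 [] = true := rfl

theorem chkRepLL_cons {I : Iv} {q0 q1 : Nat} {x : List (Nat × Nat × Nat)}
    {l : List (List (Nat × Nat × Nat))} (h1 : chkRepL I q0 q1 x = true)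
    (h2 : chkRepLL I q0 q1 l = true) : chkRepLL I q0 q1 (x :: l) = true := by
  have e : chkRepLL I q0 q1 (x :: l) = cond (chkRepL I q0 q1 x) (chkRepLL I q0 q1 l) false := rfl
  rw [e, h1, h2]; rfl

end Pool.Agent.Helper163
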