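import Pool.Agent.Helper163.Kern

set_option autoImplicit false

namespace Pool.Agent.Helper163

noncomputable section

/-- entry `e = w + 64 * (k + 1024 * word)` is a valid extension entry for `r` and the point `w` -/
def chkEnt (r w e : Nat) : Bool :=
  force (Nat.land (Nat.shiftRight e 6) 1023) fun k =>
    cond (Nat.ble k 538)
      (Nat.beq (applyW 40 (Nat.shiftRight e 16) (Nat.lor r (Nat.shiftLeft 1 w))) (rep k)) false

/-- check all points `1 ≤ w ≤ n` -/
def chkEx (r wit : Nat) (n : Nat) : List Nat → Bool :=
  Nat.rec (motive := fun _ => List Nat → Bool) (fun _ => true)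
    (fun k ih es => cond (Nat.beq (tb r (Nat.succ k)) 1) (ih es)
      (force (Nat.land (Nat.shiftRight wit (Nat.mul 6 (Nat.succ k))) 63) fun x =>
        cond (Nat.beq x 0)
          (List.rec (motive := fun _ => Bool) false
            (fun e es' _ => cond (chkEnt r (Nat.succ k) e) (ih es') false) es)
          (cond (Nat.beq (Nat.mul (tb r x) (tb r (Nat.xor x (Nat.succ k)))) 1) (ih es) false))) n

def chkExL (L : List (Nat × List Nat)) : Nat → Bool :=
  List.rec (motive := fun _ => Nat → Bool) (fun _ => true)
    (fun x _ ih j => cond (force (rep j) fun r => chkEx r x.1 63 x.2) (ih (Nat.succ j)) false) L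

/-- all hyperplane histograms are supported on 17 digits -/
def chkBnd (L : List (Nat × Nat × Nat)) : Bool :=
  List.rec (motive := fun _ => Bool) true
    (fun x _ ih => cond (Nat.ble x.2.1 87112285931760246646623899502532662132735) ih false) L

end

end Pool.Agent.Helper163
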