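import Pool.Agent.Helper163.Moves
import Pool.Agent.Helper163.Kern3

set_option autoImplicit false

namespace Pool.Agent.Helper163

open Finset

/-- apply a list of moves -/
def amap : List ℕ → E → E
  | [], x => x
  | d :: ws, x => amap ws (mvE d x)

theorem amap_inj : ∀ ws : List ℕ, Function.Injective (amap ws)
  | [] => fun _ _ h => h
  | d :: ws => fun _ _ h => mvE_inj d (amap_inj ws h)

theorem amap_add : ∀ (ws : List ℕ) (x y : E), amap ws (x + y) = amap ws x + amap ws y
  | [], _, _ => rfl
  | d :: ws, x, y => by
    show amap ws (mvE d (x + y)) = amap ws (mvE d x) + amap ws (mvE d y)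
    rw [mvE_add, amap_add ws]

theorem amap_append : ∀ (ws ws' : List ℕ) (x : E), amap (ws ++ ws') x = amap ws' (amap ws x)
  | [], _, _ => rfl
  | d :: ws, ws', x => amap_append ws ws' (mvE d x)

theorem image_amap_cons (d : ℕ) (ws : List ℕ) (g : Finset E) :
    g.image (amap (d :: ws)) = (g.image (mvE d)).image (amap ws) := by
  rw [Finset.image_image]; rfl

theorem SF_image {g : Finset E} (hg : SF g) (ws : List ℕ) : SF (g.image (amap ws)) := by
  intro x hx y hy h
  rw [mem_image] at hx hy h
  obtain ⟨a, ha, rfl⟩ := hx
  obtain ⟨b, hb, rfl⟩ := hy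
  obtain ⟨c, hc, h⟩ := h
  rw [← amap_add] at h
  exact hg a ha b hb (amap_inj ws h ▸ hc)

theorem applyW_zero (w g : ℕ) : applyW 0 w g = g := rfl

theorem applyW_succ (n w g : ℕ) : applyW (n + 1) w g = cond (Nat.beq w 0) g
    (applyW n (w >>> 6) (mvC (w &&& 63) g)) := by
  have : applyW (n + 1) w g = cond (Nat.beq w 0) g
      (force (mvC (Nat.land w 63) g) fun g' => force (Nat.shiftRight w 6) fun w' =>
        applyW n w' g') := rfl
  rw [this, force_eq, force_eq]
  rfl

theorem applyW_spec : ∀ (n w g : ℕ), ∃ ws : List ℕ,
    setOf (applyW n w g) = (setOf g).image (amap ws)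
  | 0, w, g => ⟨[], by rw [applyW_zero]; ext x; simp [amap]⟩
  | n + 1, w, g => by
    rw [applyW_succ]
    cases Nat.beq w 0 with
    | true => exact ⟨[], by ext x; simp [amap]⟩
    | false =>
      obtain ⟨ws, h⟩ := applyW_spec n (w >>> 6) (mvC (w &&& 63) g)
      refine ⟨(w &&& 63) :: ws, ?_⟩
      simp only [cond_false]
      have h63 : w &&& 63 < 64 := lt_of_le_of_lt Nat.and_le_right (by norm_num)
      rw [h, setOf_mvC _ h63, image_amap_cons]

theorem tb_spec (m n : ℕ) : tb m n = 1 ↔ m.testBit n = true := by
  have : tb m n = (m >>> n) &&& 1 := rfl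
  rw [this, Nat.and_one_is_mod, Nat.shiftRight_eq_div_pow, Nat.testBit_eq_decide_div_mod_eq]
  simp

theorem chkEx_spec (r wit : ℕ) : ∀ (n : ℕ) (es : List ℕ), chkEx r wit n es = true →
    ∀ w, 1 ≤ w → w ≤ n → r.testBit w = true ∨
      (∃ x, x < 64 ∧ r.testBit x = true ∧ r.testBit (x ^^^ w) = true) ∨
      ∃ e, chkEnt r w e = true := by
  intro n
  induction n with
  | zero => intro es _ w h1 h2; omega
  | succ n ih =>
    intro es h w h1 h2
    have e : chkEx r wit (n + 1) es = cond (Nat.beq (tb r (Nat.succ n)) 1) (chkEx r wit n es)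
      (force (Nat.land (Nat.shiftRight wit (Nat.mul 6 (Nat.succ n))) 63) fun x =>
        cond (Nat.beq x 0)
          (List.rec (motive := fun _ => Bool) false
            (fun e es' _ => cond (chkEnt r (Nat.succ n) e) (chkEx r wit n es') false) es)
          (cond (Nat.beq (Nat.mul (tb r x) (tb r (Nat.xor x (Nat.succ n)))) 1)
            (chkEx r wit n es) false)) := rfl
    rw [e, force_eq] at h
    cases hb : Nat.beq (tb r (Nat.succ n)) 1 with
    | true =>
      rw [hb] at h
      simp only [cond_true] at h
      by_cases hw : w = n + 1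
      · left; rw [hw]; exact (tb_spec _ _).1 (Nat.eq_of_beq_eq_true hb)
      · exact ih es h w h1 (by omega)
    | false =>
      rw [hb] at h
      simp only [cond_false] at h
      cases hx : Nat.beq (Nat.land (Nat.shiftRight wit (Nat.mul 6 (Nat.succ n))) 63) 0 with
      | true =>
        rw [hx] at h
        simp only [cond_true] at h
        cases es with
        | nil => exact absurd h (by simp)
        | cons a es =>
          simp only at h
          cases ha : chkEnt r (Nat.succ n) a with
          | false => rw [ha] at h; exact absurd h (by simp)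
          | true =>
            rw [ha] at h
            simp only [cond_true] at h
            by_cases hw : w = n + 1
            · right; right; exact ⟨a, hw ▸ ha⟩
            · exact ih es h w h1 (by omega)
      | false =>
        rw [hx] at h
        simp only [cond_false] at h
        cases hm : Nat.beq (Nat.mul
            (tb r (Nat.land (Nat.shiftRight wit (Nat.mul 6 (Nat.succ n))) 63))
            (tb r (Nat.xor (Nat.land (Nat.shiftRight wit (Nat.mul 6 (Nat.succ n))) 63)
              (Nat.succ n)))) 1 with
        | false => rw [hm] at h; exact absurd h (by simp)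
        | true =>
          rw [hm] at h
          simp only [cond_true] at h
          by_cases hw : w = n + 1
          · right; left
            have h3 := Nat.eq_of_beq_eq_true hm
            have h4 := Nat.eq_one_of_mul_eq_one_right h3
            have h5 := Nat.eq_one_of_mul_eq_one_left h3
            refine ⟨_, ?_, (tb_spec _ _).1 h4, ?_⟩
            · exact lt_of_le_of_lt (Nat.and_le_right (m := 63)) (by norm_num)
            · rw [hw]; exact (tb_spec _ _).1 h5
          · exact ih es h w h1 (by omega)

theorem rep_lt (j : ℕ) : rep j < 2 ^ 64 :=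
  lt_of_le_of_lt (Nat.and_le_right (m := 18446744073709551615)) (by norm_num)

theorem setOf_lor (r w : ℕ) (hw : w < 64) :
    setOf (Nat.lor r (Nat.shiftLeft 1 w)) = insert (vec w) (setOf r) := by
  ext x
  obtain ⟨u, hu, rfl⟩ := vec_surj x
  rw [mem_insert, mem_setOf_vec _ hu, mem_setOf_vec _ hu]
  have : (Nat.lor r (Nat.shiftLeft 1 w)) = r ||| (1 <<< w) := rfl
  rw [this, Nat.testBit_or, Nat.one_shiftLeft, Nat.testBit_two_pow]
  constructor
  · intro h
    by_cases h1 : w = u
    · left; rw [h1]
    · right; simpa [h1] using h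
  · rintro (h | h)
    · have := vec_inj hu hw h
      simp [this]
    · simp [h]

theorem classify (hall : ∀ j < 539, ∃ wit es, chkEx (rep j) wit 63 es = true)
    (h0 : rep 0 = 0) (g : Finset E) :
    SF g → ∃ ws : List ℕ, ∃ k < 539, g.image (amap ws) = setOf (rep k) := by
  induction g using Finset.induction_on with
  | empty =>
    intro _
    refine ⟨[], 0, by norm_num, ?_⟩
    rw [h0]
    ext x
    rw [mem_setOf]; simp
  | insert v g hv ih =>
    intro hSF
    have hg : SF g := fun x hx y hy h =>
      hSF x (mem_insert_of_mem hx) y (mem_insert_of_mem hy) (mem_insert_of_mem h)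
    obtain ⟨ws, k, hk, he⟩ := ih hg
    have hSF' := SF_image hSF ws
    obtain ⟨w, hw, hwv⟩ := vec_surj (amap ws v)
    rw [Finset.image_insert, he, ← hwv] at hSF'
    have hw0 : 1 ≤ w := by
      rcases Nat.eq_zero_or_pos w with h | h
      · exfalso
        rw [h] at hSF'
        have h1 : vec 0 = 0 := by funext i; simp [vec]
        rw [h1] at hSF'
        exact hSF' 0 (mem_insert_self _ _) 0 (mem_insert_self _ _) (by simp)
      · exact h
    have hnb : ¬ (rep k).testBit w = true := by
      intro h
      rw [← mem_setOf_vec _ hw, ← he, mem_image] at h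
      obtain ⟨a, ha, hav⟩ := h
      rw [hwv] at hav
      exact hv (amap_inj ws hav ▸ ha)
    obtain ⟨wit, es, hc⟩ := hall k hk
    rcases chkEx_spec _ _ 63 es hc w hw0 (by omega) with h | ⟨x, hx, h1, h2⟩ | ⟨e, h⟩
    · exact absurd h hnb
    · exfalso
      have hxw : x ^^^ w < 64 := Nat.xor_lt_two_pow (n := 6) hx hw
      rw [← mem_setOf_vec _ hx] at h1
      rw [← mem_setOf_vec _ hxw, vec_xor] at h2
      exact hSF' _ (mem_insert_of_mem h1) _ (mem_insert_self _ _) (mem_insert_of_mem h2)
    · unfold chkEnt at h
      rw [force_eq] at h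
      cases hb : Nat.ble (Nat.land (Nat.shiftRight e 6) 1023) 538 with
      | false => rw [hb] at h; exact absurd h (by simp)
      | true =>
        rw [hb] at h
        simp only [cond_true] at h
        have h1 := Nat.le_of_ble_eq_true hb
        have h2 := Nat.eq_of_beq_eq_true h
        obtain ⟨ws2, h3⟩ := applyW_spec 40 (Nat.shiftRight e 16) (Nat.lor (rep k) (Nat.shiftLeft 1 w))
        rw [h2, setOf_lor _ _ hw] at h3
        refine ⟨ws ++ ws2, _, Nat.lt_succ_of_le h1, ?_⟩
        rw [h3, ← he, hwv, ← Finset.image_insert, Finset.image_image]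
        refine Finset.image_congr fun x _ => ?_
        exact amap_append ws ws2 x

end Pool.Agent.Helper163
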