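import Pool.Agent.Helper163.Moments

set_option autoImplicit false

namespace Pool.Agent.Helper163

open Finset

/-- sum-free -/
def SF {W : Type*} [Add W] (S : Finset W) : Prop := ∀ x ∈ S, ∀ y ∈ S, x + y ∉ S

theorem sum_ch_eq (g : Finset E) (h : E) : ∑ u ∈ g, ch h u = (h0c g h : ℤ) - h1c g h := by
  unfold ch h0c h1c
  rw [Finset.sum_ite, Finset.sum_const, Finset.sum_const]
  have : (g.filter (fun u => ¬ dot h u = 0)) = g.filter (fun u => dot h u = 1) := by
    ext u
    simp only [mem_filter]
    rcases z2 (dot h u) with q | q <;> simp [q]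
  rw [this]
  simp
  ring

theorem moment_eq (g : Finset E) (k : ℕ) :
    ∑ h : E, ((h0c g h : ℤ) - h1c g h) ^ (k + 1) = 64 * (Tk k g : ℤ) := by
  have := fourier g k
  simp only [sum_ch_eq] at this
  rw [this]; norm_num

theorem li_card3 : Nat.card { s : Fin 3 → E // LinearIndependent (ZMod 2) s } = 234360 := by
  rw [card_linearIndependent (by simp)]
  simp [Fin.prod_univ_succ, ZMod.card]

theorem li_card4 : Nat.card { s : Fin 4 → E // LinearIndependent (ZMod 2) s } = 13124160 := by
  rw [card_linearIndependent (by simp)]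
  simp [Fin.prod_univ_succ, ZMod.card]

open Classical in
theorem li_filter3 :
    (univ.filter (fun y : Fin 3 → E => LinearIndependent (ZMod 2) y)).card = 234360 := by
  rw [← li_card3, Nat.card_eq_fintype_card, Fintype.card_subtype]

open Classical in
theorem li_filter4 :
    (univ.filter (fun y : Fin 4 → E => LinearIndependent (ZMod 2) y)).card = 13124160 := by
  rw [← li_card4, Nat.card_eq_fintype_card, Fintype.card_subtype]

theorem eq_of_add_zero {u v : E} (h : u + v = 0) : u = v := by
  have : u + v + v = v := by rw [h, zero_add]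
  rwa [add_assoc, add_self_E, add_zero] at this

theorem li3 (y : Fin 3 → E) (h0 : y 0 ≠ 0) (h1 : y 1 ≠ 0) (h2 : y 2 ≠ 0) (h01 : y 0 ≠ y 1)
    (h12 : y 1 ≠ y 2) (h02 : y 0 ≠ y 2) (hs : y 0 + y 1 + y 2 ≠ 0) :
    LinearIndependent (ZMod 2) y := by
  rw [Fintype.linearIndependent_iff]
  intro c hc
  rw [Fin.sum_univ_three] at hc
  rcases z2 (c 0) with a | a <;> rcases z2 (c 1) with b | b <;> rcases z2 (c 2) with d | d <;>
    rw [a, b, d] at hc <;> simp only [zero_smul, one_smul, zero_add, add_zero] at hc
  · intro i; fin_cases i <;> assumption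
  · exact absurd hc h2
  · exact absurd hc h1
  · exact absurd (eq_of_add_zero hc) h12
  · exact absurd hc h0
  · exact absurd (eq_of_add_zero hc) h02
  · exact absurd (eq_of_add_zero hc) h01
  · exact absurd hc hs

open Classical in
theorem T3_eq (g : Finset E) (h0 : (0 : E) ∉ g) :
    (Tk 3 g : ℤ) = NDk 3 g + 3 * (g.card : ℤ) ^ 2 - 2 * g.card := by
  have e1 : Tk 3 g = NDk 3 g + (univ.filter (fun y : Fin 3 → E =>
      ¬ LinearIndependent (ZMod 2) y ∧ (∀ i, y i ∈ g) ∧ ∑ i, y i ∈ g)).card := by
    unfold Tk NDk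
    have key := Finset.card_filter_add_card_filter_not
      (s := univ.filter (fun y : Fin 3 → E => (∀ i, y i ∈ g) ∧ ∑ i, y i ∈ g))
      (fun y : Fin 3 → E => LinearIndependent (ZMod 2) y)
    rw [← key, Finset.filter_filter, Finset.filter_filter]
    refine congrArg₂ (· + ·) (congrArg Finset.card (Finset.filter_congr fun y _ => ?_))
      (congrArg Finset.card (Finset.filter_congr fun y _ => ?_))
    · exact and_comm
    · exact and_comm
  have e2 : (univ.filter (fun y : Fin 3 → E =>
      ¬ LinearIndependent (ZMod 2) y ∧ (∀ i, y i ∈ g) ∧ ∑ i, y i ∈ g)) =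
      (g ×ˢ g).image (fun p => (![p.1, p.1, p.2] : Fin 3 → E)) ∪
      (g.offDiag.image (fun p => (![p.1, p.2, p.2] : Fin 3 → E)) ∪
       g.offDiag.image (fun p => (![p.1, p.2, p.1] : Fin 3 → E))) := by
    ext y
    simp only [mem_filter, mem_univ, true_and, mem_union, mem_image, mem_product, mem_offDiag,
      Prod.exists]
    constructor
    · rintro ⟨hli, hg, hs⟩
      have hne : ∀ i, y i ≠ 0 := fun i hi => h0 (hi ▸ hg i)
      rw [Fin.sum_univ_three] at hs
      have hs0 : y 0 + y 1 + y 2 ≠ 0 := fun h => h0 (h ▸ hs)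
      by_cases h01 : y 0 = y 1
      · left
        refine ⟨y 0, y 2, ⟨hg _, hg _⟩, ?_⟩
        funext i; fin_cases i
        · rfl
        · exact h01
        · rfl
      · right
        by_cases h12 : y 1 = y 2
        · left
          refine ⟨y 0, y 1, ⟨hg _, hg _, h01⟩, ?_⟩
          funext i; fin_cases i
          · rfl
          · rfl
          · exact h12
        · right
          have h02 : y 0 = y 2 := by
            by_contra h02
            exact hli (li3 y (hne 0) (hne 1) (hne 2) h01 h12 h02 hs0)
          refine ⟨y 0, y 1, ⟨hg _, hg _, h01⟩, ?_⟩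
          funext i; fin_cases i
          · rfl
          · rfl
          · exact h02
    · rintro (⟨a, b, ⟨ha, hb⟩, rfl⟩ | ⟨a, b, ⟨ha, hb, hab⟩, rfl⟩ | ⟨a, b, ⟨ha, hb, hab⟩, rfl⟩)
      · refine ⟨fun hli => ?_, fun i => ?_, ?_⟩
        · have : (0 : Fin 3) = 1 := hli.injective (by simp)
          exact absurd this (by decide)
        · fin_cases i <;> simp [ha, hb]
        · simp [Fin.sum_univ_three, add_self_E, hb]
      · refine ⟨fun hli => ?_, fun i => ?_, ?_⟩
        · have : (1 : Fin 3) = 2 := hli.injective (by simp)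
          exact absurd this (by decide)
        · fin_cases i <;> simp [ha, hb]
        · simp [Fin.sum_univ_three, add_assoc, add_self_E, ha]
      · refine ⟨fun hli => ?_, fun i => ?_, ?_⟩
        · have : (0 : Fin 3) = 2 := hli.injective (by simp)
          exact absurd this (by decide)
        · fin_cases i <;> simp [ha, hb]
        · have : a + b + a = b := by
            rw [add_comm a b, add_assoc, add_self_E, add_zero]
          simp [Fin.sum_univ_three, this, hb]
  have i1 : Function.Injective (fun p : E × E => (![p.1, p.1, p.2] : Fin 3 → E)) := by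
    intro p q h
    have a := congrFun h 0
    have b := congrFun h 2
    simp at a b
    exact Prod.ext a b
  have i2 : Function.Injective (fun p : E × E => (![p.1, p.2, p.2] : Fin 3 → E)) := by
    intro p q h
    have a := congrFun h 0
    have b := congrFun h 2
    simp at a b
    exact Prod.ext a b
  have i3 : Function.Injective (fun p : E × E => (![p.1, p.2, p.1] : Fin 3 → E)) := by
    intro p q h
    have a := congrFun h 0
    have b := congrFun h 1
    simp at a b
    exact Prod.ext a b
  have e3 : (univ.filter (fun y : Fin 3 → E =>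
      ¬ LinearIndependent (ZMod 2) y ∧ (∀ i, y i ∈ g) ∧ ∑ i, y i ∈ g)).card =
      g.card * g.card + ((g.card * g.card - g.card) + (g.card * g.card - g.card)) := by
    rw [e2, card_union_of_disjoint, card_union_of_disjoint, card_image_of_injective _ i1,
      card_image_of_injective _ i2, card_image_of_injective _ i3, card_product, offDiag_card]
    · rw [disjoint_left]
      intro y hy hy'
      simp only [mem_image, mem_offDiag, Prod.exists] at hy hy'
      obtain ⟨a, b, ⟨_, _, hab⟩, rfl⟩ := hy
      obtain ⟨c, d, ⟨_, _, hcd⟩, h⟩ := hy'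
      have x0 := congrFun h 0
      have x1 := congrFun h 1
      have x2 := congrFun h 2
      simp at x0 x1 x2
      exact hab (x0.symm.trans x2)
    · rw [disjoint_left]
      intro y hy hy'
      simp only [mem_image, mem_product, Prod.exists] at hy
      obtain ⟨a, b, _, rfl⟩ := hy
      simp only [mem_union, mem_image, mem_offDiag, Prod.exists] at hy'
      rcases hy' with ⟨c, d, ⟨_, _, hcd⟩, h⟩ | ⟨c, d, ⟨_, _, hcd⟩, h⟩
      · have x0 := congrFun h 0
        have x1 := congrFun h 1
        simp at x0 x1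
        exact hcd (x0.trans x1.symm)
      · have x0 := congrFun h 0
        have x1 := congrFun h 1
        simp at x0 x1
        exact hcd (x0.trans x1.symm)
  rw [e1, e3]
  have hle : g.card ≤ g.card * g.card := by nlinarith [Nat.zero_le g.card, sq_nonneg (g.card : ℤ), Nat.le_mul_self g.card]
  push_cast [Nat.cast_sub hle]
  ring

theorem SF_zero {g : Finset E} (hg : SF g) : (0 : E) ∉ g := by
  intro h
  exact hg 0 h 0 h (by simpa using h)

theorem li4 (g : Finset E) (hg : SF g) (y : Fin 4 → E) (hy : ∀ i, y i ∈ g) (hs : ∑ i, y i ∈ g) :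
    LinearIndependent (ZMod 2) y := by
  have hz := SF_zero hg
  rw [Fin.sum_univ_four] at hs
  rw [Fintype.linearIndependent_iff]
  intro c hc
  rw [Fin.sum_univ_four] at hc
  have p : ∀ a b u v : E, a ∈ g → b ∈ g → u + v = 0 → u + v + a + b ∈ g → False := by
    intro a b u v ha hb h h'
    rw [h, zero_add] at h'
    exact hg a ha b hb h'
  have q : ∀ a b c : E, a ∈ g → b ∈ g → c ∈ g → a + b + c = 0 → False := by
    intro a b c ha hb hc h
    have := eq_of_add_zero h
    exact hg a ha b hb (this ▸ hc)
  rcases z2 (c 0) with a0 | a0 <;> rcases z2 (c 1) with a1 | a1 <;> rcases z2 (c 2) with a2 | a2 <;>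
    rcases z2 (c 3) with a3 | a3 <;>
    rw [a0, a1, a2, a3] at hc <;> simp only [zero_smul, one_smul, zero_add, add_zero] at hc
  · intro i; fin_cases i <;> assumption
  · exact absurd (hc ▸ hy 3) hz
  · exact absurd (hc ▸ hy 2) hz
  · exact (p (y 0) (y 1) (y 2) (y 3) (hy 0) (hy 1) hc (by convert hs using 1; abel)).elim
  · exact absurd (hc ▸ hy 1) hz
  · exact (p (y 0) (y 2) (y 1) (y 3) (hy 0) (hy 2) hc (by convert hs using 1; abel)).elim
  · exact (p (y 0) (y 3) (y 1) (y 2) (hy 0) (hy 3) hc (by convert hs using 1; abel)).elim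
  · exact (q _ _ _ (hy 1) (hy 2) (hy 3) hc).elim
  · exact absurd (hc ▸ hy 0) hz
  · exact (p (y 1) (y 2) (y 0) (y 3) (hy 1) (hy 2) hc (by convert hs using 1; abel)).elim
  · exact (p (y 1) (y 3) (y 0) (y 2) (hy 1) (hy 3) hc (by convert hs using 1; abel)).elim
  · exact (q _ _ _ (hy 0) (hy 2) (hy 3) hc).elim
  · exact (p (y 2) (y 3) (y 0) (y 1) (hy 2) (hy 3) hc hs).elim
  · exact (q _ _ _ (hy 0) (hy 1) (hy 3) hc).elim
  · exact (q _ _ _ (hy 0) (hy 1) (hy 2) hc).elim
  · exact absurd (hc ▸ hs) hz

open Classical in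
theorem T4_eq (g : Finset E) (hg : SF g) : Tk 4 g = NDk 4 g := by
  unfold Tk NDk
  refine congrArg Finset.card (Finset.filter_congr fun y _ => ?_)
  constructor
  · rintro ⟨a, b⟩; exact ⟨li4 g hg y a b, a, b⟩
  · rintro ⟨_, a, b⟩; exact ⟨a, b⟩

variable {V : Type*} [AddCommGroup V] [Module (ZMod 2) V] [Fintype V] [DecidableEq V]

theorem SF_gX {A : Finset V} (hA : SF A) (X : Fin 6 → V) : SF (gX A X) := by
  intro x hx y hy h
  rw [mem_gX] at hx hy h
  rw [L_add] at h
  exact hA _ hx _ hy h

end Pool.Agent.Helper163
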