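import Pool.Agent.Helper163.Point

set_option autoImplicit false

namespace Pool.Agent.Helper163

open Finset

theorem h0c_zero (g : Finset E) : h0c g 0 = g.card := by
  unfold h0c
  rw [Finset.filter_true_of_mem]
  intro u _; exact dot_zero_left u

theorem h1c_zero (g : Finset E) : h1c g 0 = 0 := by
  unfold h1c
  rw [Finset.card_eq_zero, Finset.filter_false_of_mem]
  intro u _; rw [dot_zero_left]; decide

theorem h01 (g : Finset E) (h : E) : h0c g h + h1c g h = g.card := card01 g h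

theorem momk (g : Finset E) (k : ℕ) :
    (g.card : ℤ) ^ (k + 1) + Bsum (fun s => (2 * (s : ℤ) - g.card) ^ (k + 1)) g =
      64 * (Tk k g : ℤ) := by
  rw [← moment_eq g k, ← Finset.sum_filter_add_sum_filter_not univ (fun h : E => h ≠ 0), add_comm]
  unfold Bsum
  congr 1
  · refine Finset.sum_congr rfl fun h _ => ?_
    have := h01 g h
    have h2 : (h0c g h : ℤ) + h1c g h = g.card := by exact_mod_cast this
    show (2 * (h0c g h : ℤ) - g.card) ^ (k + 1) = _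
    congr 1
    linarith
  · have : (univ.filter (fun h : E => ¬ h ≠ 0)) = {0} := by
      ext h; simp
    rw [this, Finset.sum_singleton, h0c_zero, h1c_zero]
    simp

theorem Tf_SF (c5 c4 A : ℤ) (ψ : ℕ → ℤ) (vs : List ℕ) (g : Finset E) (hg : SF g) :
    Tf c5 c4 A ψ vs g = 64 * c5 * NDk 4 g + 64 * c4 * NDk 3 g +
      (vs.map (fun v => Psum (vfun v) g)).sum +
      ∑ h ∈ univ.filter (fun h : E => h ≠ 0), ψ (h0c g h) * (10000 * (h1c g h : ℤ) - 32 * A) := by
  unfold Tf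
  have h5 := momk g 4
  have h4 := momk g 3
  rw [T4_eq g hg] at h5
  rw [T3_eq g (SF_zero hg)] at h4
  simp only [Nat.reduceAdd] at h4 h5
  rw [h5, h4]
  have h6 : Bsum (fun s => ψ s * (10000 * ((g.card : ℤ) - s) - 32 * A)) g =
      ∑ h ∈ univ.filter (fun h : E => h ≠ 0), ψ (h0c g h) * (10000 * (h1c g h : ℤ) - 32 * A) := by
    unfold Bsum
    refine Finset.sum_congr rfl fun h _ => ?_
    have h2 : (h0c g h : ℤ) + h1c g h = g.card := by exact_mod_cast h01 g h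
    rw [← h2]; ring
  rw [h6]
  ring

variable {V : Type*} [AddCommGroup V] [Module (ZMod 2) V] [Fintype V] [DecidableEq V]

theorem Psum_expect (A : Finset V) (v : ℕ → ℕ → ℕ → ℤ) :
    0 ≤ ∑ X : Fin 6 → V, Psum v (gX A X) := by
  unfold Psum
  rw [Finset.sum_comm]
  refine Finset.sum_nonneg fun h _ => ?_
  rw [Finset.sum_comm]
  refine Finset.sum_nonneg fun h' hh => ?_
  have := (mem_filter.1 hh).2
  exact square_nonneg A v h h' this.1 this.2

theorem link_expect (A : Finset V) (ψ : ℕ → ℤ) (a : ℤ) :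
    (Fintype.card V : ℤ) * ∑ X : Fin 6 → V, ∑ h ∈ univ.filter (fun h : E => h ≠ 0),
      ψ (h0c (gX A X) h) * (10000 * (h1c (gX A X) h : ℤ) - 32 * a) =
    32 * (10000 * (A.card : ℤ) - a * Fintype.card V) * ∑ X : Fin 6 → V, Bsum ψ (gX A X) := by
  unfold Bsum
  rw [Finset.sum_comm, Finset.sum_comm (s := univ) (t := univ.filter (fun h : E => h ≠ 0))
    (f := fun X h => ψ (h0c (gX A X) h)), Finset.mul_sum, Finset.mul_sum]
  refine Finset.sum_congr rfl fun h hh => ?_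
  have key := link_zero A ψ h (mem_filter.1 hh).2
  have e : (Fintype.card V : ℤ) * ∑ X : Fin 6 → V,
      ψ (h0c (gX A X) h) * (10000 * (h1c (gX A X) h : ℤ) - 32 * a) =
      10000 * ∑ X : Fin 6 → V, ψ (h0c (gX A X) h) *
        ((Fintype.card V : ℤ) * (h1c (gX A X) h : ℤ) - 32 * (A.card : ℤ)) +
      32 * (10000 * (A.card : ℤ) - a * Fintype.card V) * ∑ X : Fin 6 → V, ψ (h0c (gX A X) h) := by
    rw [Finset.mul_sum, Finset.mul_sum, Finset.mul_sum, ← Finset.sum_add_distrib]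
    exact Finset.sum_congr rfl fun X _ => by ring
  rw [e, key]
  ring

theorem ND3_expect (A : Finset V) :
    (Fintype.card V : ℤ) ^ 3 * ∑ X : Fin 6 → V, (NDk 3 (gX A X) : ℤ) =
      (Fintype.card V : ℤ) ^ 6 * (234360 * (Tk 3 A : ℤ)) := by
  rw [ND_expect, li_filter3]; norm_num

theorem ND4_expect (A : Finset V) :
    (Fintype.card V : ℤ) ^ 4 * ∑ X : Fin 6 → V, (NDk 4 (gX A X) : ℤ) =
      (Fintype.card V : ℤ) ^ 6 * (13124160 * (Tk 4 A : ℤ)) := by
  rw [ND_expect, li_filter4]; norm_num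

theorem flag_main (I : Iv) (hI : ∀ g : Finset E, SF g → PointIneq I g) (A : Finset V) (hA : SF A)
    (s : ℝ) (h0 : 0 ≤ s) (h1 : s ≤ 1)
    (hs : 10000 * (A.card : ℝ) = ((1 - s) * I.A0 + s * I.A1) * Fintype.card V) :
    64 * (I.c5 : ℝ) * (13124160 * ((Tk 4 A : ℝ) / (Fintype.card V : ℝ) ^ 4)) +
      64 * ((1 - s) * I.c40 + s * I.c41) * (234360 * ((Tk 3 A : ℝ) / (Fintype.card V : ℝ) ^ 3)) ≤
      (1 - s) * I.be0 + s * I.be1 - s * (1 - s) * I.ga := by
  set N : ℝ := (Fintype.card V : ℝ) with hN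
  have hNpos : 0 < N := by rw [hN]; exact_mod_cast Fintype.card_pos
  have hsum := Finset.sum_le_sum (s := (univ : Finset (Fin 6 → V)))
    (fun X _ => hI (gX A X) (SF_gX hA X) s h0 h1)
  rw [Finset.sum_const, card_univ, Fintype.card_fun, Fintype.card_fin, nsmul_eq_mul] at hsum
  push_cast at hsum
  rw [← hN] at hsum
  -- expand the left side
  set D4 : ℝ := ∑ X : Fin 6 → V, (NDk 4 (gX A X) : ℝ) with hD4
  set D3 : ℝ := ∑ X : Fin 6 → V, (NDk 3 (gX A X) : ℝ) with hD3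
  set P0 : ℝ := ∑ X : Fin 6 → V, (((I.v0.map (fun v => Psum (vfun v) (gX A X))).sum : ℤ) : ℝ) with hP0
  set P1 : ℝ := ∑ X : Fin 6 → V, (((I.v1.map (fun v => Psum (vfun v) (gX A X))).sum : ℤ) : ℝ) with hP1
  set B0 : ℝ := ∑ X : Fin 6 → V, (Bsum (nthZ I.ps0) (gX A X) : ℝ) with hB0
  set B1 : ℝ := ∑ X : Fin 6 → V, (Bsum (nthZ I.ps1) (gX A X) : ℝ) with hB1
  set L0 : ℝ := ∑ X : Fin 6 → V, ((∑ h ∈ univ.filter (fun h : E => h ≠ 0),
      nthZ I.ps0 (h0c (gX A X) h) * (10000 * (h1c (gX A X) h : ℤ) - 32 * I.A0) : ℤ) : ℝ) with hL0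
  set L1 : ℝ := ∑ X : Fin 6 → V, ((∑ h ∈ univ.filter (fun h : E => h ≠ 0),
      nthZ I.ps1 (h0c (gX A X) h) * (10000 * (h1c (gX A X) h : ℤ) - 32 * I.A1) : ℤ) : ℝ) with hL1
  have hexp : ∑ X : Fin 6 → V, ((1 - s) * (Tf I.c5 I.c40 I.A0 (nthZ I.ps0) I.v0 (gX A X) : ℝ) +
      s * (Tf I.c5 I.c41 I.A1 (nthZ I.ps1) I.v1 (gX A X) : ℝ) +
      32 * s * (1 - s) * ((I.A1 : ℝ) - I.A0) *
        ((Bsum (nthZ I.ps1) (gX A X) : ℝ) - (Bsum (nthZ I.ps0) (gX A X) : ℝ))) =
      64 * I.c5 * D4 + 64 * ((1 - s) * I.c40 + s * I.c41) * D3 + (1 - s) * P0 + s * P1 +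
      (1 - s) * L0 + s * L1 + 32 * s * (1 - s) * ((I.A1 : ℝ) - I.A0) * (B1 - B0) := by
    rw [hD4, hD3, hP0, hP1, hB0, hB1, hL0, hL1]
    simp only [Finset.mul_sum, ← Finset.sum_add_distrib, ← Finset.sum_sub_distrib]
    refine Finset.sum_congr rfl fun X _ => ?_
    rw [Tf_SF _ _ _ _ _ _ (SF_gX hA X), Tf_SF _ _ _ _ _ _ (SF_gX hA X)]
    push_cast
    ring
  rw [hexp] at hsum
  have hP0' : 0 ≤ P0 := by
    have : ∀ l : List ℕ, (0 : ℤ) ≤ ∑ X : Fin 6 → V, (l.map (fun v => Psum (vfun v) (gX A X))).sum := by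
      intro l
      induction l with
      | nil => simp
      | cons v l ih =>
        simp only [List.map_cons, List.sum_cons]
        rw [Finset.sum_add_distrib]
        exact add_nonneg (Psum_expect A _) ih
    rw [hP0]
    exact_mod_cast this I.v0
  have hP1' : 0 ≤ P1 := by
    have : ∀ l : List ℕ, (0 : ℤ) ≤ ∑ X : Fin 6 → V, (l.map (fun v => Psum (vfun v) (gX A X))).sum := by
      intro l
      induction l with
      | nil => simp
      | cons v l ih =>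
        simp only [List.map_cons, List.sum_cons]
        rw [Finset.sum_add_distrib]
        exact add_nonneg (Psum_expect A _) ih
    rw [hP1]
    exact_mod_cast this I.v1
  have k0 : N * L0 = 32 * (10000 * (A.card : ℝ) - I.A0 * N) * B0 := by
    have := link_expect A (nthZ I.ps0) I.A0
    rw [hL0, hB0, hN]
    exact_mod_cast this
  have k1 : N * L1 = 32 * (10000 * (A.card : ℝ) - I.A1 * N) * B1 := by
    have := link_expect A (nthZ I.ps1) I.A1
    rw [hL1, hB1, hN]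
    exact_mod_cast this
  have k0' : L0 = 32 * (s * ((I.A1 : ℝ) - I.A0)) * B0 := by
    have : N * L0 = N * (32 * (s * ((I.A1 : ℝ) - I.A0)) * B0) := by
      rw [k0, hs]; ring
    exact mul_left_cancel₀ hNpos.ne' this
  have k1' : L1 = 32 * (-(1 - s) * ((I.A1 : ℝ) - I.A0)) * B1 := by
    have : N * L1 = N * (32 * (-(1 - s) * ((I.A1 : ℝ) - I.A0)) * B1) := by
      rw [k1, hs]; ring
    exact mul_left_cancel₀ hNpos.ne' this
  have m3 : N ^ 3 * D3 = N ^ 6 * (234360 * (Tk 3 A : ℝ)) := by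
    have := ND3_expect A
    rw [hD3, hN]
    exact_mod_cast this
  have m4 : N ^ 4 * D4 = N ^ 6 * (13124160 * (Tk 4 A : ℝ)) := by
    have := ND4_expect A
    rw [hD4, hN]
    exact_mod_cast this
  have m3' : D3 = N ^ 6 * (234360 * ((Tk 3 A : ℝ) / N ^ 3)) := by
    have h3 : N ^ 3 ≠ 0 := by positivity
    rw [← mul_div_assoc, ← mul_div_assoc, eq_div_iff h3]
    linarith [m3]
  have m4' : D4 = N ^ 6 * (13124160 * ((Tk 4 A : ℝ) / N ^ 4)) := by
    have h3 : N ^ 4 ≠ 0 := by positivity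
    rw [← mul_div_assoc, ← mul_div_assoc, eq_div_iff h3]
    linarith [m4]
  have hN6 : 0 < N ^ 6 := by positivity
  rw [k0', k1', m3', m4'] at hsum
  have hfin : N ^ 6 * (64 * (I.c5 : ℝ) * (13124160 * ((Tk 4 A : ℝ) / N ^ 4)) +
      64 * ((1 - s) * I.c40 + s * I.c41) * (234360 * ((Tk 3 A : ℝ) / N ^ 3))) ≤
      N ^ 6 * ((1 - s) * I.be0 + s * I.be1 - s * (1 - s) * I.ga) := by
    have hx : 0 ≤ (1 - s) * P0 := mul_nonneg (by linarith) hP0'
    have hy : 0 ≤ s * P1 := mul_nonneg h0 hP1'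
    nlinarith [hsum, hx, hy]
  exact le_of_mul_le_mul_left hfin hN6

end Pool.Agent.Helper163
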