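import Pool.Agent.Helper163.Bridge
import Pool.Agent.Helper163.Expect
import Pool.Agent.Helper163.Iv1
import Pool.Agent.Helper163.Iv2
import Pool.Agent.Helper163.Iv3
import Pool.Agent.Helper163.Iv4
import Pool.Agent.Helper163.Iv5
import Pool.Agent.Helper163.Iv6
import Pool.Agent.Helper163.Iv7
import Pool.Agent.Helper163.Iv8
import Pool.Agent.Helper163.Iv9
import Pool.Agent.Helper163.Iv10
import Pool.Agent.Helper163.Iv11
import Pool.Agent.Helper163.Iv12

set_option autoImplicit false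

namespace Pool.Agent.Helper163

open Finset

variable {n : ℕ}

theorem bern (c0 c1 c2 c3 c4 c5 s : ℝ) (h0 : 0 < c0) (h1 : 0 < c1) (h2 : 0 < c2) (h3 : 0 < c3)
    (h4 : 0 < c4) (h5 : 0 < c5) (hs0 : 0 ≤ s) (hs1 : s ≤ 1) :
    0 < c0 * (1 - s) ^ 5 + c1 * s * (1 - s) ^ 4 + c2 * s ^ 2 * (1 - s) ^ 3 +
      c3 * s ^ 3 * (1 - s) ^ 2 + c4 * s ^ 4 * (1 - s) + c5 * s ^ 5 := by
  have ht : 0 ≤ 1 - s := by linarith
  rcases hs0.eq_or_lt with h | h
  · rw [← h]
    norm_num
    exact h0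
  · generalize 1 - s = t at ht
    positivity

theorem step (I : Iv) (hI : IvOK I ALL) (A : Finset (Fin n → ZMod 2)) (hA : SF A)
    (a l t s : ℝ) (ha : a = (A.card : ℝ) / 2 ^ n)
    (hl : ∀ h : Fin n → ZMod 2, h ≠ 0 → -l ≤ fh A h) (h0 : 0 ≤ s) (h1 : s ≤ 1)
    (hs : 10000 * a = (1 - s) * I.A0 + s * I.A1)
    (hc : (1 - s) * I.c40 + s * I.c41 = 56 * (I.c5 * (l - 2 * t))) (h5 : (0 : ℝ) ≤ I.c5) :
    64 * 13124160 * (I.c5 : ℝ) * ((a + l) * a ^ 2 * (a - t) ^ 2 - l * t ^ 2 * a) ≤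
      (1 - s) * I.be0 + s * I.be1 - s * (1 - s) * I.ga := by
  have hN : (0 : ℝ) < 2 ^ n := by positivity
  have hcard : (Fintype.card (Fin n → ZMod 2) : ℝ) = 2 ^ n := by
    simp [ZMod.card]
  have h2 := flag_main I (fun g hg => point_all I hI g hg) A hA s h0 h1 (by
    rw [hcard, ← hs, ha]; field_simp)
  rw [hcard, hc] at h2
  have h3 := spectral A hA a l t ha hl
  have h4 : (64 * 13124160 * (I.c5 : ℝ)) * ((a + l) * a ^ 2 * (a - t) ^ 2) ≤
      (64 * 13124160 * (I.c5 : ℝ)) * ((Tk 4 A : ℝ) / (2 ^ n) ^ 4 +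
        (l - 2 * t) * ((Tk 3 A : ℝ) / (2 ^ n) ^ 3) + l * t ^ 2 * a) :=
    mul_le_mul_of_nonneg_left h3 (by positivity)
  linarith

theorem no1 (A : Finset (Fin n → ZMod 2)) (hA : SF A) (a : ℝ) (ha : a = (A.card : ℝ) / 2 ^ n)
    (hl : ∀ h : Fin n → ZMod 2, h ≠ 0 → -(a - 1 / 8) ≤ fh A h) (h0 : 1524 / 10000 ≤ a)
    (h1 : a ≤ 1565 / 10000) : False := by
  obtain ⟨s, hs⟩ : ∃ s : ℝ, s = (10000 * a - 1524) / 41 := ⟨_, rfl⟩
  have hs0 : 0 ≤ s := by rw [hs]; apply div_nonneg <;> linarith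
  have hs1 : s ≤ 1 := by rw [hs, div_le_one (by norm_num)]; linarith
  have hsa : a = (1524 + 41 * s) / 10000 := by rw [hs]; field_simp; ring
  have e5 : (iv1.c5 : ℝ) = 400000 := by norm_num [iv1]
  have e40 : (iv1.c40 : ℝ) = -4314240 := by norm_num [iv1]
  have e41 : (iv1.c41 : ℝ) = -4222400 := by norm_num [iv1]
  have eA0 : (iv1.A0 : ℝ) = 1524 := by norm_num [iv1]
  have eA1 : (iv1.A1 : ℝ) = 1565 := by norm_num [iv1]
  have eb0 : (iv1.be0 : ℝ) = -14453548041 := by norm_num [iv1]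
  have eb1 : (iv1.be1 : ℝ) = -16696048824 := by norm_num [iv1]
  have ega : (iv1.ga : ℝ) = 19988296 := by norm_num [iv1]
  have key := step iv1 ci1 A hA a (a - 1 / 8) (11 / 100) s ha hl hs0 hs1
    (by rw [eA0, eA1, hsa]; ring) (by rw [e40, e41, e5, hsa]; ring) (by rw [e5]; norm_num)
  rw [e5, eb0, eb1, ega] at key
  rw [hsa] at key
  have hb := bern (9988345137 / 6103515625) (203243345918228 / 48828125) (411008058262374 / 48828125) (41560563139476 / 9765625) (3750704 / 1953125) (3328164 / 1953125) s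
    (by norm_num) (by norm_num) (by norm_num) (by norm_num) (by norm_num) (by norm_num) hs0 hs1
  linarith

theorem no2 (A : Finset (Fin n → ZMod 2)) (hA : SF A) (a : ℝ) (ha : a = (A.card : ℝ) / 2 ^ n)
    (hl : ∀ h : Fin n → ZMod 2, h ≠ 0 → -(a - 1 / 8) ≤ fh A h) (h0 : 1565 / 10000 ≤ a)
    (h1 : a ≤ 1605 / 10000) : False := by
  obtain ⟨s, hs⟩ : ∃ s : ℝ, s = (10000 * a - 1565) / 40 := ⟨_, rfl⟩
  have hs0 : 0 ≤ s := by rw [hs]; apply div_nonneg <;> linarith
  have hs1 : s ≤ 1 := by rw [hs, div_le_one (by norm_num)]; linarith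
  have hsa : a = (1565 + 40 * s) / 10000 := by rw [hs]; field_simp; ring
  have e5 : (iv2.c5 : ℝ) = 400000 := by norm_num [iv2]
  have e40 : (iv2.c40 : ℝ) = -2206400 := by norm_num [iv2]
  have e41 : (iv2.c41 : ℝ) = -2116800 := by norm_num [iv2]
  have eA0 : (iv2.A0 : ℝ) = 1565 := by norm_num [iv2]
  have eA1 : (iv2.A1 : ℝ) = 1605 := by norm_num [iv2]
  have eb0 : (iv2.be0 : ℝ) = 5954275205 := by norm_num [iv2]
  have eb1 : (iv2.be1 : ℝ) = 7383204919 := by norm_num [iv2]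
  have ega : (iv2.ga : ℝ) = 156821866 := by norm_num [iv2]
  have key := step iv2 ci2 A hA a (a - 1 / 8) (13 / 200) s ha hl hs0 hs1
    (by rw [eA0, eA1, hsa]; ring) (by rw [e40, e41, e5, hsa]; ring) (by rw [e5]; norm_num)
  rw [e5, eb0, eb1, ega] at key
  rw [hsa] at key
  have hb := bern (2469779 / 1953125) (2377644699859 / 390625) (959094088396 / 78125) (2418095013928 / 390625) (494101 / 390625) (2495233 / 1953125) s
    (by norm_num) (by norm_num) (by norm_num) (by norm_num) (by norm_num) (by norm_num) hs0 hs1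
  linarith

theorem no3 (A : Finset (Fin n → ZMod 2)) (hA : SF A) (a : ℝ) (ha : a = (A.card : ℝ) / 2 ^ n)
    (hl : ∀ h : Fin n → ZMod 2, h ≠ 0 → -(a - 1 / 8) ≤ fh A h) (h0 : 1605 / 10000 ≤ a)
    (h1 : a ≤ 1650 / 10000) : False := by
  obtain ⟨s, hs⟩ : ∃ s : ℝ, s = (10000 * a - 1605) / 45 := ⟨_, rfl⟩
  have hs0 : 0 ≤ s := by rw [hs]; apply div_nonneg <;> linarith
  have hs1 : s ≤ 1 := by rw [hs, div_le_one (by norm_num)]; linarith
  have hsa : a = (1605 + 45 * s) / 10000 := by rw [hs]; field_simp; ring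
  have e5 : (iv3.c5 : ℝ) = 400000 := by norm_num [iv3]
  have e40 : (iv3.c40 : ℝ) = -1220800 := by norm_num [iv3]
  have e41 : (iv3.c41 : ℝ) = -1120000 := by norm_num [iv3]
  have eA0 : (iv3.A0 : ℝ) = 1605 := by norm_num [iv3]
  have eA1 : (iv3.A1 : ℝ) = 1650 := by norm_num [iv3]
  have eb0 : (iv3.be0 : ℝ) = 18753344825 := by norm_num [iv3]
  have eb1 : (iv3.be1 : ℝ) = 22511634362 := by norm_num [iv3]
  have ega : (iv3.ga : ℝ) = 297519390 := by norm_num [iv3]
  have key := step iv3 ci3 A hA a (a - 1 / 8) (9 / 200) s ha hl hs0 hs1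
    (by rw [eA0, eA1, hsa]; ring) (by rw [e40, e41, e5, hsa]; ring) (by rw [e5]; norm_num)
  rw [e5, eb0, eb1, ega] at key
  rw [hsa] at key
  have hb := bern (2008823 / 1953125) (4144126572317 / 390625) (334367306992 / 15625) (168621636478 / 15625) (4129 / 3125) (742 / 625) s
    (by norm_num) (by norm_num) (by norm_num) (by norm_num) (by norm_num) (by norm_num) hs0 hs1
  linarith

theorem no4 (A : Finset (Fin n → ZMod 2)) (hA : SF A) (a : ℝ) (ha : a = (A.card : ℝ) / 2 ^ n)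
    (hl : ∀ h : Fin n → ZMod 2, h ≠ 0 → -(a - 1 / 8) ≤ fh A h) (h0 : 1650 / 10000 ≤ a)
    (h1 : a ≤ 1700 / 10000) : False := by
  obtain ⟨s, hs⟩ : ∃ s : ℝ, s = (10000 * a - 1650) / 50 := ⟨_, rfl⟩
  have hs0 : 0 ≤ s := by rw [hs]; apply div_nonneg <;> linarith
  have hs1 : s ≤ 1 := by rw [hs, div_le_one (by norm_num)]; linarith
  have hsa : a = (1650 + 50 * s) / 10000 := by rw [hs]; field_simp; ring
  have e5 : (iv4.c5 : ℝ) = 400000 := by norm_num [iv4]
  have e40 : (iv4.c40 : ℝ) = -537600 := by norm_num [iv4]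
  have e41 : (iv4.c41 : ℝ) = -425600 := by norm_num [iv4]
  have eA0 : (iv4.A0 : ℝ) = 1650 := by norm_num [iv4]
  have eA1 : (iv4.A1 : ℝ) = 1700 := by norm_num [iv4]
  have eb0 : (iv4.be0 : ℝ) = 30898638721 := by norm_num [iv4]
  have eb1 : (iv4.be1 : ℝ) = 37124378670 := by norm_num [iv4]
  have ega : (iv4.ga : ℝ) = 473042303 := by norm_num [iv4]
  have key := step iv4 ci4 A hA a (a - 1 / 8) (4 / 125) s ha hl hs0 hs1
    (by rw [eA0, eA1, hsa]; ring) (by rw [e40, e41, e5, hsa]; ring) (by rw [e5]; norm_num)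
  rw [e5, eb0, eb1, ega] at key
  rw [hsa] at key
  have hb := bern (24263 / 15625) (263590903333 / 15625) (531830945463 / 15625) (53654576233 / 3125) (30838 / 15625) (26466 / 15625) s
    (by norm_num) (by norm_num) (by norm_num) (by norm_num) (by norm_num) (by norm_num) hs0 hs1
  linarith

theorem no5 (A : Finset (Fin n → ZMod 2)) (hA : SF A) (a : ℝ) (ha : a = (A.card : ℝ) / 2 ^ n)
    (hl : ∀ h : Fin n → ZMod 2, h ≠ 0 → -(a - 1 / 8) ≤ fh A h) (h0 : 1700 / 10000 ≤ a)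
    (h1 : a ≤ 1755 / 10000) : False := by
  obtain ⟨s, hs⟩ : ∃ s : ℝ, s = (10000 * a - 1700) / 55 := ⟨_, rfl⟩
  have hs0 : 0 ≤ s := by rw [hs]; apply div_nonneg <;> linarith
  have hs1 : s ≤ 1 := by rw [hs, div_le_one (by norm_num)]; linarith
  have hsa : a = (1700 + 55 * s) / 10000 := by rw [hs]; field_simp; ring
  have e5 : (iv5.c5 : ℝ) = 400000 := by norm_num [iv5]
  have e40 : (iv5.c40 : ℝ) = -380800 := by norm_num [iv5]
  have e41 : (iv5.c41 : ℝ) = -257600 := by norm_num [iv5]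
  have eA0 : (iv5.A0 : ℝ) = 1700 := by norm_num [iv5]
  have eA1 : (iv5.A1 : ℝ) = 1755 := by norm_num [iv5]
  have eb0 : (iv5.be0 : ℝ) = 37864569367 := by norm_num [iv5]
  have eb1 : (iv5.be1 : ℝ) = 45971037582 := by norm_num [iv5]
  have ega : (iv5.ga : ℝ) = 647099201 := by norm_num [iv5]
  have key := step iv5 ci5 A hA a (a - 1 / 8) (31 / 1000) s ha hl hs0 hs1
    (by rw [eA0, eA1, hsa]; ring) (by rw [e40, e41, e5, hsa]; ring) (by rw [e5]; norm_num)
  rw [e5, eb0, eb1, ega] at key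
  rw [hsa] at key
  have hb := bern (22769 / 15625) (1897465610219 / 78125) (19151553075213 / 390625) (48327734529907 / 1953125) (3627077 / 1953125) (2248548 / 1953125) s
    (by norm_num) (by norm_num) (by norm_num) (by norm_num) (by norm_num) (by norm_num) hs0 hs1
  linarith

theorem no6 (A : Finset (Fin n → ZMod 2)) (hA : SF A) (a : ℝ) (ha : a = (A.card : ℝ) / 2 ^ n)
    (hl : ∀ h : Fin n → ZMod 2, h ≠ 0 → -(a - 1 / 8) ≤ fh A h) (h0 : 1755 / 10000 ≤ a)
    (h1 : a ≤ 1825 / 10000) : False := by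
  obtain ⟨s, hs⟩ : ∃ s : ℝ, s = (10000 * a - 1755) / 70 := ⟨_, rfl⟩
  have hs0 : 0 ≤ s := by rw [hs]; apply div_nonneg <;> linarith
  have hs1 : s ≤ 1 := by rw [hs, div_le_one (by norm_num)]; linarith
  have hsa : a = (1755 + 70 * s) / 10000 := by rw [hs]; field_simp; ring
  have e5 : (iv6.c5 : ℝ) = 400000 := by norm_num [iv6]
  have e40 : (iv6.c40 : ℝ) = -257600 := by norm_num [iv6]
  have e41 : (iv6.c41 : ℝ) = -100800 := by norm_num [iv6]
  have eA0 : (iv6.A0 : ℝ) = 1755 := by norm_num [iv6]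
  have eA1 : (iv6.A1 : ℝ) = 1825 := by norm_num [iv6]
  have eb0 : (iv6.be0 : ℝ) = 45971037582 := by norm_num [iv6]
  have eb1 : (iv6.be1 : ℝ) = 58253401928 := by norm_num [iv6]
  have ega : (iv6.ga : ℝ) = 1195883543 := by norm_num [iv6]
  have key := step iv6 ci6 A hA a (a - 1 / 8) (31 / 1000) s ha hl hs0 hs1
    (by rw [eA0, eA1, hsa]; ring) (by rw [e40, e41, e5, hsa]; ring) (by rw [e5]; norm_num)
  rw [e5, eb0, eb1, ega] at key
  rw [hsa] at key
  have hb := bern (2248548 / 1953125) (106295296326027 / 1953125) (215007484956257 / 1953125) (21746849788293 / 390625) (140799 / 78125) (25864 / 15625) s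
    (by norm_num) (by norm_num) (by norm_num) (by norm_num) (by norm_num) (by norm_num) hs0 hs1
  linarith

theorem no7 (A : Finset (Fin n → ZMod 2)) (hA : SF A) (a : ℝ) (ha : a = (A.card : ℝ) / 2 ^ n)
    (hl : ∀ h : Fin n → ZMod 2, h ≠ 0 → -(a - 1 / 8) ≤ fh A h) (h0 : 1825 / 10000 ≤ a)
    (h1 : a ≤ 1920 / 10000) : False := by
  obtain ⟨s, hs⟩ : ∃ s : ℝ, s = (10000 * a - 1825) / 95 := ⟨_, rfl⟩
  have hs0 : 0 ≤ s := by rw [hs]; apply div_nonneg <;> linarith
  have hs1 : s ≤ 1 := by rw [hs, div_le_one (by norm_num)]; linarith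
  have hsa : a = (1825 + 95 * s) / 10000 := by rw [hs]; field_simp; ring
  have e5 : (iv7.c5 : ℝ) = 400000 := by norm_num [iv7]
  have e40 : (iv7.c40 : ℝ) = -190400 := by norm_num [iv7]
  have e41 : (iv7.c41 : ℝ) = 22400 := by norm_num [iv7]
  have eA0 : (iv7.A0 : ℝ) = 1825 := by norm_num [iv7]
  have eA1 : (iv7.A1 : ℝ) = 1920 := by norm_num [iv7]
  have eb0 : (iv7.be0 : ℝ) = 56185357859 := by norm_num [iv7]
  have eb1 : (iv7.be1 : ℝ) = 76390902831 := by norm_num [iv7]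
  have ega : (iv7.ga : ℝ) = 2559639417 := by norm_num [iv7]
  have key := step iv7 ci7 A hA a (a - 1 / 8) (33 / 1000) s ha hl hs0 hs1
    (by rw [eA0, eA1, hsa]; ring) (by rw [e40, e41, e5, hsa]; ring) (by rw [e5]; norm_num)
  rw [e5, eb0, eb1, ega] at key
  rw [hsa] at key
  have hb := bern (30421 / 15625) (11686137904349 / 78125) (118578143767737 / 390625) (300838827084917 / 1953125) (1986818 / 1953125) (2182773 / 1953125) s
    (by norm_num) (by norm_num) (by norm_num) (by norm_num) (by norm_num) (by norm_num) hs0 hs1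
  linarith

theorem no8 (A : Finset (Fin n → ZMod 2)) (hA : SF A) (a : ℝ) (ha : a = (A.card : ℝ) / 2 ^ n)
    (hl : ∀ h : Fin n → ZMod 2, h ≠ 0 → -(a - 1 / 8) ≤ fh A h) (h0 : 1920 / 10000 ≤ a)
    (h1 : a ≤ 2060 / 10000) : False := by
  obtain ⟨s, hs⟩ : ∃ s : ℝ, s = (10000 * a - 1920) / 140 := ⟨_, rfl⟩
  have hs0 : 0 ≤ s := by rw [hs]; apply div_nonneg <;> linarith
  have hs1 : s ≤ 1 := by rw [hs, div_le_one (by norm_num)]; linarith
  have hsa : a = (1920 + 140 * s) / 10000 := by rw [hs]; field_simp; ring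
  have e5 : (iv8.c5 : ℝ) = 400000 := by norm_num [iv8]
  have e40 : (iv8.c40 : ℝ) = -291200 := by norm_num [iv8]
  have e41 : (iv8.c41 : ℝ) = 22400 := by norm_num [iv8]
  have eA0 : (iv8.A0 : ℝ) = 1920 := by norm_num [iv8]
  have eA1 : (iv8.A1 : ℝ) = 2060 := by norm_num [iv8]
  have eb0 : (iv8.be0 : ℝ) = 67198863009 := by norm_num [iv8]
  have eb1 : (iv8.be1 : ℝ) = 103787305813 := by norm_num [iv8]
  have ega : (iv8.ga : ℝ) = 6597799140 := by norm_num [iv8]
  have key := step iv8 ci8 A hA a (a - 1 / 8) (1 / 25) s ha hl hs0 hs1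
    (by rw [eA0, eA1, hsa]; ring) (by rw [e40, e41, e5, hsa]; ring) (by rw [e5]; norm_num)
  rw [e5, eb0, eb1, ega] at key
  rw [hsa] at key
  have hb := bern (2045307 / 1953125) (208353607231403 / 390625) (85046571505834 / 78125) (217020420122346 / 390625) (432143 / 390625) (3905911 / 1953125) s
    (by norm_num) (by norm_num) (by norm_num) (by norm_num) (by norm_num) (by norm_num) hs0 hs1
  linarith

theorem no9 (A : Finset (Fin n → ZMod 2)) (hA : SF A) (a : ℝ) (ha : a = (A.card : ℝ) / 2 ^ n)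
    (hl : ∀ h : Fin n → ZMod 2, h ≠ 0 → -(a - 1 / 8) ≤ fh A h) (h0 : 2060 / 10000 ≤ a)
    (h1 : a ≤ 2350 / 10000) : False := by
  obtain ⟨s, hs⟩ : ∃ s : ℝ, s = (10000 * a - 2060) / 290 := ⟨_, rfl⟩
  have hs0 : 0 ≤ s := by rw [hs]; apply div_nonneg <;> linarith
  have hs1 : s ≤ 1 := by rw [hs, div_le_one (by norm_num)]; linarith
  have hsa : a = (2060 + 290 * s) / 10000 := by rw [hs]; field_simp; ring
  have e5 : (iv9.c5 : ℝ) = 400000 := by norm_num [iv9]
  have e40 : (iv9.c40 : ℝ) = -1097600 := by norm_num [iv9]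
  have e41 : (iv9.c41 : ℝ) = -448000 := by norm_num [iv9]
  have eA0 : (iv9.A0 : ℝ) = 2060 := by norm_num [iv9]
  have eA1 : (iv9.A1 : ℝ) = 2350 := by norm_num [iv9]
  have eb0 : (iv9.be0 : ℝ) = 57665660186 := by norm_num [iv9]
  have eb1 : (iv9.be1 : ℝ) = 148302457834 := by norm_num [iv9]
  have ega : (iv9.ga : ℝ) = 35037241374 := by norm_num [iv9]
  have key := step iv9 ci9 A hA a (a - 1 / 8) (13 / 200) s ha hl hs0 hs1
    (by rw [eA0, eA1, hsa]; ring) (by rw [e40, e41, e5, hsa]; ring) (by rw [e5]; norm_num)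
  rw [e5, eb0, eb1, ega] at key
  rw [hsa] at key
  have hb := bern (3215486 / 1953125) (2107363730776524 / 390625) (876195295831246 / 78125) (3646394529766 / 625) (4236 / 3125) (758 / 625) s
    (by norm_num) (by norm_num) (by norm_num) (by norm_num) (by norm_num) (by norm_num) hs0 hs1
  linarith

theorem no10 (A : Finset (Fin n → ZMod 2)) (hA : SF A) (a : ℝ) (ha : a = (A.card : ℝ) / 2 ^ n)
    (hl : ∀ h : Fin n → ZMod 2, h ≠ 0 → -(a - 1 / 8) ≤ fh A h) (h0 : 2350 / 10000 ≤ a)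
    (h1 : a ≤ 2700 / 10000) : False := by
  obtain ⟨s, hs⟩ : ∃ s : ℝ, s = (10000 * a - 2350) / 350 := ⟨_, rfl⟩
  have hs0 : 0 ≤ s := by rw [hs]; apply div_nonneg <;> linarith
  have hs1 : s ≤ 1 := by rw [hs, div_le_one (by norm_num)]; linarith
  have hsa : a = (2350 + 350 * s) / 10000 := by rw [hs]; field_simp; ring
  have e5 : (iv10.c5 : ℝ) = 400000 := by norm_num [iv10]
  have e40 : (iv10.c40 : ℝ) = -2016000 := by norm_num [iv10]
  have e41 : (iv10.c41 : ℝ) = -1232000 := by norm_num [iv10]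
  have eA0 : (iv10.A0 : ℝ) = 2350 := by norm_num [iv10]
  have eA1 : (iv10.A1 : ℝ) = 2700 := by norm_num [iv10]
  have eb0 : (iv10.be0 : ℝ) = 29812746311 := by norm_num [iv10]
  have eb1 : (iv10.be1 : ℝ) = 162219203705 := by norm_num [iv10]
  have ega : (iv10.ga : ℝ) = 65458166454 := by norm_num [iv10]
  have key := step iv10 ci10 A hA a (a - 1 / 8) (1 / 10) s ha hl hs0 hs1
    (by rw [eA0, eA1, hsa]; ring) (by rw [e40, e41, e5, hsa]; ring) (by rw [e5]; norm_num)
  rw [e5, eb0, eb1, ega] at key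
  rw [hsa] at key
  have hb := bern (697 / 625) (1424482152397 / 125) (118912118372 / 5) (1552732362224 / 125) (223 / 125) (919 / 625) s
    (by norm_num) (by norm_num) (by norm_num) (by norm_num) (by norm_num) (by norm_num) hs0 hs1
  linarith

theorem no11 (A : Finset (Fin n → ZMod 2)) (hA : SF A) (a : ℝ) (ha : a = (A.card : ℝ) / 2 ^ n)
    (hl : ∀ h : Fin n → ZMod 2, h ≠ 0 → -(a - 1 / 8) ≤ fh A h) (h0 : 2700 / 10000 ≤ a)
    (h1 : a ≤ 2969 / 10000) : False := by
  obtain ⟨s, hs⟩ : ∃ s : ℝ, s = (10000 * a - 2700) / 269 := ⟨_, rfl⟩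
  have hs0 : 0 ≤ s := by rw [hs]; apply div_nonneg <;> linarith
  have hs1 : s ≤ 1 := by rw [hs, div_le_one (by norm_num)]; linarith
  have hsa : a = (2700 + 269 * s) / 10000 := by rw [hs]; field_simp; ring
  have e5 : (iv11.c5 : ℝ) = 400000 := by norm_num [iv11]
  have e40 : (iv11.c40 : ℝ) = -560000 := by norm_num [iv11]
  have e41 : (iv11.c41 : ℝ) = 42560 := by norm_num [iv11]
  have eA0 : (iv11.A0 : ℝ) = 2700 := by norm_num [iv11]
  have eA1 : (iv11.A1 : ℝ) = 2969 := by norm_num [iv11]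
  have eb0 : (iv11.be0 : ℝ) = 252846425392 := by norm_num [iv11]
  have eb1 : (iv11.be1 : ℝ) = 499531192173 := by norm_num [iv11]
  have ega : (iv11.ga : ℝ) = 65497796893 := by norm_num [iv11]
  have key := step iv11 ci11 A hA a (a - 1 / 8) (17 / 200) s ha hl hs0 hs1
    (by rw [eA0, eA1, hsa]; ring) (by rw [e40, e41, e5, hsa]; ring) (by rw [e5]; norm_num)
  rw [e5, eb0, eb1, ega] at key
  rw [hsa] at key
  have hb := bern (656 / 625) (114047425700496 / 15625) (5863353823372911 / 390625) (15079326480296953 / 1953125) (471066456 / 244140625) (8738507187 / 6103515625) s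
    (by norm_num) (by norm_num) (by norm_num) (by norm_num) (by norm_num) (by norm_num) hs0 hs1
  linarith

theorem no12 (A : Finset (Fin n → ZMod 2)) (hA : SF A) (a : ℝ) (ha : a = (A.card : ℝ) / 2 ^ n)
    (hl : ∀ h : Fin n → ZMod 2, h ≠ 0 → -(15 / 32 - a) ≤ fh A h) (h0 : 2969 / 10000 ≤ a)
    (h1 : a ≤ 3192 / 10000) : False := by
  obtain ⟨s, hs⟩ : ∃ s : ℝ, s = (10000 * a - 2969) / 223 := ⟨_, rfl⟩
  have hs0 : 0 ≤ s := by rw [hs]; apply div_nonneg <;> linarith
  have hs1 : s ≤ 1 := by rw [hs, div_le_one (by norm_num)]; linarith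
  have hsa : a = (2969 + 223 * s) / 10000 := by rw [hs]; field_simp; ring
  have e5 : (iv12.c5 : ℝ) = 400000 := by norm_num [iv12]
  have e40 : (iv12.c40 : ℝ) = 1161440 := by norm_num [iv12]
  have e41 : (iv12.c41 : ℝ) = 661920 := by norm_num [iv12]
  have eA0 : (iv12.A0 : ℝ) = 2969 := by norm_num [iv12]
  have eA1 : (iv12.A1 : ℝ) = 3192 := by norm_num [iv12]
  have eb0 : (iv12.be0 : ℝ) = 717405491731 := by norm_num [iv12]
  have eb1 : (iv12.be1 : ℝ) = 1020335670042 := by norm_num [iv12]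
  have ega : (iv12.ga : ℝ) = 37780719871 := by norm_num [iv12]
  have key := step iv12 ci12 A hA a (15 / 32 - a) (3 / 50) s ha hl hs0 hs1
    (by rw [eA0, eA1, hsa]; ring) (by rw [e40, e41, e5, hsa]; ring) (by rw [e5]; norm_num)
  rw [e5, eb0, eb1, ega] at key
  rw [hsa] at key
  have hb := bern (9405619 / 7812500) (15175404381481587 / 7812500) (7663770224608851 / 1953125) (3869919130965817 / 1953125) (2631444 / 1953125) (3255486 / 1953125) s
    (by norm_num) (by norm_num) (by norm_num) (by norm_num) (by norm_num) (by norm_num) hs0 hs1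
  linarith

/-- there is no nonempty three-wise intersecting up-set all of whose lower sections have density
larger than one eighth -/
theorem main_family (G : Finset (Finset (Fin n))) (hU : Up G) (hC : Cross3 G G G)
    (hn : G.Nonempty) (hd : ∀ i : Fin n, 1 / 8 < dd (dn i G)) : False := by
  obtain ⟨hSF, hl1, hl2⟩ := family_facts G hU hC hn hd
  have ha : dd G = ((IV G).card : ℝ) / 2 ^ n := by rw [card_IV]; rfl
  have hpos : 0 < dd G := dd_pos hn
  have H1 := hoffman (IV G) hSF (dd G) (dd G - 1 / 8) ha hl1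
  have H2 := hoffman (IV G) hSF (dd G) (15 / 32 - dd G) ha hl2
  generalize dd G = a at *
  have H1' : (2 * a - 1 / 8) * a ≤ a - 1 / 8 := by
    have : a * ((2 * a - 1 / 8) * a) ≤ a * (a - 1 / 8) := by linarith
    exact le_of_mul_le_mul_left this hpos
  have H2' : (15 / 32) * a ≤ 15 / 32 - a := by
    have : a * ((15 / 32) * a) ≤ a * (15 / 32 - a) := by linarith
    exact le_of_mul_le_mul_left this hpos
  have lo : 1524 / 10000 ≤ a := by
    by_contra h
    push Not at h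
    nlinarith
  have hi : a ≤ 3192 / 10000 := by linarith
  rcases le_total a (1565 / 10000) with h1 | h1
  · exact no1 (IV G) hSF a ha hl1 lo h1
  rcases le_total a (1605 / 10000) with h2 | h2
  · exact no2 (IV G) hSF a ha hl1 h1 h2
  rcases le_total a (1650 / 10000) with h3 | h3
  · exact no3 (IV G) hSF a ha hl1 h2 h3
  rcases le_total a (1700 / 10000) with h4 | h4
  · exact no4 (IV G) hSF a ha hl1 h3 h4
  rcases le_total a (1755 / 10000) with h5 | h5
  · exact no5 (IV G) hSF a ha hl1 h4 h5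
  rcases le_total a (1825 / 10000) with h6 | h6
  · exact no6 (IV G) hSF a ha hl1 h5 h6
  rcases le_total a (1920 / 10000) with h7 | h7
  · exact no7 (IV G) hSF a ha hl1 h6 h7
  rcases le_total a (2060 / 10000) with h8 | h8
  · exact no8 (IV G) hSF a ha hl1 h7 h8
  rcases le_total a (2350 / 10000) with h9 | h9
  · exact no9 (IV G) hSF a ha hl1 h8 h9
  rcases le_total a (2700 / 10000) with h10 | h10
  · exact no10 (IV G) hSF a ha hl1 h9 h10
  rcases le_total a (2969 / 10000) with h11 | h11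
  · exact no11 (IV G) hSF a ha hl1 h10 h11
  exact no12 (IV G) hSF a ha hl2 h11 hi

end Pool.Agent.Helper163
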