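import Mathlib

set_option autoImplicit false

/-! Linear flags over the field with two elements: a subset `A` of an elementary abelian 2-group `V`
is sampled by a uniform linear map from `E = F_2^6` to `V`. -/

namespace Pool.Agent.Helper163

open Finset

abbrev E := Fin 6 → ZMod 2

/-- the pairing on `E` -/
def dot {n : ℕ} (h u : Fin n → ZMod 2) : ZMod 2 := ∑ i, h i * u i

theorem dot_add_right {n : ℕ} (h u v : Fin n → ZMod 2) : dot h (u + v) = dot h u + dot h v := by
  unfold dot; rw [← Finset.sum_add_distrib]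
  exact Finset.sum_congr rfl fun i _ => by simp [mul_add]

theorem dot_add_left {n : ℕ} (h k u : Fin n → ZMod 2) : dot (h + k) u = dot h u + dot k u := by
  unfold dot; rw [← Finset.sum_add_distrib]
  exact Finset.sum_congr rfl fun i _ => by simp [add_mul]

theorem z2 (a : ZMod 2) : a = 0 ∨ a = 1 := by
  revert a; decide

theorem z2_ne_zero {a : ZMod 2} (h : a ≠ 0) : a = 1 := (z2 a).resolve_left h

theorem add_self_E (u : E) : u + u = 0 := by
  funext i; exact CharTwo.add_self_eq_zero _

/-- the number of points of `g` on the codimension 2 space defined by `h`, `h'` -/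
def kU (g : Finset E) (h h' : E) : ℕ := (g.filter (fun u => dot h u = 0 ∧ dot h' u = 0)).card

def S1 (g : Finset E) (h h' : E) : Finset E := g.filter (fun u => dot h u = 1 ∧ dot h' u = 0)

def S2 (g : Finset E) (h h' : E) : Finset E := g.filter (fun u => dot h u = 1 ∧ dot h' u = 1)

/-- an affine invariant of a set of vectors -/
def st (S : Finset E) : ℕ :=
  ∑ h : E, ((S.filter (fun u => dot h u = 0)).card * (S.filter (fun u => dot h u = 1)).card) ^ 2

/-- translate of a set -/
def trn (S : Finset E) (d : E) : Finset E := S.image (fun u => u + d)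

theorem trn_inj (d : E) : Function.Injective (fun u : E => u + d) := add_left_injective d

theorem card_trn (S : Finset E) (d : E) : (trn S d).card = S.card :=
  Finset.card_image_of_injective _ (trn_inj d)

theorem card_filter_trn (S : Finset E) (d h : E) (c : ZMod 2) :
    ((trn S d).filter (fun u => dot h u = c)).card = (S.filter (fun u => dot h u + dot h d = c)).card := by
  unfold trn
  rw [Finset.filter_image, Finset.card_image_of_injective _ (trn_inj d)]
  congr 1
  ext u
  simp only [mem_filter, dot_add_right]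

theorem st_trn (S : Finset E) (d : E) : st (trn S d) = st S := by
  unfold st
  refine Finset.sum_congr rfl fun h _ => ?_
  rw [card_filter_trn, card_filter_trn]
  rcases z2 (dot h d) with hd | hd
  · simp [hd]
  · rw [hd]
    have e1 : ∀ a : ZMod 2, (a + 1 = 0) = (a = 1) := by decide
    have e2 : ∀ a : ZMod 2, (a + 1 = 1) = (a = 0) := by decide
    simp only [e1, e2]
    rw [mul_comm]

variable {V : Type*} [AddCommGroup V] [Module (ZMod 2) V]

/-- the linear map with given images of the basis vectors -/
def L (X : Fin 6 → V) (u : E) : V := ∑ i, u i • X i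

theorem L_add (X : Fin 6 → V) (u v : E) : L X (u + v) = L X u + L X v := by
  unfold L; rw [← Finset.sum_add_distrib]
  exact Finset.sum_congr rfl fun i _ => by simp [add_smul]

/-- adding a rank one map -/
def sh (h : E) (y : V) (X : Fin 6 → V) : Fin 6 → V := fun i => X i + h i • y

theorem L_sh (h : E) (y : V) (X : Fin 6 → V) (u : E) : L (sh h y X) u = L X u + dot h u • y := by
  unfold L sh dot
  rw [Finset.sum_smul, ← Finset.sum_add_distrib]
  refine Finset.sum_congr rfl fun i _ => ?_
  rw [smul_add, smul_smul, mul_comm]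

theorem add_self_V (x : V) : x + x = 0 := by
  have : (2 : ZMod 2) • x = 0 := by
    rw [show (2 : ZMod 2) = 0 from rfl, zero_smul]
  rwa [two_smul] at this

variable [Fintype V] [DecidableEq V]

/-- the sampled set -/
def gX (A : Finset V) (X : Fin 6 → V) : Finset E := univ.filter (fun u => L X u ∈ A)

theorem mem_gX (A : Finset V) (X : Fin 6 → V) (u : E) : u ∈ gX A X ↔ L X u ∈ A := by
  simp [gX]

/-- invariance of the uniform measure -/
theorem sum_sh {R : Type*} [AddCommMonoid R] (F : (Fin 6 → V) → R) (h : E) (y : V) :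
    ∑ X : Fin 6 → V, F (sh h y X) = ∑ X : Fin 6 → V, F X :=
  Fintype.sum_equiv (Equiv.addRight (fun i => h i • y)) _ _ (fun X => rfl)

theorem sum_avg (F : (Fin 6 → V) → ℤ) (h : E) :
    (Fintype.card V : ℤ) * ∑ X : Fin 6 → V, F X = ∑ X : Fin 6 → V, ∑ y : V, F (sh h y X) := by
  rw [Finset.sum_comm]
  simp only [sum_sh]
  simp

/-- the product term of a pair of functionals -/
def vv (v : ℕ → ℕ → ℕ → ℤ) (g : Finset E) (h h' : E) : ℤ :=
  v (kU g h h') (S1 g h h').card (st (S1 g h h')) * v (kU g h h') (S2 g h h').card (st (S2 g h h'))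

theorem exists_sep (h h' : E) (h0 : h' ≠ 0) (hne : h' ≠ h) : ∃ d, dot h d = 0 ∧ dot h' d = 1 := by
  have dsingle : ∀ (k : E) (i : Fin 6), dot k (Pi.single i 1) = k i := by
    intro k i
    unfold dot
    rw [Finset.sum_eq_single i]
    · simp
    · intro j _ hj; simp [Pi.single_eq_of_ne hj]
    · simp
  obtain ⟨i, hi⟩ := Function.ne_iff.1 h0
  have hi1 : h' i = 1 := z2_ne_zero hi
  rcases z2 (h i) with hh | hh
  · exact ⟨Pi.single i 1, by rw [dsingle, hh], by rw [dsingle, hi1]⟩
  · obtain ⟨j, hj⟩ := Function.ne_iff.1 hne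
    rcases z2 (h' j) with hj' | hj'
    · have : h j = 1 := by
        rcases z2 (h j) with q | q
        · exact absurd (hj'.trans q.symm) hj
        · exact q
      refine ⟨Pi.single i 1 + Pi.single j 1, ?_, ?_⟩
      · rw [dot_add_right, dsingle, dsingle, hh, this]; decide
      · rw [dot_add_right, dsingle, dsingle, hi1, hj']; decide
    · have : h j = 0 := by
        rcases z2 (h j) with q | q
        · exact q
        · exact absurd (hj'.trans q.symm) hj
      exact ⟨Pi.single j 1, by rw [dsingle, this], by rw [dsingle, hj']⟩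

/-- the set of vectors of a coset whose images translated by `y` fall in `A` -/
def cs (A : Finset V) (X : Fin 6 → V) (h h' : E) (c : ZMod 2) (y : V) : Finset E :=
  univ.filter (fun u => (dot h u = 1 ∧ dot h' u = c) ∧ L X u + y ∈ A)

theorem cs_trn (A : Finset V) (X : Fin 6 → V) (h h' d : E) (h1 : dot h d = 0) (h2 : dot h' d = 1)
    (y : V) : cs A X h h' 1 y = trn (cs A X h h' 0 (y + L X d)) d := by
  ext u
  simp only [cs, trn, mem_filter, mem_univ, true_and, mem_image]
  constructor
  · rintro ⟨⟨a, b⟩, c⟩
    refine ⟨u + d, ⟨⟨?_, ?_⟩, ?_⟩, ?_⟩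
    · rw [dot_add_right, a, h1]; decide
    · rw [dot_add_right, b, h2]; decide
    · rw [L_add]
      have : L X u + L X d + (y + L X d) = L X u + y + (L X d + L X d) := by abel
      rw [this, add_self_V, add_zero]; exact c
    · rw [add_assoc, add_self_E, add_zero]
  · rintro ⟨w, ⟨⟨a, b⟩, c⟩, rfl⟩
    refine ⟨⟨?_, ?_⟩, ?_⟩
    · rw [dot_add_right, a, h1]; decide
    · rw [dot_add_right, b, h2]; decide
    · rw [L_add]
      have : L X w + L X d + y = L X w + (y + L X d) := by abel
      rw [this]; exact c

theorem square_nonneg (A : Finset V) (v : ℕ → ℕ → ℕ → ℤ) (h h' : E)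
    (h0 : h' ≠ 0) (hne : h' ≠ h) :
    0 ≤ ∑ X : Fin 6 → V, vv v (gX A X) h h' := by
  obtain ⟨d, hd1, hd2⟩ := exists_sep h h' h0 hne
  have key : (Fintype.card V : ℤ) * ((Fintype.card V : ℤ) * ∑ X : Fin 6 → V, vv v (gX A X) h h') =
      ∑ X : Fin 6 → V, (∑ y : V, v (kU (gX A X) h h') (cs A X h h' 0 y).card
        (st (cs A X h h' 0 y))) ^ 2 := by
    rw [sum_avg _ (h + h'), Finset.mul_sum]
    have step : ∀ X : Fin 6 → V, ∀ y1 y2 : V, vv v (gX A (sh (h + h') y1 (sh h' y2 X))) h h' =
        v (kU (gX A X) h h') (cs A X h h' 0 y1).card (st (cs A X h h' 0 y1)) *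
        v (kU (gX A X) h h') (cs A X h h' 1 y2).card (st (cs A X h h' 1 y2)) := by
      intro X y1 y2
      have a1 : kU (gX A (sh (h + h') y1 (sh h' y2 X))) h h' = kU (gX A X) h h' := by
        unfold kU
        congr 1
        ext u
        simp only [mem_filter, mem_gX, L_sh, dot_add_left]
        constructor
        · rintro ⟨p, q, r⟩
          rw [q, r] at p
          exact ⟨by simpa using p, q, r⟩
        · rintro ⟨p, q, r⟩
          rw [q, r]
          exact ⟨by simpa using p, rfl, rfl⟩
      have a2 : S1 (gX A (sh (h + h') y1 (sh h' y2 X))) h h' = cs A X h h' 0 y1 := by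
        unfold S1 cs
        ext u
        simp only [mem_filter, mem_gX, L_sh, dot_add_left, mem_univ, true_and]
        constructor
        · rintro ⟨p, q, r⟩
          rw [q, r] at p
          exact ⟨⟨q, r⟩, by simpa using p⟩
        · rintro ⟨⟨q, r⟩, p⟩
          rw [q, r]
          exact ⟨by simpa using p, rfl, rfl⟩
      have a3 : S2 (gX A (sh (h + h') y1 (sh h' y2 X))) h h' = cs A X h h' 1 y2 := by
        unfold S2 cs
        ext u
        simp only [mem_filter, mem_gX, L_sh, dot_add_left, mem_univ, true_and]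
        have e : (1 : ZMod 2) + 1 = 0 := by decide
        constructor
        · rintro ⟨p, q, r⟩
          rw [q, r, e] at p
          exact ⟨⟨q, r⟩, by simpa using p⟩
        · rintro ⟨⟨q, r⟩, p⟩
          rw [q, r, e]
          exact ⟨by simpa using p, rfl, rfl⟩
      unfold vv
      rw [a1, a2, a3]
    have step2 : ∀ X : Fin 6 → V, ∑ y2 : V, v (kU (gX A X) h h') (cs A X h h' 1 y2).card
        (st (cs A X h h' 1 y2)) = ∑ y1 : V, v (kU (gX A X) h h') (cs A X h h' 0 y1).card
        (st (cs A X h h' 0 y1)) := by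
      intro X
      refine Fintype.sum_equiv (Equiv.addRight (L X d)) _ _ (fun y => ?_)
      rw [cs_trn A X h h' d hd1 hd2, card_trn, st_trn]
      rfl
    calc ∑ X : Fin 6 → V, (Fintype.card V : ℤ) * ∑ y1 : V, vv v (gX A (sh (h + h') y1 X)) h h'
        = (Fintype.card V : ℤ) * ∑ X : Fin 6 → V, ∑ y1 : V, vv v (gX A (sh (h + h') y1 X)) h h' := by
          rw [Finset.mul_sum]
      _ = ∑ X : Fin 6 → V, ∑ y2 : V, ∑ y1 : V, vv v (gX A (sh (h + h') y1 (sh h' y2 X))) h h' :=
          sum_avg (fun X => ∑ y1 : V, vv v (gX A (sh (h + h') y1 X)) h h') h'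
      _ = _ := by
          refine Finset.sum_congr rfl fun X _ => ?_
          simp only [step]
          rw [pow_two]
          nth_rewrite 2 [← step2 X]
          rw [Finset.sum_mul_sum, Finset.sum_comm]
  have hpos : (0 : ℤ) < Fintype.card V := by
    exact_mod_cast Fintype.card_pos
  have h1 : 0 ≤ (Fintype.card V : ℤ) *
      ((Fintype.card V : ℤ) * ∑ X : Fin 6 → V, vv v (gX A X) h h') := by
    rw [key]
    exact Finset.sum_nonneg fun X _ => sq_nonneg _
  exact nonneg_of_mul_nonneg_right (nonneg_of_mul_nonneg_right h1 hpos) hpos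

/-- points of `g` on a hyperplane and off it -/
def h0c (g : Finset E) (h : E) : ℕ := (g.filter (fun u => dot h u = 0)).card
def h1c (g : Finset E) (h : E) : ℕ := (g.filter (fun u => dot h u = 1)).card

theorem card_dot_one (h : E) (hh : h ≠ 0) : (univ.filter (fun u : E => dot h u = 1)).card = 32 := by
  obtain ⟨d, _, hd⟩ := exists_sep 0 h hh (by simpa using hh)
  have h1 : (univ.filter (fun u : E => dot h u = 1)).card =
      (univ.filter (fun u : E => dot h u = 0)).card := by
    refine Finset.card_bij' (fun u _ => u + d) (fun u _ => u + d) ?_ ?_ ?_ ?_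
    · intro u hu
      simp only [mem_filter, mem_univ, true_and] at hu ⊢
      rw [dot_add_right, hu, hd]; decide
    · intro u hu
      simp only [mem_filter, mem_univ, true_and] at hu ⊢
      rw [dot_add_right, hu, hd]; decide
    · intro u _; rw [add_assoc, add_self_E, add_zero]
    · intro u _; rw [add_assoc, add_self_E, add_zero]
  have h2 : (univ.filter (fun u : E => dot h u = 1)).card +
      (univ.filter (fun u : E => dot h u = 0)).card = 64 := by
    have h3 := Finset.card_filter_add_card_filter_not (s := (univ : Finset E))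
      (fun u => dot h u = 1)
    have h4 : (univ.filter (fun u : E => ¬ dot h u = 1)) = univ.filter (fun u : E => dot h u = 0) := by
      ext u
      simp only [mem_filter, mem_univ, true_and]
      rcases z2 (dot h u) with q | q <;> simp [q]
    rw [h4] at h3
    rw [h3]
    simp
  omega

theorem link_zero (A : Finset V) (ψ : ℕ → ℤ) (h : E) (hh : h ≠ 0) :
    ∑ X : Fin 6 → V, ψ (h0c (gX A X) h) *
      ((Fintype.card V : ℤ) * (h1c (gX A X) h : ℤ) - 32 * (A.card : ℤ)) = 0 := by
  have k0 : ∀ X : Fin 6 → V, ∀ y : V, h0c (gX A (sh h y X)) h = h0c (gX A X) h := by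
    intro X y
    unfold h0c
    congr 1
    ext u
    simp only [mem_filter, mem_gX, L_sh]
    constructor
    · rintro ⟨p, q⟩
      rw [q] at p
      exact ⟨by simpa using p, q⟩
    · rintro ⟨p, q⟩
      rw [q]
      exact ⟨by simpa using p, rfl⟩
  have k1 : ∀ X : Fin 6 → V, ∑ y : V, (h1c (gX A (sh h y X)) h : ℤ) = 32 * (A.card : ℤ) := by
    intro X
    have a1 : ∀ y : V, (h1c (gX A (sh h y X)) h : ℤ) =
        ∑ u ∈ univ.filter (fun u : E => dot h u = 1), if L X u + y ∈ A then (1 : ℤ) else 0 := by
      intro y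
      unfold h1c
      rw [Finset.sum_boole]
      congr 2
      ext u
      simp only [mem_filter, mem_gX, L_sh, mem_univ, true_and]
      constructor
      · rintro ⟨p, q⟩
        rw [q] at p
        exact ⟨q, by simpa using p⟩
      · rintro ⟨q, p⟩
        rw [q]
        exact ⟨by simpa using p, rfl⟩
    simp only [a1]
    rw [Finset.sum_comm]
    have a2 : ∀ u : E, ∑ y : V, (if L X u + y ∈ A then (1 : ℤ) else 0) = A.card := by
      intro u
      rw [Fintype.sum_equiv (Equiv.addLeft (L X u)) (fun y => if L X u + y ∈ A then (1 : ℤ) else 0)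
        (fun y => if y ∈ A then (1 : ℤ) else 0) (fun y => rfl)]
      simp
    simp only [a2]
    rw [Finset.sum_const, card_dot_one h hh]
    simp
  have k2 : ∑ X : Fin 6 → V, ψ (h0c (gX A X) h) * ((Fintype.card V : ℤ) * (h1c (gX A X) h : ℤ)) =
      ∑ X : Fin 6 → V, ψ (h0c (gX A X) h) * (32 * (A.card : ℤ)) := by
    calc ∑ X : Fin 6 → V, ψ (h0c (gX A X) h) * ((Fintype.card V : ℤ) * (h1c (gX A X) h : ℤ))
        = (Fintype.card V : ℤ) * ∑ X : Fin 6 → V, ψ (h0c (gX A X) h) * (h1c (gX A X) h : ℤ) := by
          rw [Finset.mul_sum]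
          exact Finset.sum_congr rfl fun X _ => by ring
      _ = ∑ X : Fin 6 → V, ∑ y : V, ψ (h0c (gX A (sh h y X)) h) * (h1c (gX A (sh h y X)) h : ℤ) :=
          sum_avg _ h
      _ = _ := by
          refine Finset.sum_congr rfl fun X _ => ?_
          simp only [k0]
          rw [← Finset.mul_sum, k1]
  simp only [mul_sub]
  rw [Finset.sum_sub_distrib, k2, sub_self]

end Pool.Agent.Helper163
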