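import Pool.Agent.Helper163.Kern

set_option autoImplicit false

namespace Pool.Agent.Helper163

noncomputable section

/-- packed sizes of the 32 classes -/
def KMT : Nat := 0x83dcd6316b529494a508420e7398c62948418820

/-- packed invariants of the 32 classes -/
def KQT : Nat := 0xf000b7c08a08657048c048a832903278220821d821c0162015c015a80e000d580d400d2807e007800768040803d803c001d001b800c000a80030000800000000

def kM (c : Nat) : Nat := Nat.land (Nat.shiftRight KMT (Nat.mul 5 c)) 31
def kQ (c : Nat) : Nat := Nat.land (Nat.shiftRight KQT (Nat.mul 16 c)) 65535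

def allN (n : Nat) (f : Nat → Bool) : Bool :=
  Nat.rec (motive := fun _ => Bool) true (fun k ih => cond (f k) ih false) n

/-- all patterns with high nibble `c` -/
def all3 (c : Nat) (f : Nat → Bool) : Bool :=
  allN 16 fun a => allN 256 fun b => force (Nat.add (Nat.mul 4096 c) (Nat.add (Nat.mul 256 a) b)) f

def stL (P m : Nat) (l : List Nat) : Nat :=
  List.rec (motive := fun _ => Nat) 0
    (fun h _ ih => Nat.add (force (pcT (Nat.land P h)) fun a =>
      force (Nat.mul a (Nat.sub m a)) fun x => Nat.mul x x) ih) l

def chkPc (P : Nat) : Bool :=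
  Nat.beq (pcT P) (Nat.add (pcT (Nat.shiftRight P 1)) (Nat.land P 1))

def chkCl (P : Nat) : Bool :=
  force (clT P) fun c => force (pcT P) fun m =>
    cond (Nat.beq (kM c) m) (Nat.beq (kQ c) (stL P m m16)) false

end

end Pool.Agent.Helper163
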