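import Mathlib

set_option autoImplicit false

namespace Pool.Agent.Helper163

open Finset

variable {α : Type*} [DecidableEq α]

/-- up-closed inside the ground set `S` -/
def UpIn (S : Finset α) (X : Finset (Finset α)) : Prop :=
  (∀ x ∈ X, x ⊆ S) ∧ ∀ x ∈ X, ∀ y, x ⊆ y → y ⊆ S → y ∈ X

/-- cross intersecting triple -/
def Cross3 (X Y Z : Finset (Finset α)) : Prop := ∀ x ∈ X, ∀ y ∈ Y, ∀ z ∈ Z, (x ∩ y ∩ z).Nonempty

/-- sections -/
def sec1 (i : α) (S : Finset α) (X : Finset (Finset α)) : Finset (Finset α) :=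
  (S.erase i).powerset.filter (fun x => insert i x ∈ X)
def sec0 (i : α) (S : Finset α) (X : Finset (Finset α)) : Finset (Finset α) :=
  (S.erase i).powerset.filter (fun x => x ∈ X)

theorem mem_sec1 {i : α} {S : Finset α} {X : Finset (Finset α)} {x : Finset α} :
    x ∈ sec1 i S X ↔ x ⊆ S.erase i ∧ insert i x ∈ X := by simp [sec1]
theorem mem_sec0 {i : α} {S : Finset α} {X : Finset (Finset α)} {x : Finset α} :
    x ∈ sec0 i S X ↔ x ⊆ S.erase i ∧ x ∈ X := by simp [sec0]

theorem card_sec (i : α) (S : Finset α) (hi : i ∈ S) (X : Finset (Finset α)) (hX : UpIn S X) :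
    (sec1 i S X).card + (sec0 i S X).card = X.card := by
  rw [← Finset.card_filter_add_card_filter_not (s := X) (fun x => i ∈ x)]
  congr 1
  · refine Finset.card_bij' (fun x _ => insert i x) (fun x _ => x.erase i) ?_ ?_ ?_ ?_
    · intro x hx
      rw [mem_sec1] at hx
      exact mem_filter.2 ⟨hx.2, mem_insert_self i x⟩
    · intro x hx
      rw [mem_filter] at hx
      rw [mem_sec1, insert_erase hx.2]
      exact ⟨erase_subset_erase i (hX.1 x hx.1), hx.1⟩
    · intro x hx
      rw [mem_sec1] at hx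
      exact erase_insert (fun h => (mem_erase.1 (hx.1 h)).1 rfl)
    · intro x hx
      exact insert_erase (mem_filter.1 hx).2
  · congr 1
    ext x
    rw [mem_sec0, mem_filter]
    constructor
    · rintro ⟨h1, h2⟩
      exact ⟨h2, fun h => (mem_erase.1 (h1 h)).1 rfl⟩
    · rintro ⟨h1, h2⟩
      exact ⟨fun a ha => mem_erase.2 ⟨fun h => h2 (h ▸ ha), hX.1 x h1 ha⟩, h1⟩

theorem up_sec1 {i : α} {S : Finset α} (hi : i ∈ S) {X : Finset (Finset α)} (hX : UpIn S X) :
    UpIn (S.erase i) (sec1 i S X) := by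
  refine ⟨fun x hx => (mem_sec1.1 hx).1, fun x hx y hxy hy => ?_⟩
  rw [mem_sec1] at hx ⊢
  refine ⟨hy, hX.2 _ hx.2 _ (insert_subset_insert i hxy) ?_⟩
  exact insert_subset hi (hy.trans (erase_subset _ _))

theorem up_sec0 {i : α} {S : Finset α} {X : Finset (Finset α)} (hX : UpIn S X) :
    UpIn (S.erase i) (sec0 i S X) := by
  refine ⟨fun x hx => (mem_sec0.1 hx).1, fun x hx y hxy hy => ?_⟩
  rw [mem_sec0] at hx ⊢
  exact ⟨hy, hX.2 _ hx.2 _ hxy (hy.trans (erase_subset _ _))⟩

theorem sec0_sub_sec1 {i : α} {S : Finset α} (hi : i ∈ S) {X : Finset (Finset α)} (hX : UpIn S X) :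
    sec0 i S X ⊆ sec1 i S X := by
  intro x hx
  rw [mem_sec0] at hx
  rw [mem_sec1]
  exact ⟨hx.1, hX.2 _ hx.2 _ (subset_insert i x)
    (insert_subset hi (hx.1.trans (erase_subset _ _)))⟩

theorem l1_aux (k : ℕ) : ∀ (m : ℕ) (S : Finset α), S.card = m → ∀ X Y R : Finset (Finset α),
    UpIn S X → UpIn S Y → UpIn S R → X.Nonempty → Y.Nonempty → R.Nonempty → Cross3 X Y R →
    2 ^ m * (2 ^ k - 1) < 2 ^ k * R.card → 2 ^ k * (X.card + Y.card) ≤ 2 ^ m := by
  intro m
  induction m with
  | zero =>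
    intro S hS X Y R hX hY hR hXn hYn hRn hC _
    exfalso
    rw [Finset.card_eq_zero] at hS
    obtain ⟨x, hx⟩ := hXn
    obtain ⟨y, hy⟩ := hYn
    obtain ⟨r, hr⟩ := hRn
    obtain ⟨a, ha⟩ := hC x hx y hy r hr
    have := hX.1 x hx (mem_inter.1 (mem_inter.1 ha).1).1
    rw [hS] at this
    simp at this
  | succ m ih =>
    intro S hS X Y R hX hY hR hXn hYn hRn hC hlt
    by_cases hB : ∃ i ∈ S, (sec0 i S X).Nonempty ∧ (sec0 i S Y).Nonempty
    · obtain ⟨i, hi, hx0, hy0⟩ := hB
      have hcard : (S.erase i).card = m := by rw [card_erase_of_mem hi, hS]; rfl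
      have cX := card_sec i S hi X hX
      have cY := card_sec i S hi Y hY
      have cR := card_sec i S hi R hR
      have hR1 : (sec0 i S R).card ≤ (sec1 i S R).card := card_le_card (sec0_sub_sec1 hi hR)
      have hx1 : (sec1 i S X).Nonempty := hx0.mono (sec0_sub_sec1 hi hX)
      have hy1 : (sec1 i S Y).Nonempty := hy0.mono (sec0_sub_sec1 hi hY)
      have hr1 : (sec1 i S R).Nonempty := by
        obtain ⟨r, hr⟩ := hRn
        refine ⟨r.erase i, mem_sec1.2 ⟨erase_subset_erase i (hR.1 r hr), ?_⟩⟩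
        refine hR.2 r hr _ ?_ ?_
        · intro a ha
          by_cases h : a = i
          · rw [h]; exact mem_insert_self _ _
          · exact mem_insert_of_mem (mem_erase.2 ⟨h, ha⟩)
        · exact insert_subset hi ((erase_subset _ _).trans (hR.1 r hr))
      have hlt1 : 2 ^ m * (2 ^ k - 1) < 2 ^ k * (sec1 i S R).card := by
        have h1 : R.card ≤ 2 * (sec1 i S R).card := by omega
        have h2 : 2 ^ k * R.card ≤ 2 ^ k * (2 * (sec1 i S R).card) := Nat.mul_le_mul_left _ h1
        have h3 : 2 ^ (m + 1) * (2 ^ k - 1) = 2 * (2 ^ m * (2 ^ k - 1)) := by rw [pow_succ]; ring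
        have h4 : 2 ^ k * (2 * (sec1 i S R).card) = 2 * (2 ^ k * (sec1 i S R).card) := by ring
        omega
      have c1 : Cross3 (sec0 i S X) (sec1 i S Y) (sec1 i S R) := by
        intro x hx y hy r hr
        rw [mem_sec0] at hx
        rw [mem_sec1] at hy hr
        obtain ⟨a, ha⟩ := hC x hx.2 _ hy.2 _ hr.2
        simp only [mem_inter, mem_insert] at ha
        have hai : a ≠ i := (mem_erase.1 (hx.1 ha.1.1)).1
        refine ⟨a, mem_inter.2 ⟨mem_inter.2 ⟨ha.1.1, ?_⟩, ?_⟩⟩
        · exact ha.1.2.resolve_left hai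
        · exact ha.2.resolve_left hai
      have c2 : Cross3 (sec1 i S X) (sec0 i S Y) (sec1 i S R) := by
        intro x hx y hy r hr
        rw [mem_sec0] at hy
        rw [mem_sec1] at hx hr
        obtain ⟨a, ha⟩ := hC _ hx.2 y hy.2 _ hr.2
        simp only [mem_inter, mem_insert] at ha
        have hai : a ≠ i := (mem_erase.1 (hy.1 ha.1.2)).1
        refine ⟨a, mem_inter.2 ⟨mem_inter.2 ⟨?_, ha.1.2⟩, ?_⟩⟩
        · exact ha.1.1.resolve_left hai
        · exact ha.2.resolve_left hai
      have i1 := ih (S.erase i) hcard _ _ _ (up_sec0 hX) (up_sec1 hi hY) (up_sec1 hi hR) hx0 hy1 hr1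
        c1 hlt1
      have i2 := ih (S.erase i) hcard _ _ _ (up_sec1 hi hX) (up_sec0 hY) (up_sec1 hi hR) hx1 hy0 hr1
        c2 hlt1
      rw [← cX, ← cY, pow_succ]
      nlinarith
    · -- the intersection map is injective
      push Not at hB
      have hdich : ∀ i ∈ S, (∀ x ∈ X, i ∈ x) ∨ (∀ y ∈ Y, i ∈ y) := by
        intro i hi
        by_contra hcon
        push Not at hcon
        obtain ⟨⟨x, hx, hix⟩, ⟨y, hy, hiy⟩⟩ := hcon
        have hx0 : (sec0 i S X).Nonempty := ⟨x, mem_sec0.2
          ⟨fun a ha => mem_erase.2 ⟨fun h => hix (h ▸ ha), hX.1 x hx ha⟩, hx⟩⟩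
        have := hB i hi hx0
        have hy0 : y ∈ sec0 i S Y := mem_sec0.2
          ⟨fun a ha => mem_erase.2 ⟨fun h => hiy (h ▸ ha), hY.1 y hy ha⟩, hy⟩
        rw [this] at hy0
        simp at hy0
      have hinj : Set.InjOn (fun p : Finset α × Finset α => p.1 ∩ p.2)
          (X ×ˢ Y : Finset (Finset α × Finset α)) := by
        rintro ⟨x, y⟩ hxy ⟨x', y'⟩ hxy' he
        rw [mem_coe, mem_product] at hxy hxy'
        simp only at he hxy hxy'
        have key : ∀ i, (i ∈ x ↔ i ∈ x') ∧ (i ∈ y ↔ i ∈ y') := by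
          intro i
          by_cases hi : i ∈ S
          · have he' : (i ∈ x ∧ i ∈ y) ↔ (i ∈ x' ∧ i ∈ y') := by
              rw [← mem_inter, ← mem_inter, he]
            rcases hdich i hi with h | h
            · have a := h x hxy.1
              have b := h x' hxy'.1
              exact ⟨⟨fun _ => b, fun _ => a⟩, ⟨fun q => (he'.1 ⟨a, q⟩).2, fun q => (he'.2 ⟨b, q⟩).2⟩⟩
            · have a := h y hxy.2
              have b := h y' hxy'.2
              exact ⟨⟨fun q => (he'.1 ⟨q, a⟩).1, fun q => (he'.2 ⟨q, b⟩).1⟩, ⟨fun _ => b, fun _ => a⟩⟩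
          · constructor
            · constructor
              · intro h; exact absurd (hX.1 x hxy.1 h) hi
              · intro h; exact absurd (hX.1 x' hxy'.1 h) hi
            · constructor
              · intro h; exact absurd (hY.1 y hxy.2 h) hi
              · intro h; exact absurd (hY.1 y' hxy'.2 h) hi
        have e1 : x = x' := by ext i; exact (key i).1
        have e2 : y = y' := by ext i; exact (key i).2
        rw [e1, e2]
      have hdisj : ((X ×ˢ Y).image (fun p => S \ (p.1 ∩ p.2))).card + R.card ≤ 2 ^ (m + 1) := by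
        rw [← card_union_of_disjoint, ← hS, ← card_powerset]
        · apply card_le_card
          intro z hz
          rw [mem_powerset]
          rcases mem_union.1 hz with h | h
          · obtain ⟨p, _, rfl⟩ := mem_image.1 h
            exact sdiff_subset
          · exact hR.1 z h
        · rw [disjoint_left]
          intro z hz hzR
          obtain ⟨⟨x, y⟩, hp, rfl⟩ := mem_image.1 hz
          rw [mem_product] at hp
          obtain ⟨a, ha⟩ := hC x hp.1 y hp.2 _ hzR
          simp only [mem_inter, mem_sdiff] at ha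
          exact ha.2.2 ha.1
      have hci : ((X ×ˢ Y).image (fun p => S \ (p.1 ∩ p.2))).card = X.card * Y.card := by
        rw [card_image_of_injOn, card_product]
        intro p hp q hq h
        apply hinj hp hq
        simp only at h ⊢
        have hps : p.1 ∩ p.2 ⊆ S := inter_subset_left.trans (hX.1 _ (mem_product.1 hp).1)
        have hqs : q.1 ∩ q.2 ⊆ S := inter_subset_left.trans (hX.1 _ (mem_product.1 hq).1)
        rw [← Finset.sdiff_sdiff_eq_self hps, ← Finset.sdiff_sdiff_eq_self hqs, h]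
      rw [hci] at hdisj
      have hx1 : 1 ≤ X.card := hXn.card_pos
      have hy1 : 1 ≤ Y.card := hYn.card_pos
      have hk1 : 1 ≤ 2 ^ k := Nat.one_le_two_pow
      have h5 : 2 ^ k * (X.card * Y.card) < 2 ^ (m + 1) := by
        have h6 : 2 ^ k * (X.card * Y.card + R.card) ≤ 2 ^ k * 2 ^ (m + 1) :=
          Nat.mul_le_mul_left _ hdisj
        have h7 : 2 ^ (m + 1) * (2 ^ k - 1) + 2 ^ (m + 1) = 2 ^ k * 2 ^ (m + 1) := by
          obtain ⟨t, ht⟩ := Nat.exists_eq_add_of_le hk1
          rw [ht]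
          simp only [Nat.add_sub_cancel_left]
          ring
        rw [Nat.mul_add] at h6
        omega
      have h8 : X.card + Y.card ≤ X.card * Y.card + 1 := by nlinarith
      have hkm : k ≤ m + 1 := by
        by_contra h
        push Not at h
        have h9 : 2 ^ (m + 1) ≤ 2 ^ k := Nat.pow_le_pow_right (by norm_num) h.le
        have h10 : 1 ≤ X.card * Y.card := Nat.mul_le_mul hx1 hy1
        have h11 : 2 ^ k * 1 ≤ 2 ^ k * (X.card * Y.card) := Nat.mul_le_mul_left _ h10
        omega
      obtain ⟨t, ht⟩ := Nat.exists_eq_add_of_le hkm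
      rw [ht, pow_add] at h5 ⊢
      have h12 : X.card * Y.card < 2 ^ t := Nat.lt_of_mul_lt_mul_left h5
      exact Nat.mul_le_mul_left _ (h8.trans h12)

end Pool.Agent.Helper163
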