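import Pool.Agent.Helper163.Walsh

set_option autoImplicit false

namespace Pool.Agent.Helper163

open Finset

variable {n : ℕ}

def up1 (k : Fin n) (G : Finset (Finset (Fin n))) : Finset (Finset (Fin n)) :=
  univ.filter (fun x => insert k x ∈ G)
def dn (k : Fin n) (G : Finset (Finset (Fin n))) : Finset (Finset (Fin n)) :=
  univ.filter (fun x => x.erase k ∈ G)

theorem mem_up1 {k : Fin n} {G : Finset (Finset (Fin n))} {x : Finset (Fin n)} :
    x ∈ up1 k G ↔ insert k x ∈ G := by simp [up1]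
theorem mem_dn {k : Fin n} {G : Finset (Finset (Fin n))} {x : Finset (Fin n)} :
    x ∈ dn k G ↔ x.erase k ∈ G := by simp [dn]

theorem Up_up1 {G : Finset (Finset (Fin n))} (h : Up G) (k : Fin n) : Up (up1 k G) := by
  intro x hx y hxy
  rw [mem_up1] at hx ⊢
  exact h _ hx _ (insert_subset_insert k hxy)

theorem Up_dn {G : Finset (Finset (Fin n))} (h : Up G) (k : Fin n) : Up (dn k G) := by
  intro x hx y hxy
  rw [mem_dn] at hx ⊢
  exact h _ hx _ (erase_subset_erase k hxy)

theorem sub_up1 {G : Finset (Finset (Fin n))} (h : Up G) (k : Fin n) : G ⊆ up1 k G := by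
  intro x hx
  rw [mem_up1]
  exact h _ hx _ (subset_insert k x)

theorem dn_sub {G : Finset (Finset (Fin n))} (h : Up G) (k : Fin n) : dn k G ⊆ G := by
  intro x hx
  rw [mem_dn] at hx
  exact h _ hx _ (erase_subset k x)

theorem card_dn (k : Fin n) (G : Finset (Finset (Fin n))) :
    (dn k G).card = 2 * (G.filter (fun x => k ∉ x)).card := by
  rw [← Finset.card_filter_add_card_filter_not (s := dn k G) (fun x => k ∈ x), two_mul]
  congr 1
  · refine Finset.card_bij' (fun x _ => x.erase k) (fun x _ => insert k x) ?_ ?_ ?_ ?_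
    · intro x hx
      rw [mem_filter, mem_dn] at hx
      exact mem_filter.2 ⟨hx.1, notMem_erase k x⟩
    · intro x hx
      rw [mem_filter] at hx
      rw [mem_filter, mem_dn, erase_insert hx.2]
      exact ⟨hx.1, mem_insert_self k x⟩
    · intro x hx
      exact insert_erase (mem_filter.1 hx).2
    · intro x hx
      exact erase_insert (mem_filter.1 hx).2
  · congr 1
    ext x
    rw [mem_filter, mem_filter, mem_dn]
    constructor
    · rintro ⟨h1, h2⟩
      rw [erase_eq_of_notMem h2] at h1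
      exact ⟨h1, h2⟩
    · rintro ⟨h1, h2⟩
      rw [erase_eq_of_notMem h2]
      exact ⟨h1, h2⟩

theorem card_up1 (k : Fin n) (G : Finset (Finset (Fin n))) :
    (up1 k G).card = 2 * (G.filter (fun x => k ∈ x)).card := by
  rw [← Finset.card_filter_add_card_filter_not (s := up1 k G) (fun x => k ∉ x), two_mul]
  congr 1
  · refine Finset.card_bij' (fun x _ => insert k x) (fun x _ => x.erase k) ?_ ?_ ?_ ?_
    · intro x hx
      rw [mem_filter, mem_up1] at hx
      exact mem_filter.2 ⟨hx.1, mem_insert_self k x⟩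
    · intro x hx
      rw [mem_filter] at hx
      rw [mem_filter, mem_up1, insert_erase hx.2]
      exact ⟨hx.1, notMem_erase k x⟩
    · intro x hx
      exact erase_insert (mem_filter.1 hx).2
    · intro x hx
      exact insert_erase (mem_filter.1 hx).2
  · congr 1
    ext x
    rw [mem_filter, mem_filter, mem_up1, not_not]
    constructor
    · rintro ⟨h1, h2⟩
      rw [insert_eq_of_mem h2] at h1
      exact ⟨h1, h2⟩
    · rintro ⟨h1, h2⟩
      rw [insert_eq_of_mem h2]
      exact ⟨h1, h2⟩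

/-- density -/
noncomputable def dd (G : Finset (Finset (Fin n))) : ℝ := (G.card : ℝ) / 2 ^ n

theorem dd_split (k : Fin n) (G : Finset (Finset (Fin n))) :
    dd (up1 k G) + dd (dn k G) = 2 * dd G := by
  unfold dd
  rw [card_up1, card_dn, ← Finset.card_filter_add_card_filter_not (s := G) (fun x => k ∈ x)]
  push_cast
  ring

theorem card_le_two_pow (G : Finset (Finset (Fin n))) : G.card ≤ 2 ^ n := by
  calc G.card ≤ (univ : Finset (Finset (Fin n))).card := Finset.card_le_univ _
    _ = 2 ^ n := by simp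

theorem dd_le_one (G : Finset (Finset (Fin n))) : dd G ≤ 1 := by
  unfold dd
  rw [div_le_one (by positivity)]
  exact_mod_cast card_le_two_pow G

theorem dd_nonneg (G : Finset (Finset (Fin n))) : 0 ≤ dd G := by unfold dd; positivity

theorem dd_pos {G : Finset (Finset (Fin n))} (h : G.Nonempty) : 0 < dd G := by
  unfold dd
  have : (0 : ℝ) < G.card := by exact_mod_cast h.card_pos
  positivity

theorem dd_mono {G H : Finset (Finset (Fin n))} (h : G ⊆ H) : dd G ≤ dd H := by
  unfold dd
  have : (G.card : ℝ) ≤ H.card := by exact_mod_cast card_le_card h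
  exact div_le_div_of_nonneg_right this (by positivity)

theorem dd_empty : dd (∅ : Finset (Finset (Fin n))) = 0 := by simp [dd]

theorem up_in {G : Finset (Finset (Fin n))} (h : Up G) : UpIn univ G :=
  ⟨fun _ _ => subset_univ _, fun x hx y hxy _ => h x hx y hxy⟩

theorem l1 (k : ℕ) {X Y R : Finset (Finset (Fin n))} (hX : Up X) (hY : Up Y) (hR : Up R)
    (hXn : X.Nonempty) (hYn : Y.Nonempty) (hC : Cross3 X Y R) (hr : 1 - 1 / 2 ^ k < dd R) :
    dd X + dd Y ≤ 1 / 2 ^ k := by
  have hRn : R.Nonempty := by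
    rw [nonempty_iff_ne_empty]
    rintro rfl
    rw [dd_empty] at hr
    have : (1 : ℝ) / 2 ^ k ≤ 1 := by
      rw [div_le_one (by positivity)]
      exact one_le_pow₀ (by norm_num)
    linarith
  have h1 : 2 ^ n * (2 ^ k - 1) < 2 ^ k * R.card := by
    have h2 : ((2 : ℝ) ^ n * (2 ^ k - 1)) < 2 ^ k * R.card := by
      unfold dd at hr
      rw [lt_div_iff₀ (by positivity)] at hr
      have h3 : (2 : ℝ) ^ k * ((1 - 1 / 2 ^ k) * 2 ^ n) < 2 ^ k * R.card :=
        mul_lt_mul_of_pos_left hr (by positivity)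
      have h4 : (2 : ℝ) ^ k * ((1 - 1 / 2 ^ k) * 2 ^ n) = 2 ^ n * (2 ^ k - 1) := by
        field_simp
      linarith
    have h5 : ((2 ^ n * (2 ^ k - 1) : ℕ) : ℝ) < ((2 ^ k * R.card : ℕ) : ℝ) := by
      push_cast [Nat.one_le_two_pow]
      exact h2
    exact_mod_cast h5
  have h6 := l1_aux k n univ (by simp) X Y R (up_in hX) (up_in hY) (up_in hR) hXn hYn hRn hC h1
  have h7 : (2 : ℝ) ^ k * ((X.card : ℝ) + Y.card) ≤ 2 ^ n := by exact_mod_cast h6
  unfold dd
  rw [← add_div, div_le_div_iff₀ (by positivity) (by positivity)]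
  linarith

theorem cross_swap {A B C : Finset (Finset (Fin n))} (h : Cross3 A B C) : Cross3 A C B := by
  intro x hx y hy z hz
  have := h x hx z hz y hy
  rwa [inter_right_comm]

theorem cross_rot {A B C : Finset (Finset (Fin n))} (h : Cross3 A B C) : Cross3 B C A := by
  intro x hx y hy z hz
  have := h z hz x hx y hy
  rwa [inter_assoc, inter_comm] at this

theorem cross_uud {A B C : Finset (Finset (Fin n))} (h : Cross3 A B C) (k : Fin n) :
    Cross3 (up1 k A) (up1 k B) (dn k C) := by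
  intro x hx y hy z hz
  rw [mem_up1] at hx hy
  rw [mem_dn] at hz
  obtain ⟨a, ha⟩ := h _ hx _ hy _ hz
  simp only [mem_inter, mem_insert, mem_erase] at ha
  refine ⟨a, ?_⟩
  simp only [mem_inter]
  tauto

theorem cross_udu {A B C : Finset (Finset (Fin n))} (h : Cross3 A B C) (k : Fin n) :
    Cross3 (up1 k A) (dn k B) (up1 k C) := cross_swap (cross_uud (cross_swap h) k)

theorem star_of_dn {G : Finset (Finset (Fin n))} {k : Fin n} (h : dn k G = ∅) :
    ∀ x ∈ G, k ∈ x := by
  intro x hx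
  by_contra hk
  have : x ∈ dn k G := by rw [mem_dn, erase_eq_of_notMem hk]; exact hx
  rw [h] at this
  simp at this

theorem dn_of_star {G : Finset (Finset (Fin n))} {k : Fin n} (h : ∀ x ∈ G, k ∈ x) : dn k G = ∅ := by
  rw [eq_empty_iff_forall_notMem]
  intro x hx
  rw [mem_dn] at hx
  exact notMem_erase k x (h _ hx)

/-- a coordinate of large influence, in terms of densities -/
theorem big_real {A B C : Finset (Finset (Fin n))} (hA : Up A) (h : Cross3 A B C)
    (hAn : A.Nonempty) (hBn : B.Nonempty) (hCn : C.Nonempty) (F : ℝ) (hF : 0 ≤ F)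
    (hFb : F ^ 2 * ((1 - dd B) * (1 - dd C)) ≤ dd B * dd C) :
    ∃ k : Fin n, dd A * (1 + F) ≤ dd (up1 k A) := by
  obtain ⟨k, h1, h2⟩ := big_coord A B C hA h hAn hBn hCn
  refine ⟨k, ?_⟩
  have hN : (0 : ℝ) < 2 ^ n := by positivity
  have h1R : ((A.card : ℝ)) ^ 2 * (B.card * C.card) ≤
      ((A.card : ℝ) - 2 * (A.filter (fun x => k ∉ x)).card) ^ 2 *
        ((2 ^ n - B.card) * (2 ^ n - C.card)) := by exact_mod_cast h1
  have h2R : 0 ≤ (A.card : ℝ) - 2 * (A.filter (fun x => k ∉ x)).card := by exact_mod_cast h2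
  have e1 : (A.card : ℝ) = dd A * 2 ^ n := by unfold dd; field_simp
  have e2 : (B.card : ℝ) = dd B * 2 ^ n := by unfold dd; field_simp
  have e3 : (C.card : ℝ) = dd C * 2 ^ n := by unfold dd; field_simp
  have e4 : 2 * ((A.filter (fun x => k ∉ x)).card : ℝ) = dd (dn k A) * 2 ^ n := by
    unfold dd; rw [card_dn]; push_cast; field_simp
  rw [e1, e2, e3, e4] at h1R
  rw [e1, e4] at h2R
  have hw0 : 0 ≤ dd A - dd (dn k A) := by
    have : 0 ≤ (dd A - dd (dn k A)) * 2 ^ n := by linarith
    exact nonneg_of_mul_nonneg_left this hN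
  have h3 : dd A ^ 2 * (dd B * dd C) ≤ (dd A - dd (dn k A)) ^ 2 * ((1 - dd B) * (1 - dd C)) := by
    have h4 : (2 ^ n) ^ 4 * (dd A ^ 2 * (dd B * dd C)) ≤
        (2 ^ n) ^ 4 * ((dd A - dd (dn k A)) ^ 2 * ((1 - dd B) * (1 - dd C))) := by
      have l : (2 ^ n) ^ 4 * (dd A ^ 2 * (dd B * dd C)) =
          (dd A * 2 ^ n) ^ 2 * (dd B * 2 ^ n * (dd C * 2 ^ n)) := by ring
      have r : (2 ^ n) ^ 4 * ((dd A - dd (dn k A)) ^ 2 * ((1 - dd B) * (1 - dd C))) =
          (dd A * 2 ^ n - dd (dn k A) * 2 ^ n) ^ 2 *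
            ((2 ^ n - dd B * 2 ^ n) * (2 ^ n - dd C * 2 ^ n)) := by ring
      rw [l, r]; exact h1R
    exact le_of_mul_le_mul_left h4 (by positivity)
  have hsp := dd_split k A
  have hAp := dd_pos hAn
  have hBp := dd_pos hBn
  have hCp := dd_pos hCn
  have hB1 := dd_le_one B
  have hC1 := dd_le_one C
  have hQ : 0 ≤ (1 - dd B) * (1 - dd C) := mul_nonneg (by linarith) (by linarith)
  have hQp : 0 < (1 - dd B) * (1 - dd C) := by
    rcases hQ.lt_or_eq with h5 | h5
    · exact h5
    · exfalso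
      rw [← h5, mul_zero] at h3
      have : 0 < dd A ^ 2 * (dd B * dd C) := by positivity
      linarith
  have h6 : (dd A * F) ^ 2 ≤ (dd A - dd (dn k A)) ^ 2 := by
    have h7 : (dd A * F) ^ 2 * ((1 - dd B) * (1 - dd C)) ≤
        (dd A - dd (dn k A)) ^ 2 * ((1 - dd B) * (1 - dd C)) := by
      calc (dd A * F) ^ 2 * ((1 - dd B) * (1 - dd C))
          = dd A ^ 2 * (F ^ 2 * ((1 - dd B) * (1 - dd C))) := by ring
        _ ≤ dd A ^ 2 * (dd B * dd C) := mul_le_mul_of_nonneg_left hFb (sq_nonneg _)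
        _ ≤ _ := h3
    exact le_of_mul_le_mul_right h7 hQp
  have h8 : dd A * F ≤ dd A - dd (dn k A) := by
    apply le_of_sq_le_sq _ hw0
    exact h6
  linarith

end Pool.Agent.Helper163
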