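import Pool.Agent.Helper163.Flag

set_option autoImplicit false

namespace Pool.Agent.Helper163

open Finset

def ch {n : ℕ} (h u : Fin n → ZMod 2) : ℤ := if dot h u = 0 then 1 else -1

theorem dot_zero_right {n : ℕ} (h : Fin n → ZMod 2) : dot h 0 = 0 := by simp [dot]
theorem dot_zero_left {n : ℕ} (h : Fin n → ZMod 2) : dot 0 h = 0 := by simp [dot]

theorem ch_add {n : ℕ} (h u v : Fin n → ZMod 2) : ch h (u + v) = ch h u * ch h v := by
  unfold ch
  rw [dot_add_right]
  rcases z2 (dot h u) with a | a <;> rcases z2 (dot h v) with b | b <;> rw [a, b] <;> decide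

theorem ch_zero {n : ℕ} (h : Fin n → ZMod 2) : ch h 0 = 1 := by
  unfold ch; rw [dot_zero_right]; simp

theorem ch_sum {n : ℕ} {ι : Type*} (s : Finset ι) (h : Fin n → ZMod 2) (y : ι → Fin n → ZMod 2) :
    ch h (∑ i ∈ s, y i) = ∏ i ∈ s, ch h (y i) := by
  classical
  induction s using Finset.induction_on with
  | empty => simp [ch_zero]
  | insert a s ha ih => rw [Finset.sum_insert ha, Finset.prod_insert ha, ch_add, ih]

theorem dot_single_left {n : ℕ} (i : Fin n) (u : Fin n → ZMod 2) : dot (Pi.single i 1) u = u i := by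
  unfold dot
  rw [Finset.sum_eq_single i]
  · simp
  · intro j _ hj; simp [Pi.single_eq_of_ne hj]
  · simp

theorem sum_ch {n : ℕ} (u : Fin n → ZMod 2) :
    ∑ h : Fin n → ZMod 2, ch h u = if u = 0 then 2 ^ n else 0 := by
  split_ifs with hu
  · subst hu
    simp [ch_zero]
  · obtain ⟨i, hi⟩ := Function.ne_iff.1 hu
    have hi1 : u i = 1 := z2_ne_zero hi
    have h : ∑ h : Fin n → ZMod 2, ch h u = ∑ h : Fin n → ZMod 2, -ch h u := by
      refine Fintype.sum_equiv (Equiv.addRight (Pi.single i 1)) _ _ (fun k => ?_)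
      show ch k u = - ch (k + Pi.single i 1) u
      unfold ch
      rw [dot_add_left, dot_single_left, hi1]
      rcases z2 (dot k u) with a | a <;> rw [a] <;> decide
    rw [Finset.sum_neg_distrib] at h
    linarith

/-- the number of `k`-tuples of members of `S` whose sum lies in `S` -/
def Tk {W : Type*} [AddCommMonoid W] [Fintype W] [DecidableEq W] (k : ℕ) (S : Finset W) : ℕ :=
  (univ.filter (fun y : Fin k → W => (∀ i, y i ∈ S) ∧ ∑ i, y i ∈ S)).card

theorem fourier {n : ℕ} (S : Finset (Fin n → ZMod 2)) (k : ℕ) :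
    ∑ h : Fin n → ZMod 2, (∑ u ∈ S, ch h u) ^ (k + 1) = 2 ^ n * (Tk k S : ℤ) := by
  have h1 : ∀ h : Fin n → ZMod 2, (∑ u ∈ S, ch h u) ^ (k + 1) =
      ∑ y ∈ Fintype.piFinset (fun _ : Fin (k + 1) => S), ch h (∑ i, y i) := by
    intro h
    have : (∑ u ∈ S, ch h u) ^ (k + 1) = ∏ _i : Fin (k + 1), ∑ u ∈ S, ch h u := by
      rw [Finset.prod_const]; simp
    rw [this, Finset.prod_univ_sum]
    exact Finset.sum_congr rfl fun y _ => (ch_sum univ h y).symm
  simp only [h1]
  rw [Finset.sum_comm]
  simp only [sum_ch]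
  rw [← Finset.sum_filter, Finset.sum_const, nsmul_eq_mul, mul_comm]
  congr 1
  norm_cast
  unfold Tk
  refine Finset.card_bij' (fun y _ => Fin.init y)
    (fun y _ => (Fin.snoc y (∑ i, y i) : Fin (k + 1) → (Fin n → ZMod 2))) ?_ ?_ ?_ ?_
  · intro y hy
    simp only [mem_filter, Fintype.mem_piFinset, mem_univ, true_and] at hy ⊢
    refine ⟨fun i => hy.1 _, ?_⟩
    have h2 := hy.2
    rw [Fin.sum_univ_castSucc] at h2
    have h3 : ∑ i, Fin.init y i = y (Fin.last k) := by
      have : ∑ i : Fin k, Fin.init y i = ∑ i : Fin k, y i.castSucc := rfl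
      rw [this]
      have h4 : ∑ i : Fin k, y i.castSucc = ∑ i : Fin k, y i.castSucc +
          (y (Fin.last k) + y (Fin.last k)) := by
        have : y (Fin.last k) + y (Fin.last k) = 0 := by
          funext j; exact CharTwo.add_self_eq_zero _
        rw [this, add_zero]
      rw [h4, ← add_assoc, h2, zero_add]
    rw [h3]; exact hy.1 _
  · intro y hy
    simp only [mem_filter, Fintype.mem_piFinset, mem_univ, true_and] at hy ⊢
    refine ⟨fun i => ?_, ?_⟩
    · refine Fin.lastCases ?_ (fun j => ?_) i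
      · simp only [Fin.snoc_last]; exact hy.2
      · simp only [Fin.snoc_castSucc]; exact hy.1 j
    · rw [Fin.sum_univ_castSucc]
      simp only [Fin.snoc_castSucc, Fin.snoc_last]
      funext j; exact CharTwo.add_self_eq_zero _
  · intro y hy
    simp only [mem_filter, Fintype.mem_piFinset, mem_univ, true_and] at hy
    have h2 := hy.2
    rw [Fin.sum_univ_castSucc] at h2
    have h3 : ∑ i, Fin.init y i = y (Fin.last k) := by
      have : ∑ i : Fin k, Fin.init y i = ∑ i : Fin k, y i.castSucc := rfl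
      rw [this]
      have h4 : ∑ i : Fin k, y i.castSucc = ∑ i : Fin k, y i.castSucc +
          (y (Fin.last k) + y (Fin.last k)) := by
        have : y (Fin.last k) + y (Fin.last k) = 0 := by
          funext j; exact CharTwo.add_self_eq_zero _
        rw [this, add_zero]
      rw [h4, ← add_assoc, h2, zero_add]
    simp only [h3]
    exact Fin.snoc_init_self y
  · intro y hy
    simp only [Fin.init_snoc]

variable {V : Type*} [AddCommGroup V] [Module (ZMod 2) V]

theorem exists_dual {k : ℕ} (v : Fin k → E) (hv : LinearIndependent (ZMod 2) v) :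
    ∃ H : Fin k → E, ∀ i j, dot (H i) (v j) = if i = j then 1 else 0 := by
  classical
  have hk : LinearMap.ker (Fintype.linearCombination (ZMod 2) v) = ⊥ := by
    rw [LinearMap.ker_eq_bot]
    exact hv.fintypeLinearCombination_injective
  obtain ⟨g, hg⟩ := LinearMap.exists_leftInverse_of_injective _ hk
  refine ⟨fun i m => g (Pi.single m 1) i, fun i j => ?_⟩
  have h1 : dot (fun m => g (Pi.single m 1) i) (v j) = g (v j) i := by
    unfold dot
    have h2 : v j = ∑ m, (v j m) • (Pi.single m (1 : ZMod 2) : E) := by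
      funext t
      simp [Finset.sum_apply, Pi.single_apply]
    conv_rhs => rw [h2]
    rw [map_sum, Finset.sum_apply]
    refine Finset.sum_congr rfl fun m _ => ?_
    rw [map_smul, Pi.smul_apply, smul_eq_mul, mul_comm]
  rw [h1]
  have h3 : g (v j) = Pi.single j 1 := by
    have h4 : Fintype.linearCombination (ZMod 2) v (Pi.single j 1) = v j := by
      rw [Fintype.linearCombination_apply_single, one_smul]
    rw [← h4]
    have := LinearMap.congr_fun hg (Pi.single j (1 : ZMod 2))
    simpa using this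
  rw [h3, Pi.single_apply]

variable [Fintype V] [DecidableEq V]

theorem unif {k : ℕ} (v : Fin k → E) (hv : LinearIndependent (ZMod 2) v) (Φ : (Fin k → V) → ℤ) :
    (Fintype.card V : ℤ) ^ k * ∑ X : Fin 6 → V, Φ (fun j => L X (v j)) =
      (Fintype.card V : ℤ) ^ 6 * ∑ y : Fin k → V, Φ y := by
  obtain ⟨H, hH⟩ := exists_dual v hv
  have h1 : ∀ y : Fin k → V, ∑ X : Fin 6 → V, Φ (fun j => L X (v j)) =
      ∑ X : Fin 6 → V, Φ (fun j => L X (v j) + y j) := by
    intro y
    symm
    refine Fintype.sum_equiv (Equiv.addRight (fun m => ∑ i, H i m • y i)) _ _ (fun X => ?_)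
    congr 1
    funext j
    show L X (v j) + y j = L (X + fun m => ∑ i, H i m • y i) (v j)
    unfold L
    simp only [Pi.add_apply, smul_add, Finset.sum_add_distrib]
    congr 1
    simp only [Finset.smul_sum, smul_smul]
    rw [Finset.sum_comm]
    have h2 : ∀ i, ∑ m : Fin 6, (v j m * H i m) • y i = (if i = j then (1 : ZMod 2) else 0) • y i := by
      intro i
      rw [← Finset.sum_smul, ← hH i j]
      congr 1
      unfold dot
      exact Finset.sum_congr rfl fun m _ => mul_comm _ _
    simp only [h2]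
    simp
  have h3 : (Fintype.card V : ℤ) ^ k * ∑ X : Fin 6 → V, Φ (fun j => L X (v j)) =
      ∑ y : Fin k → V, ∑ X : Fin 6 → V, Φ (fun j => L X (v j)) := by
    rw [Finset.sum_const, card_univ]
    simp
  rw [h3, Finset.sum_congr rfl (fun y _ => h1 y), Finset.sum_comm]
  have h4 : ∀ X : Fin 6 → V, ∑ y : Fin k → V, Φ (fun j => L X (v j) + y j) = ∑ y : Fin k → V, Φ y := by
    intro X
    exact Fintype.sum_equiv (Equiv.addLeft (fun j => L X (v j))) _ _ (fun y => rfl)
  simp only [h4]
  rw [Finset.sum_const, card_univ]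
  simp

open Classical in
/-- linearly independent tuples -/
noncomputable def NDk (k : ℕ) (S : Finset E) : ℕ :=
  (univ.filter (fun y : Fin k → E => LinearIndependent (ZMod 2) y ∧ (∀ i, y i ∈ S) ∧
    ∑ i, y i ∈ S)).card

theorem L_sum (X : Fin 6 → V) {k : ℕ} (y : Fin k → E) : L X (∑ i, y i) = ∑ i, L X (y i) := by
  unfold L
  rw [Finset.sum_comm]
  refine Finset.sum_congr rfl fun m _ => ?_
  rw [Finset.sum_apply, Finset.sum_smul]

open Classical in
theorem ND_expect (A : Finset V) (k : ℕ) :
    (Fintype.card V : ℤ) ^ k * ∑ X : Fin 6 → V, (NDk k (gX A X) : ℤ) =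
      (Fintype.card V : ℤ) ^ 6 *
        ((univ.filter (fun y : Fin k → E => LinearIndependent (ZMod 2) y)).card * (Tk k A : ℤ)) := by
  have h1 : ∀ X : Fin 6 → V, (NDk k (gX A X) : ℤ) =
      ∑ y ∈ univ.filter (fun y : Fin k → E => LinearIndependent (ZMod 2) y),
        (fun z : Fin k → V => if (∀ i, z i ∈ A) ∧ ∑ i, z i ∈ A then (1 : ℤ) else 0)
          (fun j => L X (y j)) := by
    intro X
    unfold NDk
    rw [Finset.sum_boole]
    rw [Finset.filter_filter]
    congr 2
    ext y
    simp only [mem_filter, mem_univ, true_and, mem_gX, L_sum]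
  simp only [h1]
  rw [Finset.sum_comm, Finset.mul_sum]
  have h2 : ∀ y ∈ univ.filter (fun y : Fin k → E => LinearIndependent (ZMod 2) y),
      (Fintype.card V : ℤ) ^ k * ∑ X : Fin 6 → V,
        (fun z : Fin k → V => if (∀ i, z i ∈ A) ∧ ∑ i, z i ∈ A then (1 : ℤ) else 0)
          (fun j => L X (y j)) = (Fintype.card V : ℤ) ^ 6 * (Tk k A : ℤ) := by
    intro y hy
    refine (unif y (mem_filter.1 hy).2
      (fun z : Fin k → V => if (∀ i, z i ∈ A) ∧ ∑ i, z i ∈ A then (1 : ℤ) else 0)).trans ?_
    congr 1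
    rw [Finset.sum_boole]
    unfold Tk
    congr 2
  rw [Finset.sum_congr rfl h2, Finset.sum_const, nsmul_eq_mul]
  ring

end Pool.Agent.Helper163
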