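import Pool.Agent.Helper163.Bits

set_option autoImplicit false

namespace Pool.Agent.Helper163

open Finset

theorem force_eq {α : Type} (n : ℕ) (f : ℕ → α) : force n f = f n := by
  cases n <;> rfl

/-- Boolean check used for the moves -/
def pdu (d u : ℕ) : Bool :=
  if (msk d).testBit u then
    (decide (u < sft d) || !(msk d).testBit (u - sft d)) && decide (tu d u = u + sft d)
  else if decide (sft d ≤ u) && (msk d).testBit (u - sft d) then decide (tu d u = u - sft d)
  else decide (tu d u = u)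

theorem pdu_all : ∀ d < 64, ∀ u < 64, pdu d u = true := by decide +kernel

theorem msk_lt : ∀ d < 64, msk d < 2 ^ (64 - sft d) ∧ sft d < 64 := by decide +kernel

theorem tu_lt : ∀ d < 64, ∀ u < 64, tu d u < 64 := by decide +kernel

theorem mvC_eq (d g : ℕ) : mvC d g = (g ^^^ (((g >>> sft d) ^^^ g) &&& msk d)) ^^^
    ((((g >>> sft d) ^^^ g) &&& msk d) <<< sft d) := by
  unfold mvC dsw
  rw [force_eq]
  rfl

theorem testBit_mvC (d : ℕ) (hd : d < 64) (g u : ℕ) (hu : u < 64) :
    (mvC d g).testBit u = g.testBit (tu d u) := by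
  have hp := pdu_all d hd u hu
  rw [mvC_eq]
  simp only [Nat.testBit_xor, Nat.testBit_and, Nat.testBit_shiftRight, Nat.testBit_shiftLeft]
  unfold pdu at hp
  by_cases hM : (msk d).testBit u = true
  · rw [if_pos hM] at hp
    simp only [Bool.and_eq_true, Bool.or_eq_true, decide_eq_true_eq, Bool.not_eq_true'] at hp
    obtain ⟨h1, h2⟩ := hp
    rw [h2, hM]
    rcases h1 with h1 | h1
    · have : decide (u ≥ sft d) = false := by simpa using h1
      rw [this]
      rw [Nat.add_comm (sft d) u]
      cases g.testBit (u + sft d) <;> cases g.testBit u <;> rfl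
    · rw [h1]
      rw [Nat.add_comm (sft d) u]
      cases g.testBit (u + sft d) <;> cases g.testBit u <;> simp
  · rw [if_neg hM] at hp
    have hM' : (msk d).testBit u = false := by simpa using hM
    rw [hM']
    split_ifs at hp with h1
    · simp only [Bool.and_eq_true, decide_eq_true_eq] at h1
      simp only [decide_eq_true_eq] at hp
      rw [hp, h1.2]
      have h3 : sft d + (u - sft d) = u := by omega
      rw [h3]
      have h4 : decide (u ≥ sft d) = true := by simpa using h1.1
      rw [h4]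
      cases g.testBit u <;> cases g.testBit (u - sft d) <;> cases g.testBit (sft d + u) <;> rfl
    · simp only [decide_eq_true_eq] at hp
      rw [hp]
      by_cases h2 : sft d ≤ u
      · have h3 : (msk d).testBit (u - sft d) = false := by
          by_contra h4
          apply h1
          simp only [Bool.not_eq_false] at h4
          rw [h4]
          simpa using h2
        rw [h3]; simp
      · have h4 : decide (u ≥ sft d) = false := by simpa using h2
        rw [h4]; simp

theorem mvC_lt (d : ℕ) (hd : d < 64) (g : ℕ) (hg : g < 2 ^ 64) : mvC d g < 2 ^ 64 := by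
  obtain ⟨h1, h2⟩ := msk_lt d hd
  rw [mvC_eq]
  have ht : (((g >>> sft d) ^^^ g) &&& msk d) < 2 ^ (64 - sft d) :=
    lt_of_le_of_lt Nat.and_le_right h1
  have ht2 : (((g >>> sft d) ^^^ g) &&& msk d) < 2 ^ 64 :=
    lt_of_lt_of_le ht (Nat.pow_le_pow_right (by norm_num) (by omega))
  apply Nat.xor_lt_two_pow (Nat.xor_lt_two_pow hg ht2)
  rw [Nat.shiftLeft_eq]
  calc _ < 2 ^ (64 - sft d) * 2 ^ sft d :=
        Nat.mul_lt_mul_of_pos_right ht (Nat.two_pow_pos _)
    _ = 2 ^ 64 := by rw [← pow_add]; congr 1; omega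

theorem mem_image_mvE (d : ℕ) (g : Finset E) (x : E) : x ∈ g.image (mvE d) ↔ mvE d x ∈ g := by
  rw [mem_image]
  constructor
  · rintro ⟨y, hy, rfl⟩; rwa [mvE_invol]
  · intro h; exact ⟨mvE d x, h, mvE_invol d x⟩

theorem setOf_mvC (d : ℕ) (hd : d < 64) (g : ℕ) : setOf (mvC d g) = (setOf g).image (mvE d) := by
  ext x
  rw [mem_image_mvE]
  obtain ⟨u, hu, rfl⟩ := vec_surj x
  rw [mem_setOf_vec _ hu, mvE_vec, mem_setOf_vec _ (tu_lt d hd u hu), testBit_mvC d hd g u hu]

/-! invariance of the counts -/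

theorem card_filter_image (d : ℕ) (g : Finset E) (p : E → Prop) [DecidablePred p] :
    ((g.image (mvE d)).filter p).card = (g.filter (fun x => p (mvE d x))).card := by
  rw [Finset.filter_image, Finset.card_image_of_injective _ (mvE_inj d)]

theorem card_image_mvE (d : ℕ) (g : Finset E) : (g.image (mvE d)).card = g.card :=
  Finset.card_image_of_injective _ (mvE_inj d)

theorem h0c_image (d : ℕ) (g : Finset E) (h : E) :
    h0c (g.image (mvE d)) h = h0c g (mvE (td d) h) := by
  unfold h0c
  rw [card_filter_image]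
  simp only [dot_mvE]

theorem h1c_image (d : ℕ) (g : Finset E) (h : E) :
    h1c (g.image (mvE d)) h = h1c g (mvE (td d) h) := by
  unfold h1c
  rw [card_filter_image]
  simp only [dot_mvE]

theorem kU_image (d : ℕ) (g : Finset E) (h h' : E) :
    kU (g.image (mvE d)) h h' = kU g (mvE (td d) h) (mvE (td d) h') := by
  unfold kU
  rw [card_filter_image]
  simp only [dot_mvE]

theorem S1_image (d : ℕ) (g : Finset E) (h h' : E) :
    S1 (g.image (mvE d)) h h' = (S1 g (mvE (td d) h) (mvE (td d) h')).image (mvE d) := by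
  unfold S1
  rw [Finset.filter_image]
  simp only [dot_mvE]

theorem S2_image (d : ℕ) (g : Finset E) (h h' : E) :
    S2 (g.image (mvE d)) h h' = (S2 g (mvE (td d) h) (mvE (td d) h')).image (mvE d) := by
  unfold S2
  rw [Finset.filter_image]
  simp only [dot_mvE]

/-- a move as a permutation -/
def mvQ (d : ℕ) : E ≃ E where
  toFun := mvE d
  invFun := mvE d
  left_inv := mvE_invol d
  right_inv := mvE_invol d

theorem st_image (d : ℕ) (S : Finset E) : st (S.image (mvE d)) = st S := by
  unfold st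
  refine Fintype.sum_equiv (mvQ (td d)) _ _ (fun h => ?_)
  rw [card_filter_image, card_filter_image]
  simp only [dot_mvE]
  rfl

theorem vv_image (v : ℕ → ℕ → ℕ → ℤ) (d : ℕ) (g : Finset E) (h h' : E) :
    vv v (g.image (mvE d)) h h' = vv v g (mvE (td d) h) (mvE (td d) h') := by
  unfold vv
  rw [kU_image, S1_image, S2_image, card_image_mvE, card_image_mvE, st_image, st_image]

/-- sum over all pairs -/
def Psum (v : ℕ → ℕ → ℕ → ℤ) (g : Finset E) : ℤ :=
  ∑ h ∈ univ.filter (fun h : E => h ≠ 0), ∑ h' ∈ univ.filter (fun h' : E => h' ≠ 0 ∧ h' ≠ h),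
    vv v g h h'

/-- sum over hyperplanes -/
def Bsum (φ : ℕ → ℤ) (g : Finset E) : ℤ :=
  ∑ h ∈ univ.filter (fun h : E => h ≠ 0), φ (h0c g h)

theorem mvE_ne_zero (d : ℕ) (h : E) : mvE d h ≠ 0 ↔ h ≠ 0 := by
  constructor
  · intro h1 h2; apply h1; rw [h2, mvE_zero]
  · intro h1 h2; apply h1
    have := congrArg (mvE d) h2
    rwa [mvE_invol, mvE_zero] at this

theorem inner_image (v : ℕ → ℕ → ℕ → ℤ) (d : ℕ) (g : Finset E) (h : E) :
    ∑ h' ∈ univ.filter (fun h' : E => h' ≠ 0 ∧ h' ≠ h), vv v (g.image (mvE d)) h h' =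
    ∑ h' ∈ univ.filter (fun h' : E => h' ≠ 0 ∧ h' ≠ mvE (td d) h), vv v g (mvE (td d) h) h' := by
  refine Finset.sum_equiv (mvQ (td d)) ?_ ?_
  · intro h'
    simp only [mem_filter, mem_univ, true_and]
    show _ ↔ mvE (td d) h' ≠ 0 ∧ mvE (td d) h' ≠ mvE (td d) h
    rw [mvE_ne_zero, (mvE_inj (td d)).ne_iff]
  · intro h' _
    rw [vv_image]; rfl

theorem Psum_image (v : ℕ → ℕ → ℕ → ℤ) (d : ℕ) (g : Finset E) :
    Psum v (g.image (mvE d)) = Psum v g := by
  unfold Psum
  refine Finset.sum_equiv (mvQ (td d)) ?_ ?_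
  · intro h
    simp only [mem_filter, mem_univ, true_and]
    show _ ↔ mvE (td d) h ≠ 0
    rw [mvE_ne_zero]
  · intro h _
    rw [inner_image]; rfl

theorem Bsum_image (φ : ℕ → ℤ) (d : ℕ) (g : Finset E) :
    Bsum φ (g.image (mvE d)) = Bsum φ g := by
  unfold Bsum
  refine Finset.sum_equiv (mvQ (td d)) ?_ ?_
  · intro h
    simp only [mem_filter, mem_univ, true_and]
    show _ ↔ mvE (td d) h ≠ 0
    rw [mvE_ne_zero]
  · intro h _
    rw [h0c_image]; rfl

end Pool.Agent.Helper163
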