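import Pool.Agent.Helper163.Cert2
import Pool.Agent.Helper163.AllReps

set_option autoImplicit false

namespace Pool.Agent.Helper163

open Finset

/-- class function described by a packed vector -/
noncomputable def vfun (v : ℕ) (k m q : ℕ) : ℤ :=
  if k ≤ 2 then (vdig v (32 * k + cls m q) : ℤ) - 524288 else 0

theorem vfun_zero (v k m q : ℕ) (h : 3 ≤ k) : vfun v k m q = 0 := by
  unfold vfun; rw [if_neg (by omega)]

/-- the flag functional -/
noncomputable def Tf (c5 c4 A : ℤ) (ψ : ℕ → ℤ) (vs : List ℕ) (g : Finset E) : ℤ :=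
  c5 * ((g.card : ℤ) ^ 5 + Bsum (fun s => (2 * (s : ℤ) - g.card) ^ 5) g) +
  c4 * ((g.card : ℤ) ^ 4 + Bsum (fun s => (2 * (s : ℤ) - g.card) ^ 4) g -
    192 * (g.card : ℤ) ^ 2 + 128 * g.card) +
  (vs.map (fun v => Psum (vfun v) g)).sum +
  Bsum (fun s => ψ s * (10000 * ((g.card : ℤ) - s) - 32 * A)) g

theorem Psum_amap (v : ℕ → ℕ → ℕ → ℤ) : ∀ (ws : List ℕ) (g : Finset E),
    Psum v (g.image (amap ws)) = Psum v g
  | [], g => by congr 1; ext x; simp [amap]
  | d :: ws, g => by rw [image_amap_cons, Psum_amap v ws, Psum_image]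

theorem Bsum_amap (φ : ℕ → ℤ) : ∀ (ws : List ℕ) (g : Finset E),
    Bsum φ (g.image (amap ws)) = Bsum φ g
  | [], g => by congr 1; ext x; simp [amap]
  | d :: ws, g => by rw [image_amap_cons, Bsum_amap φ ws, Bsum_image]

theorem Tf_amap (c5 c4 A : ℤ) (ψ : ℕ → ℤ) (vs : List ℕ) (ws : List ℕ) (g : Finset E) :
    Tf c5 c4 A ψ vs (g.image (amap ws)) = Tf c5 c4 A ψ vs g := by
  unfold Tf
  simp only [Psum_amap, Bsum_amap, Finset.card_image_of_injective _ (amap_inj ws)]

theorem rsum_eq (n : ℕ) (f : ℕ → ℤ) : rsum n f = ∑ s ∈ range n, f s := by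
  induction n with
  | zero => rfl
  | succ n ih =>
    have : rsum (n + 1) f = rsum n f + f n := rfl
    rw [this, ih, Finset.sum_range_succ]

theorem dotv_cons (a b v : ℕ) (vs : List ℕ) :
    dotv a b (v :: vs) = vdig v a * vdig v b + dotv a b vs := rfl
theorem sumv_cons (a b v : ℕ) (vs : List ℕ) :
    sumv a b (v :: vs) = vdig v a + vdig v b + sumv a b vs := rfl

theorem dot_sum_id (a b : ℕ) : ∀ vs : List ℕ,
    (dotv a b vs : ℤ) - 524288 * sumv a b vs + (vs.length : ℤ) * 274877906944 =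
      (vs.map (fun v => ((vdig v a : ℤ) - 524288) * ((vdig v b : ℤ) - 524288))).sum
  | [] => by simp [dotv, sumv]
  | v :: vs => by
    rw [List.map_cons, List.sum_cons, ← dot_sum_id a b vs, dotv_cons, sumv_cons, List.length_cons]
    push_cast
    ring

theorem ka_eq (c : ℕ) : ka c = 32 * (c / 1024) + c / 32 % 32 := by
  have : ka c = 32 * (c >>> 10) + ((c >>> 5) &&& 31) := rfl
  rw [this, show (31 : ℕ) = 2 ^ 5 - 1 from rfl, Nat.and_two_pow_sub_one_eq_mod,
    Nat.shiftRight_eq_div_pow, Nat.shiftRight_eq_div_pow]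
theorem kb_eq (c : ℕ) : kb c = 32 * (c / 1024) + c % 32 := by
  have : kb c = 32 * (c >>> 10) + (c &&& 31) := rfl
  rw [this, show (31 : ℕ) = 2 ^ 5 - 1 from rfl, Nat.and_two_pow_sub_one_eq_mod,
    Nat.shiftRight_eq_div_pow]

theorem Wc_vfun (v c : ℕ) (hc : c < 3072) :
    Wc (vfun v) c = ((vdig v (ka c) : ℤ) - 524288) * ((vdig v (kb c) : ℤ) - 524288) := by
  unfold Wc Vc vfun
  rw [if_pos (by omega), if_pos (by omega), cls_spec _ (Nat.mod_lt _ (by norm_num)),
    cls_spec _ (Nat.mod_lt _ (by norm_num)), ka_eq, kb_eq]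

theorem chkQ_spec (q : ℕ) (vs : List ℕ) : ∀ n, chkQ q vs n = true → ∀ c < n,
    qdig q c + 524288 * sumv (ka c) (kb c) vs = 1125899906842624 + dotv (ka c) (kb c) vs := by
  intro n
  induction n with
  | zero => intro _ c hc; omega
  | succ n ih =>
    intro h c hc
    have e : chkQ q vs (n + 1) = cond (Nat.beq (Nat.add (qdig q n)
      (Nat.mul 524288 (sumv (ka n) (kb n) vs)))
      (Nat.add 1125899906842624 (dotv (ka n) (kb n) vs))) (chkQ q vs n) false := rfl
    rw [e] at h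
    obtain ⟨h1, h2⟩ := cond_and h
    rcases Nat.lt_succ_iff_lt_or_eq.1 hc with h3 | h3
    · exact ih h2 c h3
    · rw [h3]; exact Nat.eq_of_beq_eq_true h1

theorem qdig_Wc (q : ℕ) (vs : List ℕ) (h : chkQ q vs 3072 = true) (c : ℕ) (hc : c < 3072) :
    (qdig q c : ℤ) = offZ vs + (vs.map (fun v => Wc (vfun v) c)).sum := by
  have h1 := chkQ_spec q vs 3072 h c hc
  have h2 := dot_sum_id (ka c) (kb c) vs
  have h3 : (vs.map (fun v => Wc (vfun v) c)).sum =
      (vs.map (fun v => ((vdig v (ka c) : ℤ) - 524288) * ((vdig v (kb c) : ℤ) - 524288))).sum := by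
    congr 1
    exact List.map_congr_left fun v _ => Wc_vfun v c hc
  rw [h3, ← h2]
  unfold offZ
  have h4 : (qdig q c : ℤ) + 524288 * sumv (ka c) (kb c) vs =
      1125899906842624 + dotv (ka c) (kb c) vs := by exact_mod_cast h1
  linarith

theorem S_eq (q : ℕ) (vs : List ℕ) (h : chkQ q vs 3072 = true) (D : List (ℕ × ℕ))
    (hD : ∀ y ∈ D, y.1 < 3072) :
    (((D.map (fun x => x.2 * qdig q x.1)).sum : ℕ) : ℤ) - offZ vs * ((D.map Prod.snd).sum : ℕ) =
      (vs.map (fun v => (D.map (fun x => (x.2 : ℤ) * Wc (vfun v) x.1)).sum)).sum := by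
  induction D with
  | nil => simp
  | cons y D ih =>
    have ih := ih (fun z hz => hD z (List.mem_cons_of_mem _ hz))
    have h1 := qdig_Wc q vs h y.1 (hD y (by simp))
    have h2 : (vs.map (fun v => ((y :: D).map (fun x => (x.2 : ℤ) * Wc (vfun v) x.1)).sum)).sum =
        (y.2 : ℤ) * (vs.map (fun v => Wc (vfun v) y.1)).sum +
        (vs.map (fun v => (D.map (fun x => (x.2 : ℤ) * Wc (vfun v) x.1)).sum)).sum := by
      rw [← List.sum_map_mul_left, ← List.sum_map_add]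
      simp only [List.map_cons, List.sum_cons]
    rw [h2, ← ih]
    simp only [List.map_cons, List.sum_cons]
    push_cast
    rw [h1]
    ring

theorem Tf_rep (c5 c4 A : ℤ) (ψ : ℕ → ℤ) (vs : List ℕ) (q r m b w : ℕ)
    (hR : RepOK r m b w) (hb : b < 2 ^ 136) (hD : ∀ y ∈ unp 400 w, y.1 < 3072)
    (hq : chkQ q vs 3072 = true) :
    Tf c5 c4 A ψ vs (setOf r) =
      Tval c5 c4 A ψ m b ((sumD q 400 w 0 : ℤ) - offZ vs * (totH 400 w 0 : ℤ)) := by
  unfold Tf Tval
  rw [hR.card]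
  simp only [hR.hyp hb, rsum_eq]
  have h1 : (vs.map (fun v => Psum (vfun v) (setOf r))).sum =
      2 * ((sumD q 400 w 0 : ℤ) - offZ vs * (totH 400 w 0 : ℤ)) := by
    rw [sumD_eq, totH_eq, zero_add, zero_add, S_eq q vs hq _ hD, ← List.sum_map_mul_left]
    congr 1
    apply List.map_congr_left
    intro v _
    exact hR.pair _ (fun k m q hk => vfun_zero v k m q hk)
  rw [h1]
  congr 1
  refine Finset.sum_congr rfl fun s _ => ?_
  ring

/-- the interpolated pointwise inequality -/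
def PointIneq (I : Iv) (g : Finset E) : Prop :=
  ∀ s : ℝ, 0 ≤ s → s ≤ 1 →
    (1 - s) * (Tf I.c5 I.c40 I.A0 (nthZ I.ps0) I.v0 g : ℝ) +
      s * (Tf I.c5 I.c41 I.A1 (nthZ I.ps1) I.v1 g : ℝ) +
      32 * s * (1 - s) * ((I.A1 : ℝ) - I.A0) *
        ((Bsum (nthZ I.ps1) g : ℝ) - (Bsum (nthZ I.ps0) g : ℝ)) ≤
    (1 - s) * I.be0 + s * I.be1 - s * (1 - s) * I.ga

theorem quad_nonneg (p q d s : ℝ) (hp : 0 < p) (hq : 0 < q) (hd : d ≤ 0 ∨ d * d - 4 * p * q ≤ 0)
    (h0 : 0 ≤ s) (h1 : s ≤ 1) : 0 ≤ (1 - s) * p + s * q - s * (1 - s) * (d + p + q) := by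
  have e : (1 - s) * p + s * q - s * (1 - s) * (d + p + q) =
      (1 - s) ^ 2 * p + s ^ 2 * q - s * (1 - s) * d := by ring
  rw [e]
  rcases hd with hd | hd
  · have h2 : 0 ≤ s * (1 - s) * (-d) := mul_nonneg (mul_nonneg h0 (by linarith)) (by linarith)
    have h3 : 0 ≤ (1 - s) ^ 2 * p := by positivity
    have h4 : 0 ≤ s ^ 2 * q := by positivity
    linarith
  · have e2 : p * ((1 - s) ^ 2 * p + s ^ 2 * q - s * (1 - s) * d) =
        ((1 - s) * p - s * d / 2) ^ 2 + s ^ 2 * (p * q - d * d / 4) := by ring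
    have h3 : 0 ≤ p * ((1 - s) ^ 2 * p + s ^ 2 * q - s * (1 - s) * d) := by
      rw [e2]
      have : 0 ≤ p * q - d * d / 4 := by linarith
      positivity
    exact nonneg_of_mul_nonneg_right h3 hp

theorem forceZ_eq {α : Type} (z : ℤ) (f : ℤ → α) : forceZ z f = f z := by
  cases z with
  | ofNat n => exact force_eq n (fun k => f (Int.ofNat k))
  | negSucc n => exact force_eq n (fun k => f (Int.negSucc k))

theorem isPos_spec (z : ℤ) (h : isPos z = true) : 0 < z := by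
  cases z with
  | ofNat n =>
    have := Nat.le_of_ble_eq_true (show Nat.ble 1 n = true from h)
    simp only [Int.ofNat_eq_natCast]
    omega
  | negSucc n => exact absurd h (by simp [isPos])

theorem isNonpos_spec (z : ℤ) (h : isNonpos z = true) : z ≤ 0 := by
  cases z with
  | ofNat n =>
    have := Nat.eq_of_beq_eq_true (show Nat.beq n 0 = true from h)
    rw [this]; simp
  | negSucc n => exact (Int.negSucc_lt_zero n).le

theorem chkRepL_spec (I : Iv) (q0 q1 : ℕ) : ∀ l : List (ℕ × ℕ × ℕ), chkRepL I q0 q1 l = true →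
    ∀ x ∈ l, chkRep I q0 q1 x.1 x.2.1 x.2.2 = true := by
  intro l
  induction l with
  | nil => intro _ x hx; simp at hx
  | cons y l ih =>
    intro h x hx
    have e : chkRepL I q0 q1 (y :: l) = cond (chkRep I q0 q1 y.1 y.2.1 y.2.2)
      (chkRepL I q0 q1 l) false := rfl
    rw [e] at h
    obtain ⟨h1, h2⟩ := cond_and h
    rcases List.mem_cons.1 hx with rfl | hx
    · exact h1
    · exact ih h2 x hx

theorem chkRepLL_spec (I : Iv) (q0 q1 : ℕ) : ∀ l : List (List (ℕ × ℕ × ℕ)),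
    chkRepLL I q0 q1 l = true → ∀ x ∈ l, chkRepL I q0 q1 x = true := by
  intro l
  induction l with
  | nil => intro _ x hx; simp at hx
  | cons y l ih =>
    intro h x hx
    have e : chkRepLL I q0 q1 (y :: l) = cond (chkRepL I q0 q1 y)
      (chkRepLL I q0 q1 l) false := rfl
    rw [e] at h
    obtain ⟨h1, h2⟩ := cond_and h
    rcases List.mem_cons.1 hx with rfl | hx
    · exact h1
    · exact ih h2 x hx

theorem point_rep (I : Iv) (q0 q1 r m b w : ℕ) (hR : RepOK r m b w) (hb : b < 2 ^ 136)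
    (hD : ∀ y ∈ unp 400 w, y.1 < 3072) (h0 : chkQ q0 I.v0 3072 = true)
    (h1 : chkQ q1 I.v1 3072 = true) (h : chkRep I q0 q1 m b w = true) :
    PointIneq I (setOf r) := by
  have t0 := Tf_rep I.c5 I.c40 I.A0 (nthZ I.ps0) I.v0 q0 r m b w hR hb hD h0
  have t1 := Tf_rep I.c5 I.c41 I.A1 (nthZ I.ps1) I.v1 q1 r m b w hR hb hD h1
  unfold chkRep at h
  rw [force_eq, forceZ_eq, forceZ_eq, forceZ_eq, ← t0, ← t1] at h
  obtain ⟨hp, h⟩ := cond_and h
  obtain ⟨hq, h⟩ := cond_and h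
  have hp := isPos_spec _ hp
  have hq := isPos_spec _ hq
  have hd : ∀ z w : ℤ, cond (isNonpos z) true (isNonpos w) = true → z ≤ 0 ∨ w ≤ 0 := by
    intro z w hzw
    cases hz : isNonpos z with
    | true => exact Or.inl (isNonpos_spec z hz)
    | false => rw [hz] at hzw; exact Or.inr (isNonpos_spec w hzw)
  have hd := hd _ _ h
  have hps : (rsum 17 fun s => (nthZ I.ps1 s - nthZ I.ps0 s) * (bdig b s : ℤ)) =
      Bsum (nthZ I.ps1) (setOf r) - Bsum (nthZ I.ps0) (setOf r) := by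
    rw [rsum_eq, hR.hyp hb, hR.hyp hb, ← Finset.sum_sub_distrib]
    exact Finset.sum_congr rfl fun s _ => by ring
  rw [hps] at hd
  intro s hs0 hs1
  have hpR : (0 : ℝ) < I.be0 - Tf I.c5 I.c40 I.A0 (nthZ I.ps0) I.v0 (setOf r) := by exact_mod_cast hp
  have hqR : (0 : ℝ) < I.be1 - Tf I.c5 I.c41 I.A1 (nthZ I.ps1) I.v1 (setOf r) := by exact_mod_cast hq
  have key := quad_nonneg _ _
    (32 * ((I.A1 : ℝ) - I.A0) * ((Bsum (nthZ I.ps1) (setOf r) : ℝ) - Bsum (nthZ I.ps0) (setOf r)) +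
      I.ga - (I.be0 - Tf I.c5 I.c40 I.A0 (nthZ I.ps0) I.v0 (setOf r)) -
      (I.be1 - Tf I.c5 I.c41 I.A1 (nthZ I.ps1) I.v1 (setOf r))) s hpR hqR
    (by
      rcases hd with hd | hd
      · left; exact_mod_cast hd
      · right; exact_mod_cast hd) hs0 hs1
  linarith

theorem point_all (I : Iv) (h : IvOK I ALL) (g : Finset E) (hg : SF g) :
    PointIneq I g := by
  obtain ⟨q0, q1, h0, h1, h⟩ := h
  obtain ⟨ws, k, hk, he⟩ := classify allExt rep_zero g hg
  obtain ⟨l, hl, x, hx, hR, hb, hD⟩ := allRep k hk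
  have hrep := chkRepL_spec _ _ _ _ (chkRepLL_spec _ _ _ _ h l hl) x hx
  have hP := point_rep I _ _ _ _ _ _ hR hb hD h0 h1 hrep
  rw [← he] at hP
  intro s hs0 hs1
  have := hP s hs0 hs1
  rwa [Tf_amap, Tf_amap, Bsum_amap, Bsum_amap] at this

end Pool.Agent.Helper163
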