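import Pool.Agent.Helper163.Final

set_option autoImplicit false

namespace Pool.Agent.Helper163

open Finset

theorem three_cover (n : ℕ) (hn : 1 ≤ n) (F : Finset (Finset (Fin n)))
    (hdeg : ∀ i : Fin n, (2 : ℝ) ^ ((n : ℤ) - 4) < (((F.filter (fun A => i ∈ A)).card : ℕ) : ℝ)) :
    ∃ X ∈ F, ∃ Y ∈ F, ∃ Z ∈ F, X ∪ Y ∪ Z = Finset.univ := by
  classical
  by_contra hcon
  push Not at hcon
  let G : Finset (Finset (Fin n)) := univ.filter (fun x => ∃ X ∈ F, xᶜ ⊆ X)
  have hmemG : ∀ x, x ∈ G ↔ ∃ X ∈ F, xᶜ ⊆ X := by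
    intro x
    show x ∈ univ.filter (fun x => ∃ X ∈ F, xᶜ ⊆ X) ↔ _
    rw [mem_filter]
    exact ⟨fun h => h.2, fun h => ⟨mem_univ _, h⟩⟩
  have hU : Up G := by
    intro x hx y hxy
    rw [hmemG] at hx ⊢
    obtain ⟨X, hX, hxX⟩ := hx
    exact ⟨X, hX, (Finset.compl_subset_compl.2 hxy).trans hxX⟩
  have hC : Cross3 G G G := by
    intro x hx y hy z hz
    rw [hmemG] at hx hy hz
    obtain ⟨X, hX, hxX⟩ := hx
    obtain ⟨Y, hY, hyY⟩ := hy
    obtain ⟨Z, hZ, hzZ⟩ := hz
    rw [nonempty_iff_ne_empty]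
    intro h
    apply hcon X hX Y hY Z hZ
    rw [Finset.eq_univ_iff_forall]
    intro a
    have ha : a ∉ x ∩ y ∩ z := by rw [h]; simp
    simp only [mem_inter] at ha
    simp only [mem_union]
    by_cases hax : a ∈ x
    · by_cases hay : a ∈ y
      · by_cases haz : a ∈ z
        · exfalso; exact ha ⟨⟨hax, hay⟩, haz⟩
        · exact Or.inr (hzZ (by simpa using haz))
      · exact Or.inl (Or.inr (hyY (by simpa using hay)))
    · exact Or.inl (Or.inl (hxX (by simpa using hax)))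
  have hcard : ∀ i : Fin n, (F.filter (fun A => i ∈ A)).card ≤ (G.filter (fun x => i ∉ x)).card := by
    intro i
    refine Finset.card_le_card_of_injOn (fun S => Sᶜ) ?_ (compl_injective.injOn)
    intro S hS
    have hS' := Finset.mem_filter.1 (Finset.mem_coe.1 hS)
    refine Finset.mem_coe.2 (Finset.mem_filter.2 ⟨?_, by simpa using hS'.2⟩)
    rw [hmemG]
    exact ⟨S, hS'.1, by simp⟩
  have hd : ∀ i : Fin n, 1 / 8 < dd (dn i G) := by
    intro i
    unfold dd
    rw [card_dn, lt_div_iff₀ (by positivity)]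
    have h1 := hdeg i
    rw [zpow_sub₀ (by norm_num : (2 : ℝ) ≠ 0), zpow_natCast] at h1
    have h2 : ((F.filter (fun A => i ∈ A)).card : ℝ) ≤ ((G.filter (fun x => i ∉ x)).card : ℝ) := by
      exact_mod_cast hcard i
    have h3 : (2 : ℝ) ^ n / 2 ^ (4 : ℤ) = 2 ^ n / 16 := by norm_num
    rw [h3] at h1
    push_cast
    linarith
  have hne : G.Nonempty := by
    have h1 := hd ⟨0, hn⟩
    rw [nonempty_iff_ne_empty]
    intro h
    have h2 : dn (⟨0, hn⟩ : Fin n) G = ∅ := by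
      rw [← Finset.subset_empty, ← h]
      exact dn_sub hU _
    rw [h2, dd_empty] at h1
    linarith
  exact main_family G hU hC hne hd

end Pool.Agent.Helper163
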