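import Pool.Agent.Helper163.Counts

set_option autoImplicit false

namespace Pool.Agent.Helper163

open Finset

theorem Tk_one {W : Type*} [AddCommMonoid W] [Fintype W] [DecidableEq W] (S : Finset W) :
    Tk 1 S = S.card := by
  unfold Tk
  refine Finset.card_bij' (fun y _ => y 0) (fun x _ => fun _ => x) ?_ ?_ ?_ ?_
  · intro y hy
    exact (mem_filter.1 hy).2.1 0
  · intro x hx
    rw [mem_filter]
    refine ⟨mem_univ _, fun _ => hx, ?_⟩
    simpa using hx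
  · intro y _
    funext i
    rw [Subsingleton.elim i 0]
  · intro x _; rfl

theorem Tk_two {W : Type*} [AddCommMonoid W] [Fintype W] [DecidableEq W] (S : Finset W)
    (hS : SF S) : Tk 2 S = 0 := by
  unfold Tk
  rw [Finset.card_eq_zero, Finset.filter_eq_empty_iff]
  rintro y - ⟨h1, h2⟩
  rw [Fin.sum_univ_two] at h2
  exact hS _ (h1 0) _ (h1 1) h2

variable {n : ℕ}

/-- real Fourier coefficient -/
noncomputable def fh (A : Finset (Fin n → ZMod 2)) (h : Fin n → ZMod 2) : ℝ :=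
  ((∑ u ∈ A, ch h u : ℤ) : ℝ) / 2 ^ n

theorem fh_pow (A : Finset (Fin n → ZMod 2)) (k : ℕ) :
    ∑ h : Fin n → ZMod 2, fh A h ^ (k + 1) = (Tk k A : ℝ) / (2 ^ n) ^ k := by
  have h1 := fourier A k
  have h2 : ((∑ h : Fin n → ZMod 2, (∑ u ∈ A, ch h u) ^ (k + 1) : ℤ) : ℝ) =
      2 ^ n * (Tk k A : ℝ) := by
    rw [h1]; push_cast; rfl
  rw [Int.cast_sum] at h2
  have h3 : ∑ h : Fin n → ZMod 2, fh A h ^ (k + 1) =
      (∑ h : Fin n → ZMod 2, (((∑ u ∈ A, ch h u) ^ (k + 1) : ℤ) : ℝ)) / (2 ^ n) ^ (k + 1) := by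
    rw [Finset.sum_div]
    refine Finset.sum_congr rfl fun h _ => ?_
    unfold fh
    rw [div_pow]
    congr 1
    rw [Int.cast_pow]
  rw [h3, h2, pow_succ]
  field_simp

theorem fh_zero (A : Finset (Fin n → ZMod 2)) : fh A 0 = (A.card : ℝ) / 2 ^ n := by
  unfold fh
  congr 1
  have : ∀ u ∈ A, ch (0 : Fin n → ZMod 2) u = 1 := by
    intro u _
    unfold ch
    rw [dot_zero_left]; simp
  rw [Finset.sum_congr rfl this]
  simp

theorem spectral (A : Finset (Fin n → ZMod 2)) (hA : SF A) (a l t : ℝ)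
    (ha : a = (A.card : ℝ) / 2 ^ n) (hl : ∀ h : Fin n → ZMod 2, h ≠ 0 → -l ≤ fh A h) :
    (a + l) * a ^ 2 * (a - t) ^ 2 ≤
      (Tk 4 A : ℝ) / (2 ^ n) ^ 4 + (l - 2 * t) * ((Tk 3 A : ℝ) / (2 ^ n) ^ 3) + l * t ^ 2 * a := by
  have e2 := fh_pow A 1
  have e3 := fh_pow A 2
  have e4 := fh_pow A 3
  have e5 := fh_pow A 4
  rw [Tk_one, pow_one, ← ha] at e2
  rw [Tk_two A hA, Nat.cast_zero, zero_div] at e3
  have hsum : ∑ h : Fin n → ZMod 2, (fh A h + l) * fh A h ^ 2 * (fh A h - t) ^ 2 =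
      (Tk 4 A : ℝ) / (2 ^ n) ^ 4 + (l - 2 * t) * ((Tk 3 A : ℝ) / (2 ^ n) ^ 3) + l * t ^ 2 * a := by
    rw [← e5, ← e4]
    have : ∀ h : Fin n → ZMod 2, (fh A h + l) * fh A h ^ 2 * (fh A h - t) ^ 2 =
        fh A h ^ (4 + 1) + (l - 2 * t) * fh A h ^ (3 + 1) + (t ^ 2 - 2 * l * t) * fh A h ^ (2 + 1) +
          l * t ^ 2 * fh A h ^ (1 + 1) := by
      intro h; ring
    simp only [this]
    rw [Finset.sum_add_distrib, Finset.sum_add_distrib, Finset.sum_add_distrib, ← Finset.mul_sum,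
      ← Finset.mul_sum, ← Finset.mul_sum, e3, e2]
    ring
  rw [← hsum, ← Finset.add_sum_erase (univ : Finset (Fin n → ZMod 2)) _ (mem_univ 0), fh_zero, ← ha]
  have : 0 ≤ ∑ h ∈ (univ : Finset (Fin n → ZMod 2)).erase 0,
      (fh A h + l) * fh A h ^ 2 * (fh A h - t) ^ 2 := by
    refine Finset.sum_nonneg fun h hh => ?_
    have := hl h (Finset.ne_of_mem_erase hh)
    have h1 : 0 ≤ fh A h + l := by linarith
    positivity
  linarith

theorem hoffman (A : Finset (Fin n → ZMod 2)) (hA : SF A) (a l : ℝ)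
    (ha : a = (A.card : ℝ) / 2 ^ n) (hl : ∀ h : Fin n → ZMod 2, h ≠ 0 → -l ≤ fh A h) :
    (a + l) * a ^ 2 ≤ l * a := by
  have e2 := fh_pow A 1
  have e3 := fh_pow A 2
  rw [Tk_one, pow_one, ← ha] at e2
  rw [Tk_two A hA, Nat.cast_zero, zero_div] at e3
  have hsum : ∑ h : Fin n → ZMod 2, (fh A h + l) * fh A h ^ 2 = l * a := by
    have : ∀ h : Fin n → ZMod 2, (fh A h + l) * fh A h ^ 2 =
        fh A h ^ (2 + 1) + l * fh A h ^ (1 + 1) := by
      intro h; ring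
    simp only [this]
    rw [Finset.sum_add_distrib, ← Finset.mul_sum, e3, e2]
    ring
  rw [← hsum, ← Finset.add_sum_erase (univ : Finset (Fin n → ZMod 2)) _ (mem_univ 0), fh_zero, ← ha]
  have : 0 ≤ ∑ h ∈ (univ : Finset (Fin n → ZMod 2)).erase 0, (fh A h + l) * fh A h ^ 2 := by
    refine Finset.sum_nonneg fun h hh => ?_
    have := hl h (Finset.ne_of_mem_erase hh)
    have h1 : 0 ≤ fh A h + l := by linarith
    positivity
  linarith

end Pool.Agent.Helper163
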