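import Pool.Agent.Helper163.Kern

set_option autoImplicit false

namespace Pool.Agent.Helper163

theorem chkDataL_split (m : Nat) : ∀ (L : List (Nat × Nat × Nat)) (j : Nat),
    chkDataL (L.take m) j = true → chkDataL (L.drop m) (j + m) = true → chkDataL L j = true := by
  induction m with
  | zero => intro L j _ h; exact h
  | succ m ih =>
    intro L j h1 h2
    cases L with
    | nil => rfl
    | cons x L =>
      have e1 : chkDataL ((x :: L).take (m + 1)) j = cond
        (force (rep j) fun r => chkData r x.1 x.2.1 x.2.2) (chkDataL (L.take m) (Nat.succ j))
        false := rfl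
      have e2 : chkDataL (x :: L) j = cond (force (rep j) fun r => chkData r x.1 x.2.1 x.2.2)
        (chkDataL L (Nat.succ j)) false := rfl
      rw [e1] at h1
      rw [e2]
      cases hc : (force (rep j) fun r => chkData r x.1 x.2.1 x.2.2) with
      | false => rw [hc] at h1; exact absurd h1 (by simp)
      | true =>
        rw [hc] at h1
        refine ih L (Nat.succ j) h1 ?_
        have e3 : Nat.succ j + m = j + (m + 1) := by omega
        rw [e3]
        exact h2

theorem piece (L : List (Nat × Nat × Nat)) (j k m : Nat)
    (h1 : chkDataL ((L.drop k).take m) (j + k) = true)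
    (h2 : chkDataL (L.drop (k + m)) (j + (k + m)) = true) :
    chkDataL (L.drop k) (j + k) = true := by
  refine chkDataL_split m _ _ h1 ?_
  rw [List.drop_drop, Nat.add_assoc]
  exact h2

end Pool.Agent.Helper163
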