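import Pool.Agent.Helper163.Walk
import Pool.Agent.Helper163.Kern2

set_option autoImplicit false

namespace Pool.Agent.Helper163

open Finset

theorem allN_spec (f : ℕ → Bool) : ∀ n, allN n f = true → ∀ k < n, f k = true := by
  intro n
  induction n with
  | zero => intro _ k hk; omega
  | succ n ih =>
    intro h k hk
    have h1 : allN (n + 1) f = cond (f n) (allN n f) false := rfl
    rw [h1] at h
    cases hf : f n with
    | false => rw [hf] at h; exact absurd h (by simp)
    | true =>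
      rw [hf] at h
      rcases Nat.lt_succ_iff_lt_or_eq.1 hk with h2 | h2
      · exact ih h k h2
      · rw [h2]; exact hf

theorem all3_spec (f : ℕ → Bool) (h : ∀ c < 16, all3 c f = true) : ∀ P < 65536, f P = true := by
  intro P hP
  have h1 := allN_spec _ 16 (h (P / 4096) (by omega)) (P / 256 % 16) (by omega)
  have h2 := allN_spec _ 256 h1 (P % 256) (by omega)
  simp only [force_eq] at h2
  have h3 : Nat.add (Nat.mul 4096 (P / 4096)) (Nat.add (Nat.mul 256 (P / 256 % 16)) (P % 256)) = P := by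
    show 4096 * (P / 4096) + (256 * (P / 256 % 16) + P % 256) = P
    omega
  rwa [h3] at h2

/-- number of ones among the first 16 bits -/
def pcS (P : ℕ) : ℕ := ∑ i ∈ range 16, if P.testBit i = true then 1 else 0

theorem pcS_rec (P : ℕ) (hP : P < 65536) : pcS P = pcS (P >>> 1) + (P &&& 1) := by
  unfold pcS
  rw [Finset.sum_range_succ', Finset.sum_range_succ (fun i => if (P >>> 1).testBit i = true then 1 else 0)]
  have h1 : (P >>> 1).testBit 15 = false := by
    rw [Nat.testBit_shiftRight]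
    exact Nat.testBit_lt_two_pow (by norm_num; omega)
  rw [h1]
  have h2 : (if P.testBit 0 = true then 1 else 0) = P &&& 1 := by
    rw [Nat.and_one_is_mod, Nat.testBit_zero]
    rcases Nat.mod_two_eq_zero_or_one P with h | h <;> simp [h]
  rw [h2]
  simp only [Nat.testBit_shiftRight]
  have h3 : ∀ i, 1 + i = i + 1 := fun i => Nat.add_comm _ _
  simp only [h3]
  simp

theorem pcT_eq (hc : ∀ c < 16, all3 c chkPc = true) : ∀ P < 65536, pcT P = pcS P := by
  have hall := all3_spec _ hc
  intro P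
  induction P using Nat.strong_induction_on with
  | _ P ih =>
    intro hP
    by_cases h0 : P = 0
    · subst h0; decide
    · have h1 := Nat.eq_of_beq_eq_true (hall P hP)
      have h2 : pcT P = pcT (P >>> 1) + (P &&& 1) := h1
      have h3 : P >>> 1 < P := by rw [Nat.shiftRight_eq_div_pow]; omega
      rw [h2, ih (P >>> 1) h3 (by omega), ← pcS_rec P hP]

theorem testBit_65535 (s i : ℕ) : (s &&& 65535).testBit i = (s.testBit i && decide (i < 16)) := by
  rw [Nat.testBit_and, show (65535 : ℕ) = 2 ^ 16 - 1 from rfl, Nat.testBit_two_pow_sub_one]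

theorem lo0_eq (s : ℕ) : lo0 s = s &&& 65535 := rfl
theorem lo1_eq (s : ℕ) : lo1 s = (s >>> 16) &&& 65535 := rfl
theorem lo2_eq (s : ℕ) : lo2 s = (s >>> 32) &&& 65535 := rfl
theorem lo3_eq (s : ℕ) : lo3 s = s >>> 48 := rfl

theorem lo0_lt (s : ℕ) : lo0 s < 65536 := by
  rw [lo0_eq]; exact lt_of_le_of_lt Nat.and_le_right (by norm_num)
theorem lo1_lt (s : ℕ) : lo1 s < 65536 := by
  rw [lo1_eq]; exact lt_of_le_of_lt Nat.and_le_right (by norm_num)
theorem lo2_lt (s : ℕ) : lo2 s < 65536 := by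
  rw [lo2_eq]; exact lt_of_le_of_lt Nat.and_le_right (by norm_num)
theorem lo3_lt (s : ℕ) (hs : s < 2 ^ 64) : lo3 s < 65536 := by
  rw [lo3_eq, Nat.shiftRight_eq_div_pow]
  rw [Nat.div_lt_iff_lt_mul (by norm_num)]
  exact lt_of_lt_of_eq hs (by norm_num)

theorem testBit_lo0 (s : ℕ) {i : ℕ} (hi : i < 16) : (lo0 s).testBit i = s.testBit i := by
  rw [lo0_eq, testBit_65535]; simp [hi]
theorem testBit_lo1 (s : ℕ) {i : ℕ} (hi : i < 16) : (lo1 s).testBit i = s.testBit (16 + i) := by
  rw [lo1_eq, testBit_65535, Nat.testBit_shiftRight]; simp [hi]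
theorem testBit_lo2 (s : ℕ) {i : ℕ} (hi : i < 16) : (lo2 s).testBit i = s.testBit (32 + i) := by
  rw [lo2_eq, testBit_65535, Nat.testBit_shiftRight]; simp [hi]
theorem testBit_lo3 (s : ℕ) (i : ℕ) : (lo3 s).testBit i = s.testBit (48 + i) := by
  rw [lo3_eq, Nat.testBit_shiftRight]

theorem sum64 {M : Type*} [AddCommMonoid M] (F : ℕ → M) : ∑ u ∈ range 64, F u =
    ((∑ u ∈ range 16, F u + ∑ u ∈ range 16, F (16 + u)) + ∑ u ∈ range 16, F (32 + u)) +
      ∑ u ∈ range 16, F (48 + u) := by
  rw [show (64 : ℕ) = 16 + 16 + 16 + 16 from rfl, Finset.sum_range_add, Finset.sum_range_add,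
    Finset.sum_range_add]

theorem card_setOf (s : ℕ) : (setOf s).card =
    (pcS (lo0 s) + pcS (lo1 s)) + (pcS (lo2 s) + pcS (lo3 s)) := by
  have h := card_filter_setOf s (fun _ => True)
  rw [Finset.filter_true_of_mem (fun _ _ => trivial)] at h
  rw [h, sum64, add_assoc]
  unfold pcS
  simp only [and_true]
  refine congrArg₂ (· + ·) (congrArg₂ (· + ·) ?_ ?_) (congrArg₂ (· + ·) ?_ ?_) <;>
    refine Finset.sum_congr rfl fun u hu => ?_
  · rw [testBit_lo0 _ (mem_range.1 hu)]
  · rw [testBit_lo1 _ (mem_range.1 hu)]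
  · rw [testBit_lo2 _ (mem_range.1 hu)]
  · rw [testBit_lo3]

theorem dot32 : ∀ u < 64, (dot (vec 32) (vec u) = 0) ↔ u < 32 := by decide +kernel
theorem dot16 : ∀ u < 64, (dot (vec 16) (vec u) = 0) ↔ (u < 16 ∨ (32 ≤ u ∧ u < 48)) := by
  decide +kernel

theorem h0c_setOf (s : ℕ) : h0c (setOf s) (vec 32) = pcS (lo0 s) + pcS (lo1 s) := by
  unfold h0c
  rw [card_filter_setOf, sum64]
  have z2 : ∑ u ∈ range 16, (if s.testBit (32 + u) = true ∧ dot (vec 32) (vec (32 + u)) = 0
      then 1 else 0) = 0 := by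
    refine Finset.sum_eq_zero fun u hu => if_neg ?_
    have := mem_range.1 hu
    rw [dot32 _ (by omega)]; omega
  have z3 : ∑ u ∈ range 16, (if s.testBit (48 + u) = true ∧ dot (vec 32) (vec (48 + u)) = 0
      then 1 else 0) = 0 := by
    refine Finset.sum_eq_zero fun u hu => if_neg ?_
    have := mem_range.1 hu
    rw [dot32 _ (by omega)]; omega
  rw [z2, z3, add_zero, add_zero]
  unfold pcS
  refine congrArg₂ (· + ·) ?_ ?_ <;>
    refine Finset.sum_congr rfl fun u hu => ?_ <;> have hu' := mem_range.1 hu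
  · rw [testBit_lo0 _ hu']
    have := (dot32 u (by omega)).2 (by omega)
    simp [this]
  · rw [testBit_lo1 _ hu']
    have := (dot32 (16 + u) (by omega)).2 (by omega)
    simp [this]

theorem kU_setOf (s : ℕ) : kU (setOf s) (vec 32) (vec 16) = pcS (lo0 s) := by
  unfold kU
  rw [card_filter_setOf, sum64]
  have z1 : ∑ u ∈ range 16, (if s.testBit (16 + u) = true ∧ dot (vec 32) (vec (16 + u)) = 0 ∧
      dot (vec 16) (vec (16 + u)) = 0 then 1 else 0) = 0 := by
    refine Finset.sum_eq_zero fun u hu => if_neg ?_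
    have := mem_range.1 hu
    rw [dot16 _ (by omega)]; omega
  have z2 : ∑ u ∈ range 16, (if s.testBit (32 + u) = true ∧ dot (vec 32) (vec (32 + u)) = 0 ∧
      dot (vec 16) (vec (32 + u)) = 0 then 1 else 0) = 0 := by
    refine Finset.sum_eq_zero fun u hu => if_neg ?_
    have := mem_range.1 hu
    rw [dot32 _ (by omega)]; omega
  have z3 : ∑ u ∈ range 16, (if s.testBit (48 + u) = true ∧ dot (vec 32) (vec (48 + u)) = 0 ∧
      dot (vec 16) (vec (48 + u)) = 0 then 1 else 0) = 0 := by
    refine Finset.sum_eq_zero fun u hu => if_neg ?_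
    have := mem_range.1 hu
    rw [dot32 _ (by omega)]; omega
  rw [z1, z2, z3, add_zero, add_zero, add_zero]
  unfold pcS
  refine Finset.sum_congr rfl fun u hu => ?_
  have hu' := mem_range.1 hu
  rw [testBit_lo0 _ hu']
  have a := (dot32 u (by omega)).2 (by omega)
  have b := (dot16 u (by omega)).2 (by omega)
  simp [a, b]

theorem mem_trn (S : Finset E) (d x : E) : x ∈ trn S d ↔ x + d ∈ S := by
  unfold trn
  rw [mem_image]
  constructor
  · rintro ⟨y, hy, rfl⟩; rwa [add_assoc, add_self_E, add_zero]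
  · intro h; exact ⟨x + d, h, by rw [add_assoc, add_self_E, add_zero]⟩

theorem xor32 : ∀ u < 64, (u ^^^ 32 < 64) ∧ ((u ^^^ 32 < 16) ↔ (32 ≤ u ∧ u < 48)) ∧
    (32 ≤ u → u < 48 → 32 + (u ^^^ 32) = u) := by decide +kernel
theorem xor48 : ∀ u < 64, (u ^^^ 48 < 64) ∧ ((u ^^^ 48 < 16) ↔ (48 ≤ u)) ∧
    (48 ≤ u → 48 + (u ^^^ 48) = u) := by decide +kernel

theorem testBit_big {P i : ℕ} (hP : P < 65536) (hi : 16 ≤ i) : P.testBit i = false := by
  apply Nat.testBit_lt_two_pow
  calc P < 2 ^ 16 := hP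
    _ ≤ 2 ^ i := Nat.pow_le_pow_right (by norm_num) hi

theorem z2_ne_one {a : ZMod 2} : a = 1 ↔ ¬ a = 0 := by revert a; decide

theorem S1_setOf (s : ℕ) : S1 (setOf s) (vec 32) (vec 16) = trn (setOf (lo2 s)) (vec 32) := by
  ext x
  obtain ⟨u, hu, rfl⟩ := vec_surj x
  rw [mem_trn, ← vec_xor, mem_setOf_vec _ (xor32 u hu).1]
  unfold S1
  rw [mem_filter, mem_setOf_vec _ hu, z2_ne_one, dot32 u hu, dot16 u hu]
  by_cases h : 32 ≤ u ∧ u < 48
  · have h1 := (xor32 u hu).2.1.2 h
    rw [testBit_lo2 _ h1, (xor32 u hu).2.2 h.1 h.2]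
    constructor
    · exact fun q => q.1
    · exact fun q => ⟨q, by omega, by omega⟩
  · constructor
    · rintro ⟨_, a, b⟩; omega
    · intro q
      have h1 : 16 ≤ u ^^^ 32 := by
        by_contra h2
        exact h ((xor32 u hu).2.1.1 (by omega))
      rw [testBit_big (lo2_lt s) h1] at q
      exact absurd q (by simp)

theorem S2_setOf (s : ℕ) (hs : s < 2 ^ 64) :
    S2 (setOf s) (vec 32) (vec 16) = trn (setOf (lo3 s)) (vec 48) := by
  ext x
  obtain ⟨u, hu, rfl⟩ := vec_surj x
  rw [mem_trn, ← vec_xor, mem_setOf_vec _ (xor48 u hu).1]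
  unfold S2
  rw [mem_filter, mem_setOf_vec _ hu, z2_ne_one, z2_ne_one, dot32 u hu, dot16 u hu]
  by_cases h : 48 ≤ u
  · rw [testBit_lo3, (xor48 u hu).2.2 h]
    constructor
    · exact fun q => q.1
    · exact fun q => ⟨q, by omega, by omega⟩
  · constructor
    · rintro ⟨_, a, b⟩; omega
    · intro q
      have h1 : 16 ≤ u ^^^ 48 := by
        by_contra h2
        exact h ((xor48 u hu).2.1.1 (by omega))
      rw [testBit_big (lo3_lt s hs) h1] at q
      exact absurd q (by simp)

theorem card_setOf_small {P : ℕ} (hP : P < 65536) : (setOf P).card = pcS P := by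
  have e0 : lo0 P = P := by
    rw [lo0_eq]
    apply Nat.eq_of_testBit_eq
    intro i
    rw [testBit_65535]
    by_cases hi : i < 16
    · simp [hi]
    · simp [hi, testBit_big hP (by omega : 16 ≤ i)]
  have z : ∀ k, 16 ≤ k → pcS (P >>> k) = 0 := by
    intro k hk
    unfold pcS
    refine Finset.sum_eq_zero fun i _ => ?_
    rw [Nat.testBit_shiftRight, testBit_big hP (by omega)]; simp
  have z' : ∀ k, 16 ≤ k → pcS (P >>> k &&& 65535) = 0 := by
    intro k hk
    unfold pcS
    refine Finset.sum_eq_zero fun i _ => ?_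
    rw [testBit_65535, Nat.testBit_shiftRight, testBit_big hP (by omega)]; simp
  rw [card_setOf, e0, lo1_eq, lo2_eq, lo3_eq, z' 16 (by norm_num), z' 32 (by norm_num),
    z 48 (by norm_num)]
  simp

def m16f (h : ℕ) : ℕ := m16.getD h 0

theorem m16_spec : ∀ η < 64, ∀ u < 16, ((m16f (η % 16)).testBit u = true ↔
    dot (vec η) (vec u) = 1) := by decide +kernel

theorem card1_small {P : ℕ} (hP : P < 65536) (η : ℕ) (hη : η < 64) :
    ((setOf P).filter (fun u => dot (vec η) u = 1)).card = pcS (P &&& m16f (η % 16)) := by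
  rw [card_filter_setOf, sum64]
  have z : ∀ k, 16 ≤ k → ∑ u ∈ range 16, (if P.testBit (k + u) = true ∧
      dot (vec η) (vec (k + u)) = 1 then 1 else 0) = 0 := by
    intro k hk
    refine Finset.sum_eq_zero fun u _ => if_neg ?_
    rw [testBit_big hP (by omega)]; simp
  rw [z 16 (by norm_num), z 32 (by norm_num), z 48 (by norm_num), add_zero, add_zero, add_zero]
  unfold pcS
  refine Finset.sum_congr rfl fun u hu => ?_
  have := m16_spec η hη u (mem_range.1 hu)
  simp only [Nat.testBit_and, Bool.and_eq_true, this]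

theorem card01 (S : Finset E) (h : E) :
    (S.filter (fun u => dot h u = 0)).card + (S.filter (fun u => dot h u = 1)).card = S.card := by
  rw [← Finset.card_filter_add_card_filter_not (s := S) (fun u => dot h u = 0)]
  congr 2
  refine Finset.filter_congr fun u _ => z2_ne_one

/-- invariant of a pattern -/
def stS (P : ℕ) : ℕ :=
  ∑ h ∈ range 16, (pcS (P &&& m16f h) * (pcS P - pcS (P &&& m16f h))) ^ 2

theorem st_small {P : ℕ} (hP : P < 65536) : st (setOf P) = 4 * stS P := by
  unfold st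
  rw [sum_E]
  have h1 : ∀ η ∈ range 64, (((setOf P).filter (fun u => dot (vec η) u = 0)).card *
      ((setOf P).filter (fun u => dot (vec η) u = 1)).card) ^ 2 =
      (pcS (P &&& m16f (η % 16)) * (pcS P - pcS (P &&& m16f (η % 16)))) ^ 2 := by
    intro η hη
    have a := card01 (setOf P) (vec η)
    rw [card1_small hP η (mem_range.1 hη), card_setOf_small hP] at a
    rw [card1_small hP η (mem_range.1 hη), mul_comm]
    congr 2
    omega
  rw [Finset.sum_congr rfl h1, sum64]
  unfold stS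
  have h2 : ∀ k, k % 16 = 0 → ∑ u ∈ range 16, (pcS (P &&& m16f ((k + u) % 16)) *
      (pcS P - pcS (P &&& m16f ((k + u) % 16)))) ^ 2 = ∑ u ∈ range 16, (pcS (P &&& m16f u) *
      (pcS P - pcS (P &&& m16f u))) ^ 2 := by
    intro k hk
    refine Finset.sum_congr rfl fun u hu => ?_
    have : (k + u) % 16 = u := by have := mem_range.1 hu; omega
    rw [this]
  have h3 := h2 0 rfl
  simp only [zero_add] at h3
  rw [h3, h2 16 rfl, h2 32 rfl, h2 48 rfl]
  ring

theorem stL_cons (P m h : ℕ) (l : List ℕ) : stL P m (h :: l) =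
    (pcT (P &&& h) * (m - pcT (P &&& h))) ^ 2 + stL P m l := by
  have : stL P m (h :: l) = Nat.add (force (pcT (Nat.land P h)) fun a =>
      force (Nat.mul a (Nat.sub m a)) fun x => Nat.mul x x) (stL P m l) := rfl
  rw [this, force_eq, force_eq, pow_two]
  rfl

theorem stL_eq (hpc : ∀ P < 65536, pcT P = pcS P) {P : ℕ} (hP : P < 65536) (m : ℕ) :
    stL P m m16 = ∑ h ∈ range 16, (pcS (P &&& m16f h) * (m - pcS (P &&& m16f h))) ^ 2 := by
  have h1 : ∀ h, pcT (P &&& h) = pcS (P &&& h) := fun h =>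
    hpc _ (lt_of_le_of_lt Nat.and_le_left hP)
  have h2 : ∀ l : List ℕ, stL P m l =
      (l.map (fun h => (pcS (P &&& h) * (m - pcS (P &&& h))) ^ 2)).sum := by
    intro l
    induction l with
    | nil => rfl
    | cons a l ih => rw [stL_cons, ih, List.map_cons, List.sum_cons, h1]
  rw [h2]
  simp only [m16, m16f, Finset.sum_range_succ, Finset.sum_range_zero]
  simp [add_assoc]

theorem cl_spec (hpc : ∀ P < 65536, pcT P = pcS P) (hc : ∀ c < 16, all3 c chkCl = true) :
    ∀ P < 65536, kM (clT P) = pcS P ∧ kQ (clT P) = stS P := by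
  intro P hP
  have h := all3_spec _ hc P hP
  unfold chkCl at h
  rw [force_eq, force_eq] at h
  cases h1 : Nat.beq (kM (clT P)) (pcT P) with
  | false => rw [h1] at h; exact absurd h (by simp)
  | true =>
    rw [h1] at h
    have h2 := Nat.eq_of_beq_eq_true h1
    have h3 := Nat.eq_of_beq_eq_true h
    rw [hpc P hP] at h2 h3
    rw [stL_eq hpc hP] at h3
    exact ⟨h2, h3⟩

end Pool.Agent.Helper163
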