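import Pool.Agent.Helper163.Moves

set_option autoImplicit false

namespace Pool.Agent.Helper163

open Finset

/-- the states at which the walk evaluates -/
def states : List ℕ → ℕ → List ℕ
  | [], _ => []
  | d :: ms, g => if 64 ≤ d then states ms (mvC (d &&& 63) g)
      else mvC (d &&& 63) g :: states ms (mvC (d &&& 63) g)

theorem walk_eq (f : ℕ → ℕ) (ms : List ℕ) : ∀ g acc, walk f ms g acc =
    acc + ((states ms g).map f).sum := by
  induction ms with
  | nil => intro g acc; rfl
  | cons d ms ih =>
    intro g acc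
    have h1 : walk f (d :: ms) g acc = force (mvC (Nat.land d 63) g) fun g' =>
      cond (Nat.ble 64 d) (walk f ms g' acc)
        (force (Nat.add acc (f g')) fun acc' => walk f ms g' acc') := rfl
    rw [h1, force_eq, force_eq]
    have h2 : Nat.land d 63 = d &&& 63 := rfl
    rw [h2]
    unfold states
    by_cases hd : 64 ≤ d
    · rw [if_pos hd, Nat.ble_eq_true_of_le hd]
      exact ih _ _
    · rw [if_neg hd]
      have : Nat.ble 64 d = false := by
        by_contra h
        rw [Bool.not_eq_false] at h
        exact hd (Nat.le_of_ble_eq_true h)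
      rw [this]
      show walk f ms (mvC (d &&& 63) g) (acc + f (mvC (d &&& 63) g)) = _
      rw [ih, List.map_cons, List.sum_cons]
      ring

theorem land63_lt (d : ℕ) : d &&& 63 < 64 := lt_of_le_of_lt Nat.and_le_right (by norm_num)

theorem states_lt (ms : List ℕ) : ∀ g, g < 2 ^ 64 → ∀ s ∈ states ms g, s < 2 ^ 64 := by
  induction ms with
  | nil => intro g _ s hs; simp [states] at hs
  | cons d ms ih =>
    intro g hg s hs
    have hm := mvC_lt (d &&& 63) (land63_lt d) g hg
    unfold states at hs
    split_ifs at hs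
    · exact ih _ hm s hs
    · rcases List.mem_cons.1 hs with rfl | h
      · exact hm
      · exact ih _ hm s h

/-- indices of the functionals seen by the walk -/
def flN : List ℕ → (ℕ → ℕ) → ℕ → List ℕ
  | [], _, _ => []
  | d :: ms, φ, η => if 64 ≤ d then flN ms (fun x => φ (tu (td (d &&& 63)) x)) η
      else φ (tu (td (d &&& 63)) η) :: flN ms (fun x => φ (tu (td (d &&& 63)) x)) η

theorem td_lt {d : ℕ} (hd : d < 64) : td d < 64 := by
  unfold td; split_ifs <;> omega

theorem states_sum (G : Finset E → E → ℤ) (G0 : ℕ → ℤ) (η0 : ℕ) (hη : η0 < 64) (ms : List ℕ) :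
    (∀ d ∈ ms, ∀ (g : Finset E) (h : E), G (g.image (mvE (d &&& 63))) h =
      G g (mvE (td (d &&& 63)) h)) →
    ∀ (φ : ℕ → ℕ) (s : ℕ), (∀ η < 64, G (setOf s) (vec η) = G0 (φ η)) →
      ((states ms s).map (fun s' => G (setOf s') (vec η0))).sum =
        ((flN ms φ η0).map G0).sum := by
  induction ms with
  | nil => intro _ φ s _; rfl
  | cons d ms ih =>
    intro hinv φ s hφ
    have hstep : ∀ η < 64, G (setOf (mvC (d &&& 63) s)) (vec η) = G0 (φ (tu (td (d &&& 63)) η)) := by
      intro η hη
      rw [setOf_mvC _ (land63_lt d), hinv d (by simp), mvE_vec]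
      exact hφ _ (tu_lt _ (td_lt (land63_lt d)) _ hη)
    have ih' := ih (fun d' hd' => hinv d' (List.mem_cons_of_mem _ hd'))
      (fun x => φ (tu (td (d &&& 63)) x)) (mvC (d &&& 63) s) hstep
    unfold states flN
    split_ifs
    · exact ih'
    · rw [List.map_cons, List.sum_cons, List.map_cons, List.sum_cons, ih', hstep η0 hη]

theorem outer_perm : (32 :: flN outerMoves id 32).Perm (List.range' 1 63) := by decide +kernel

theorem inner_perm : (16 :: flN innerMoves id 16).Perm (List.range' 1 31) := by decide +kernel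

theorem inner_fix : ∀ d ∈ innerMoves, tu (td (d &&& 63)) 32 = 32 := by decide +kernel

theorem list_range' (f : ℕ → ℤ) (n : ℕ) : ((List.range' 1 n).map f).sum =
    ∑ u ∈ range (n + 1), if u ≠ 0 then f u else 0 := by
  induction n with
  | zero => simp
  | succ n ih =>
    rw [Finset.sum_range_succ, ← ih, List.range'_concat]
    simp [Nat.add_comm]

theorem vec_zero : vec 0 = 0 := by
  funext i; simp [vec]

theorem vec_ne_zero {u : ℕ} (hu : u < 64) : vec u ≠ 0 ↔ u ≠ 0 := by
  constructor
  · rintro h rfl; exact h vec_zero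
  · intro h h'; exact h (vec_inj hu (by norm_num) (h'.trans vec_zero.symm))

/-- sum over all hyperplanes as a sum over states -/
theorem outer_sum (G : Finset E → E → ℤ)
    (hinv : ∀ d, ∀ (g : Finset E) (h : E), G (g.image (mvE d)) h = G g (mvE (td d) h)) (s : ℕ) :
    ∑ h ∈ univ.filter (fun h : E => h ≠ 0), G (setOf s) h =
      ((s :: states outerMoves s).map (fun t => G (setOf t) (vec 32))).sum := by
  rw [List.map_cons, List.sum_cons,
    states_sum G (fun η => G (setOf s) (vec η)) 32 (by norm_num) outerMoves
      (fun d _ => hinv _) id s (fun η _ => rfl)]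
  have h1 : G (setOf s) (vec 32) + ((flN outerMoves id 32).map (fun η => G (setOf s) (vec η))).sum =
      ((32 :: flN outerMoves id 32).map (fun η => G (setOf s) (vec η))).sum := by
    rw [List.map_cons, List.sum_cons]
  rw [h1, (outer_perm.map _).sum_eq, list_range', Finset.sum_filter, sum_E]
  refine Finset.sum_congr rfl fun u hu => ?_
  simp only [vec_ne_zero (mem_range.1 hu)]

theorem S1_swap (g : Finset E) (h h' : E) : S1 g h (h' + h) = S2 g h h' := by
  unfold S1 S2
  refine Finset.filter_congr fun u _ => ?_
  rw [dot_add_left]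
  constructor
  · rintro ⟨a, b⟩
    rw [a] at b
    exact ⟨a, by rcases z2 (dot h' u) with q | q <;> rw [q] at b ⊢ <;> revert b <;> decide⟩
  · rintro ⟨a, b⟩
    rw [a, b]
    exact ⟨rfl, by decide⟩

theorem S2_swap (g : Finset E) (h h' : E) : S2 g h (h' + h) = S1 g h h' := by
  unfold S1 S2
  refine Finset.filter_congr fun u _ => ?_
  rw [dot_add_left]
  constructor
  · rintro ⟨a, b⟩
    rw [a] at b
    exact ⟨a, by rcases z2 (dot h' u) with q | q <;> rw [q] at b ⊢ <;> revert b <;> decide⟩
  · rintro ⟨a, b⟩
    rw [a, b]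
    exact ⟨rfl, by decide⟩

theorem kU_swap (g : Finset E) (h h' : E) : kU g h (h' + h) = kU g h h' := by
  unfold kU
  congr 1
  refine Finset.filter_congr fun u _ => ?_
  rw [dot_add_left]
  constructor
  · rintro ⟨a, b⟩
    rw [a] at b
    exact ⟨a, by simpa using b⟩
  · rintro ⟨a, b⟩
    rw [a, b]
    exact ⟨rfl, by decide⟩

theorem vv_swap (v : ℕ → ℕ → ℕ → ℤ) (g : Finset E) (h h' : E) :
    vv v g h (h' + h) = vv v g h h' := by
  unfold vv
  rw [S1_swap, S2_swap, kU_swap, mul_comm]

theorem inner_sum (v : ℕ → ℕ → ℕ → ℤ) (t : ℕ) :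
    ∑ h' ∈ univ.filter (fun h' : E => h' ≠ 0 ∧ h' ≠ vec 32), vv v (setOf t) (vec 32) h' =
      2 * ((t :: states innerMoves t).map (fun r => vv v (setOf r) (vec 32) (vec 16))).sum := by
  rw [List.map_cons, List.sum_cons,
    states_sum (fun g h' => vv v g (vec 32) h') (fun η => vv v (setOf t) (vec 32) (vec η)) 16
      (by norm_num) innerMoves ?_ id t (fun η _ => rfl)]
  · have h1 : vv v (setOf t) (vec 32) (vec 16) +
        ((flN innerMoves id 16).map (fun η => vv v (setOf t) (vec 32) (vec η))).sum =
        ((16 :: flN innerMoves id 16).map (fun η => vv v (setOf t) (vec 32) (vec η))).sum := by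
      rw [List.map_cons, List.sum_cons]
    rw [h1, (inner_perm.map _).sum_eq, list_range', Finset.sum_filter, sum_E,
      show (64 : ℕ) = 32 + 32 from rfl, Finset.sum_range_add, two_mul]
    refine congrArg₂ (· + ·) ?_ ?_
    · refine Finset.sum_congr rfl fun u hu => ?_
      have hu' := mem_range.1 hu
      have h2 : (vec u ≠ 0 ∧ vec u ≠ vec 32) ↔ u ≠ 0 := by
        rw [vec_ne_zero (by omega)]
        constructor
        · exact fun h => h.1
        · exact fun h => ⟨h, fun h' => by have := vec_inj (by omega) (by norm_num) h'; omega⟩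
      simp only [h2]
    · refine Finset.sum_congr rfl fun u hu => ?_
      have hu' := mem_range.1 hu
      have h3 : 32 + u = u ^^^ 32 := by
        have : ∀ u < 32, 32 + u = u ^^^ 32 := by decide
        exact this u hu'
      have h4 : vec (32 + u) = vec u + vec 32 := by rw [h3, vec_xor]
      have h2 : (vec (32 + u) ≠ 0 ∧ vec (32 + u) ≠ vec 32) ↔ u ≠ 0 := by
        rw [vec_ne_zero (by omega)]
        constructor
        · rintro ⟨_, h⟩ rfl; exact h rfl
        · exact fun h => ⟨by omega, fun h' => by have := vec_inj (by omega) (by norm_num) h'; omega⟩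
      simp only [h2]
      rw [h4, vv_swap]
  · intro d hd g h
    show vv v (g.image _) (vec 32) h = _
    rw [vv_image, mvE_vec, inner_fix d hd]

/-- all states of the double walk -/
def flags (s : ℕ) : List ℕ := (s :: states outerMoves s).flatMap
  (fun t => t :: states innerMoves t)

theorem Psum_flags (v : ℕ → ℕ → ℕ → ℤ) (s : ℕ) :
    Psum v (setOf s) = 2 * ((flags s).map (fun r => vv v (setOf r) (vec 32) (vec 16))).sum := by
  have h1 := outer_sum (fun g h => ∑ h' ∈ univ.filter (fun h' : E => h' ≠ 0 ∧ h' ≠ h), vv v g h h')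
    (fun d g h => inner_image v d g h) s
  unfold Psum
  rw [h1]
  simp only [inner_sum]
  unfold flags
  generalize s :: states outerMoves s = l
  induction l with
  | nil => simp
  | cons a l ih =>
    rw [List.map_cons, List.sum_cons, ih, List.flatMap_cons, List.map_append, List.sum_append]
    ring

theorem Bsum_states (φ : ℕ → ℤ) (s : ℕ) :
    Bsum φ (setOf s) = ((s :: states outerMoves s).map (fun t => φ (h0c (setOf t) (vec 32)))).sum :=
  outer_sum (fun g h => φ (h0c g h)) (fun d g h => by
    show φ (h0c _ _) = φ (h0c _ _)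
    rw [h0c_image]) s

theorem flags_lt (s : ℕ) (hs : s < 2 ^ 64) : ∀ r ∈ flags s, r < 2 ^ 64 := by
  intro r hr
  unfold flags at hr
  rw [List.mem_flatMap] at hr
  obtain ⟨t, ht, hr⟩ := hr
  have ht' : t < 2 ^ 64 := by
    rcases List.mem_cons.1 ht with rfl | h
    · exact hs
    · exact states_lt _ _ hs _ h
  rcases List.mem_cons.1 hr with rfl | h
  · exact ht'
  · exact states_lt _ _ ht' _ h

theorem walkP_eq (s : ℕ) : walkP s = ((flags s).map wcode).sum := by
  unfold walkP
  rw [force_eq, walk_eq]
  have h1 : ∀ t, innerW t = ((t :: states innerMoves t).map wcode).sum := by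
    intro t
    unfold innerW
    rw [force_eq, walk_eq, List.map_cons, List.sum_cons]
  have h2 : innerW s + ((states outerMoves s).map innerW).sum =
      ((s :: states outerMoves s).map innerW).sum := by
    rw [List.map_cons, List.sum_cons]
  rw [h2]
  unfold flags
  generalize s :: states outerMoves s = l
  induction l with
  | nil => simp
  | cons a l ih =>
    rw [List.map_cons, List.sum_cons, ih, List.flatMap_cons, List.map_append, List.sum_append, h1]

theorem walkB_eq (s : ℕ) : walkB s = ((s :: states outerMoves s).map bcode).sum := by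
  unfold walkB
  rw [force_eq, walk_eq, List.map_cons, List.sum_cons]

end Pool.Agent.Helper163
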