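import Pool.Agent.Helper163.LOne

set_option autoImplicit false

namespace Pool.Agent.Helper163

open Finset

variable {n : ℕ}

/-- The Walsh character of T at x, with values 1 and -1. -/
def chi (T x : Finset (Fin n)) : ℤ := (-1) ^ (T ∩ x).card

theorem chi_mul (T x y : Finset (Fin n)) : chi T x * chi T y = chi T (symmDiff x y) := by
  unfold chi
  rw [← pow_add]
  have h : (T ∩ x).card + (T ∩ y).card = (T ∩ symmDiff x y).card + 2 * (T ∩ x ∩ y).card := by
    have h1 : (T ∩ x).card = ((T ∩ x) \ y).card + (T ∩ x ∩ y).card := by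
      rw [← Finset.card_sdiff_add_card_inter (T ∩ x) y]
    have h2 : (T ∩ y).card = ((T ∩ y) \ x).card + (T ∩ x ∩ y).card := by
      rw [← Finset.card_sdiff_add_card_inter (T ∩ y) x]
      congr 2
      ext a; simp only [mem_inter]; tauto
    have h3 : (T ∩ symmDiff x y).card = ((T ∩ x) \ y).card + ((T ∩ y) \ x).card := by
      rw [← card_union_of_disjoint]
      · congr 1
        ext a; simp only [mem_inter, mem_symmDiff, mem_union, mem_sdiff]; tauto
      · rw [disjoint_left]
        intro a ha hb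
        simp only [mem_sdiff, mem_inter] at ha hb
        exact hb.2 ha.1.2
    omega
  rw [h, pow_add, pow_mul]
  simp

theorem chi_abs (T x : Finset (Fin n)) : |chi T x| = 1 := by
  unfold chi
  rw [abs_pow]; simp

theorem chi_empty_left (x : Finset (Fin n)) : chi ∅ x = 1 := by
  simp [chi]

theorem chi_comm (T x : Finset (Fin n)) : chi T x = chi x T := by
  unfold chi; rw [inter_comm]

theorem sum_chi (s : Finset (Fin n)) :
    ∑ T : Finset (Fin n), chi T s = if s = ∅ then 2 ^ n else 0 := by
  split_ifs with hs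
  · subst hs
    simp [chi]
  · obtain ⟨i, hi⟩ := Finset.nonempty_iff_ne_empty.2 hs
    have h : ∑ T : Finset (Fin n), chi T s = ∑ T : Finset (Fin n), -chi T s := by
      refine Finset.sum_bij' (fun T _ => symmDiff T {i}) (fun T _ => symmDiff T {i})
        (by simp) (by simp) (by intro T _; simp) (by intro T _; simp) ?_
      intro T _
      have h1 : chi (symmDiff T {i}) s = chi T s * chi {i} s := by
        rw [chi_comm, ← chi_mul, chi_comm s, chi_comm s]
      have h2 : chi {i} s = -1 := by
        unfold chi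
        rw [Finset.singleton_inter_of_mem hi]
        simp
      rw [h1, h2]; ring
    rw [Finset.sum_neg_distrib] at h
    linarith

/-- The Walsh transform of the family G. -/
def tr (G : Finset (Finset (Fin n))) (T : Finset (Fin n)) : ℤ := ∑ x ∈ G, chi T x

theorem tr_empty (G : Finset (Finset (Fin n))) : tr G ∅ = G.card := by
  simp [tr, chi_empty_left]

theorem parseval (G : Finset (Finset (Fin n))) :
    ∑ T : Finset (Fin n), tr G T ^ 2 = 2 ^ n * G.card := by
  have h : ∀ T : Finset (Fin n), tr G T ^ 2 = ∑ x ∈ G, ∑ y ∈ G, chi T (symmDiff x y) := by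
    intro T
    rw [pow_two]
    unfold tr
    rw [Finset.sum_mul_sum]
    exact Finset.sum_congr rfl fun x _ => Finset.sum_congr rfl fun y _ => chi_mul T x y
  simp only [h]
  rw [Finset.sum_comm]
  have h2 : ∀ x ∈ G, ∑ T : Finset (Fin n), ∑ y ∈ G, chi T (symmDiff x y) = 2 ^ n := by
    intro x hx
    rw [Finset.sum_comm]
    rw [Finset.sum_eq_single x]
    · rw [sum_chi]; simp
    · intro y _ hyx
      rw [sum_chi, if_neg]
      intro h
      exact hyx (by simpa [eq_comm] using h)
    · intro h; exact absurd hx h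
  rw [Finset.sum_congr rfl h2]
  simp [mul_comm]

/-- For an up-set the transform at T is bounded by the influence of every element of T. -/
theorem tr_bound (G : Finset (Finset (Fin n))) (hup : ∀ x ∈ G, ∀ y, x ⊆ y → y ∈ G)
    (T : Finset (Fin n)) (i : Fin n) (hi : i ∈ T) :
    |tr G T| ≤ (G.card : ℤ) - 2 * (G.filter (fun x => i ∉ x)).card := by
  classical
  set G0 := G.filter (fun x => i ∉ x) with hG0
  set G1 := G.filter (fun x => i ∈ x) with hG1
  have hcard : (G.card : ℤ) = G1.card + G0.card := by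
    rw [hG0, hG1]
    exact_mod_cast (Finset.card_filter_add_card_filter_not (s := G) (fun x => i ∈ x)).symm
  have hsplit : tr G T = ∑ x ∈ G1, chi T x + ∑ x ∈ G0, chi T x := by
    unfold tr
    rw [hG0, hG1, Finset.sum_filter_add_sum_filter_not]
  -- image of G0 under inserting i
  let J := G0.image (fun x => insert i x)
  have hinj : Set.InjOn (fun x : Finset (Fin n) => insert i x) (G0 : Set (Finset (Fin n))) := by
    intro x hx y hy hxy
    have hx' : i ∉ x := by
      have := Finset.mem_coe.1 hx; rw [hG0, mem_filter] at this; exact this.2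
    have hy' : i ∉ y := by
      have := Finset.mem_coe.1 hy; rw [hG0, mem_filter] at this; exact this.2
    have : (insert i x).erase i = (insert i y).erase i := by
      simp only at hxy; rw [hxy]
    rwa [erase_insert hx', erase_insert hy'] at this
  have hJsub : J ⊆ G1 := by
    intro y hy
    obtain ⟨x, hx, rfl⟩ := Finset.mem_image.1 hy
    rw [hG0, mem_filter] at hx
    rw [hG1, mem_filter]
    exact ⟨hup x hx.1 _ (subset_insert i x), mem_insert_self i x⟩
  have hJcard : J.card = G0.card := Finset.card_image_of_injOn hinj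
  have hJsum : ∑ y ∈ J, chi T y = -∑ x ∈ G0, chi T x := by
    rw [Finset.sum_image hinj, ← Finset.sum_neg_distrib]
    refine Finset.sum_congr rfl fun x hx => ?_
    rw [hG0, mem_filter] at hx
    unfold chi
    have : (T ∩ insert i x).card = (T ∩ x).card + 1 := by
      rw [Finset.inter_insert_of_mem hi, card_insert_of_notMem]
      simp [hx.2]
    rw [this, pow_succ]; ring
  have h1 : ∑ x ∈ G1, chi T x = ∑ x ∈ G1 \ J, chi T x + ∑ x ∈ J, chi T x :=
    (Finset.sum_sdiff hJsub).symm
  have h2 : tr G T = ∑ x ∈ G1 \ J, chi T x := by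
    rw [hsplit, h1, hJsum]; ring
  rw [h2]
  calc |∑ x ∈ G1 \ J, chi T x| ≤ ∑ x ∈ G1 \ J, |chi T x| := Finset.abs_sum_le_sum_abs _ _
    _ = (G1 \ J).card := by simp [chi_abs]
    _ = (G1.card : ℤ) - J.card := by
        rw [Finset.card_sdiff_of_subset hJsub]
        have := Finset.card_le_card hJsub
        omega
    _ = _ := by rw [hJcard, hcard]; ring


/-- up-sets of the cube -/
def Up (G : Finset (Finset (Fin n))) : Prop := ∀ x ∈ G, ∀ y, x ⊆ y → y ∈ G

theorem cubic3 (A B C : Finset (Finset (Fin n))) (h : Cross3 A B C) :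
    ∑ T : Finset (Fin n), tr A T * tr B T * tr C T = 0 := by
  have h1 : ∀ T : Finset (Fin n), tr A T * tr B T * tr C T =
      ∑ x ∈ A, ∑ y ∈ B, ∑ z ∈ C, chi T (symmDiff (symmDiff x y) z) := by
    intro T
    unfold tr
    rw [Finset.sum_mul_sum, Finset.sum_mul]
    refine Finset.sum_congr rfl fun x _ => ?_
    rw [Finset.sum_mul]
    refine Finset.sum_congr rfl fun y _ => ?_
    rw [Finset.mul_sum]
    refine Finset.sum_congr rfl fun z _ => ?_
    rw [chi_mul, chi_mul]
  simp only [h1]
  rw [Finset.sum_comm]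
  refine Finset.sum_eq_zero fun x hx => ?_
  rw [Finset.sum_comm]
  refine Finset.sum_eq_zero fun y hy => ?_
  rw [Finset.sum_comm]
  refine Finset.sum_eq_zero fun z hz => ?_
  rw [sum_chi, if_neg]
  intro he
  obtain ⟨a, ha⟩ := h x hx y hy z hz
  have h2 : a ∉ symmDiff (symmDiff x y) z := by rw [he]; simp
  simp only [mem_symmDiff, mem_inter] at h2 ha
  tauto

/-- for up-sets, some coordinate of the first family has large influence -/
theorem big_coord (A B C : Finset (Finset (Fin n))) (hA : Up A) (h : Cross3 A B C)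
    (hAn : A.Nonempty) (hBn : B.Nonempty) (hCn : C.Nonempty) :
    ∃ i : Fin n, (A.card : ℤ) ^ 2 * (B.card * C.card) ≤
      ((A.card : ℤ) - 2 * (A.filter (fun x => i ∉ x)).card) ^ 2 *
        ((2 ^ n - B.card) * (2 ^ n - C.card)) ∧
      0 ≤ (A.card : ℤ) - 2 * (A.filter (fun x => i ∉ x)).card := by
  classical
  obtain ⟨x, hx⟩ := hAn
  obtain ⟨y, hy⟩ := hBn
  obtain ⟨z, hz⟩ := hCn
  obtain ⟨j, _⟩ := h x hx y hy z hz
  have : Nonempty (Fin n) := ⟨j⟩
  obtain ⟨i, _, hi⟩ := Finset.exists_min_image (univ : Finset (Fin n))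
    (fun i => (A.filter (fun x => i ∉ x)).card) univ_nonempty
  refine ⟨i, ?_, ?_⟩
  swap
  · have := (abs_nonneg _).trans (tr_bound A hA {i} i (by simp))
    exact this
  set w : ℤ := (A.card : ℤ) - 2 * (A.filter (fun x => i ∉ x)).card with hw
  have hw0 : 0 ≤ w := (abs_nonneg _).trans (tr_bound A hA {i} i (by simp))
  have hb : ∀ T : Finset (Fin n), T ≠ ∅ → |tr A T| ≤ w := by
    intro T hT
    obtain ⟨k, hk⟩ := Finset.nonempty_iff_ne_empty.2 hT
    have h1 := tr_bound A hA T k hk
    have h2 := hi k (mem_univ k)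
    have h3 : ((A.filter (fun x => i ∉ x)).card : ℤ) ≤ (A.filter (fun x => k ∉ x)).card := by
      exact_mod_cast h2
    rw [hw]; linarith
  have hc := cubic3 A B C h
  rw [← Finset.sum_erase_add (univ : Finset (Finset (Fin n))) _ (mem_univ ∅), tr_empty, tr_empty,
    tr_empty] at hc
  have pB := parseval B
  have pC := parseval C
  rw [← Finset.sum_erase_add (univ : Finset (Finset (Fin n))) _ (mem_univ ∅), tr_empty] at pB pC
  set U := (univ : Finset (Finset (Fin n))).erase ∅ with hU
  have hcs := Finset.sum_mul_sq_le_sq_mul_sq U (fun T => |tr B T|) (fun T => |tr C T|)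
  simp only [sq_abs] at hcs
  have h4 : (A.card : ℤ) * B.card * C.card ≤ w * ∑ T ∈ U, |tr B T| * |tr C T| := by
    have h5 : (A.card : ℤ) * B.card * C.card = ∑ T ∈ U, -(tr A T * tr B T * tr C T) := by
      rw [Finset.sum_neg_distrib]; linarith
    rw [h5, Finset.mul_sum]
    refine Finset.sum_le_sum fun T hT => ?_
    have h6 := hb T (Finset.ne_of_mem_erase hT)
    calc -(tr A T * tr B T * tr C T) ≤ |tr A T * tr B T * tr C T| := neg_le_abs _
      _ = |tr A T| * (|tr B T| * |tr C T|) := by rw [abs_mul, abs_mul]; ring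
      _ ≤ w * (|tr B T| * |tr C T|) := mul_le_mul_of_nonneg_right h6 (by positivity)
  have hS0 : 0 ≤ ∑ T ∈ U, |tr B T| * |tr C T| := Finset.sum_nonneg fun T _ => by positivity
  have h7 : ((A.card : ℤ) * B.card * C.card) ^ 2 ≤ (w * ∑ T ∈ U, |tr B T| * |tr C T|) ^ 2 := by
    apply pow_le_pow_left₀ (by positivity) h4
  have hB2 : ∑ T ∈ U, tr B T ^ 2 = (B.card : ℤ) * (2 ^ n - B.card) := by linarith
  have hC2 : ∑ T ∈ U, tr C T ^ 2 = (C.card : ℤ) * (2 ^ n - C.card) := by linarith
  rw [hB2, hC2] at hcs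
  have h8 : (w * ∑ T ∈ U, |tr B T| * |tr C T|) ^ 2 ≤
      w ^ 2 * ((B.card : ℤ) * (2 ^ n - B.card) * ((C.card : ℤ) * (2 ^ n - C.card))) := by
    rw [mul_pow]
    exact mul_le_mul_of_nonneg_left hcs (sq_nonneg w)
  have h9 := h7.trans h8
  have hBp : (0 : ℤ) < B.card := by exact_mod_cast Finset.card_pos.2 ⟨y, hy⟩
  have hCp : (0 : ℤ) < C.card := by exact_mod_cast Finset.card_pos.2 ⟨z, hz⟩
  have h10 : 0 ≤ ((B.card : ℤ) * C.card) * (w ^ 2 * ((2 ^ n - (B.card : ℤ)) * (2 ^ n - C.card)) -
      (A.card : ℤ) ^ 2 * (B.card * C.card)) := by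
    nlinarith [h9]
  have h11 := nonneg_of_mul_nonneg_right h10 (mul_pos hBp hCp)
  linarith

end Pool.Agent.Helper163
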